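import Pool.Agent.Helper38.SD.Defs2

/-!
# Project SD (MP_fc6b1e_nt): the definitions of the final statement

`Ω` is the algebraic closure of the number field `K`, `p` is a prime number. `SplitP`, `NC`: see
`Pool/Agent/Helper16/SD/Defs.lean` and `DefsN.lean`; a tower (`IsTower`) is a `ℤ_p`-extension of `K`, `Hat` is the set of
its characters of finite order.
-/

set_option autoImplicit false

namespace Pool.Agent.Helper38.SDS

open NumberField Module TensorProduct Pool.Agent.Helper51.SigLeo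
open Pool.Agent.Helper38.FD (Chr CutsOut IsOrdinary)
open Pool.Agent.Helper38.TH (IsTower Hat)
open Pool.Agent.Helper38.SD (Cov)
open Pool.Agent.Helper42.RD (TSet)
open Pool.Agent.Helper17.TH (ug)

section abstract

variable {G M k : Type} [Field k] [AddCommGroup M]

/-- The dimension of the space of the `v ∈ k ⊗ M` with `a_g v = χ(g) v` for all `g ∈ G` and `ℓ(v) = 0` for all
`ℓ ∈ T`. -/
noncomputable def kerDim (χ : G → k) (a : G → M →+ M) (T : Set (M →+ k)) : ℕ :=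
  finrank k ((⨅ g, End.eigenspace (extEnd (a g)) (χ g)) ⊓
    ⨅ ℓ ∈ T, LinearMap.ker (extHom ℓ) : Submodule k (k ⊗[ℤ] M))

end abstract

variable {p : ℕ} [Fact p.Prime] {K : Type} [Field K]

/-- The dimension of the kernel of the logarithms at all the embeddings `τ : F → ℂ_p` above `T`, on the `χ`-part of
`ℂ_p ⊗ (𝓞_F)ˣ`. -/
noncomputable def logDim (Lg : IwasawaLog p ℂ_[p]) (F : IntermediateField K (AlgebraicClosure K))
    [Normal K F] (χ : Chr K (AlgebraicClosure K) ℂ_[p]) (T : Set (K →+* ℂ_[p])) : ℕ :=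
  kerDim (fun g ↦ ((χ g : ℂ_[p]ˣ) : ℂ_[p])) (ug F)
    {ℓ | ∃ τ : F →+* ℂ_[p], τ.comp (algebraMap K F) ∈ T ∧ ℓ = logUnits Lg τ}

/-- Let `F` be the field of `χ` (a finite Galois extension of `K`). For every set `T` of `a` embeddings of `K` in `ℂ_p`,
the kernel of the logarithms above `T` on the `χ`-part of the units of `F` has dimension at most `d²/(d + a)`. -/
def Bd₁ (d : ℕ) (Lg : IwasawaLog p ℂ_[p]) (χ : Chr K (AlgebraicClosure K) ℂ_[p]) : Prop :=
  ∀ (F : IntermediateField K (AlgebraicClosure K)) [NumberField F] [IsGalois K F],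
    CutsOut χ F → ∀ T : Finset (K →+* ℂ_[p]),
    (d + T.card) * logDim Lg F χ T ≤ d ^ 2

/-- The same with `(2 d - a)²/(3 d - a)`. -/
def Bd₂ (d : ℕ) (Lg : IwasawaLog p ℂ_[p]) (χ : Chr K (AlgebraicClosure K) ℂ_[p]) : Prop :=
  ∀ (F : IntermediateField K (AlgebraicClosure K)) [NumberField F] [IsGalois K F],
    CutsOut χ F → ∀ T : Finset (K →+* ℂ_[p]),
    (3 * d - T.card) * logDim Lg F χ T ≤ (2 * d - T.card) ^ 2

/-- The kernel of `log_{S,p}` on the `χ`-part of the units has dimension at most `d/3` (for `d ≤ 2` this says that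
`log_{S,p}` is injective). -/
def Third (d : ℕ) (ιinf : AlgebraicClosure K →+* ℂ) (ιp : AlgebraicClosure K →+* ℂ_[p])
    (Lg : IwasawaLog p ℂ_[p]) (χ : Chr K (AlgebraicClosure K) ℂ_[p]) (S : Set (K →+* ℂ)) : Prop :=
  ∀ (F : IntermediateField K (AlgebraicClosure K)) [NumberField F] [IsGalois K F],
    CutsOut χ F → 3 * logDim Lg F χ (TSet ιinf ιp S) ≤ d

/-- The `Σ`-Leopoldt statement for `χ` and for all its conjugates `χ'` over `ℚ_p`: `log_{S,p}` is injective on the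
`χ'`-part of the units of the field of `χ'`. -/
def GoodFor (ιinf : AlgebraicClosure K →+* ℂ) (ιp : AlgebraicClosure K →+* ℂ_[p])
    (Lg : IwasawaLog p ℂ_[p]) (S : Set (K →+* ℂ)) (χ : Chr K (AlgebraicClosure K) ℂ_[p]) : Prop :=
  ∀ (σ : ℂ_[p] ≃ₐ[ℚ_[p]] ℂ_[p]) (χ' : Chr K (AlgebraicClosure K) ℂ_[p]),
    (∀ g, ((χ' g : ℂ_[p]ˣ) : ℂ_[p]) = σ (χ g : ℂ_[p]ˣ)) →
    ∀ (F : IntermediateField K (AlgebraicClosure K)) [NumberField F] [IsGalois K F],
      CutsOut χ' F → logDim Lg F χ' (TSet ιinf ιp S) = 0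

/-- The conclusion for the character `χ`: the bounds, the CM types (`Cov`, and there are at least `d`, for odd `d` at least
`d + 1` of them), and for every `ℤ_p`-extension `η'` of `K` and all but finitely many characters `ξ'` of finite order of
`η'`: the bounds for `χ ξ'`, and the `Σ`-Leopoldt statement holds for `χ ξ'` and every set `S` for which it holds for
`χ`. -/
structure Rich (d : ℕ) (ιinf : AlgebraicClosure K →+* ℂ) (ιp : AlgebraicClosure K →+* ℂ_[p])
    (Lg : IwasawaLog p ℂ_[p]) (χ : Chr K (AlgebraicClosure K) ℂ_[p]) : Prop where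
  bd₁ : Bd₁ d Lg χ
  bd₂ : Bd₂ d Lg χ
  cov : Cov (Even d) fun S : Set (K →+* ℂ) ↦ IsOrdinary ιinf ιp S ∧ GoodFor ιinf ιp Lg S χ
  card : d + d % 2 ≤
    {S : Set (K →+* ℂ) | IsCMType S ∧ IsOrdinary ιinf ιp S ∧ GoodFor ιinf ιp Lg S χ}.ncard
  tower : ∀ η' : ℕ → Chr K (AlgebraicClosure K) ℂ_[p], IsTower η' →
    {ξ' | ξ' ∈ Hat η' ∧ ¬ (Bd₁ d Lg (χ * ξ') ∧ Bd₂ d Lg (χ * ξ') ∧
      ∀ S : Set (K →+* ℂ), GoodFor ιinf ιp Lg S χ → GoodFor ιinf ιp Lg S (χ * ξ'))}.Finite

end Pool.Agent.Helper38.SDS
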