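import Mathlib

/-!
# Project SD (MP_fc6b1e_nt), part M: the number of independent transversals (goals)

`I` is a set of `2 d` elements with an involution `c` without fixed points. Every statement is a `def ... : Prop` with its
complete proof in the docstring.
-/

set_option autoImplicit false

namespace Pool.Agent.Helper38.SD

open Module

/-- The polytope of the `x : I → ℝ` with `x ≥ 0`, `x i + x (c i) = 1` and `x(A) ≤ r(A)` for all `A`. -/
def Pol {I : Type} (c : I → I) (r : Finset I → ℕ) : Set (I → ℝ) :=
  {x | (∀ i, 0 ≤ x i) ∧ (∀ i, x i + x (c i) = 1) ∧ ∀ A : Finset I, ∑ i ∈ A, x i ≤ r A}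

/-- **M_EXT** (the extreme points are integral: matroid intersection for the matroid of pairs).

PROOF. Notation `x(A) = ∑ i ∈ A, x i`. Let `x` be an extreme point and `F = {i | x i ≠ 0 and x i ≠ 1}`, i.e. `0 < x i < 1` (`x i ≤ 1` because `x (c i) ≥ 0`); `F` is stable under `c`. Suppose `F` is not empty. `A` is *tight* if `x(A) = r(A)`. Unions and intersections of two tight sets are tight: `x(A ∪ B) + x(A ∩ B) = x(A) + x(B) = r(A) + r(B) ≥ r(A ∪ B) + r(A ∩ B) ≥ x(A ∪ B) + x(A ∩ B)`
(`Finset.sum_union_inter`). `univ` is tight: `2 x(univ) = ∑ i, (x i + x (c i)) = 2 d` (`c` is a bijection). For `i : I` let `T i` be the intersection of all the tight sets which contain `i` (a nonempty finite family: `Finset.inf'`, or take a tight set containing `i` of minimal cardinality and show by intersecting that it is contained in every tight set containing `i`): `T i` is tight, `i ∈ T i`, and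
`T j ⊆ T i` for `j ∈ T i`. (1) *For `i ∈ F` there is `j ∈ F`, `j ≠ i`, with `T j = T i`.* Let `D = {j | T j = T i}`, `D ⊆ T i`. `T i \ D` is the union of the `T j` with `j ∈ T i`, `i ∉ T j` (if `j ∈ T i` and `T j ≠ T i` then `i ∉ T j`, otherwise `T i ⊆ T j`; if `k ∈ T j`, `i ∉ T j`, then `T k ⊆ T j` does not contain `i`, so `k ∉ D`); a nonempty union of tight sets is tight, and `x(∅) = 0`, so
`x(T i \ D)` is an integer, and `x(D) = x(T i) - x(T i \ D)` is an integer. If `i` were the only element of `D ∩ F`, then `x(D)` would be `x i` plus an integer, which is not an integer. (2) *The walk.* For `i ∈ F`, `c i ∈ F`, let `n(i) ∈ F`, `n(i) ≠ c i`, `T (n(i)) = T (c i)` (by (1) for `c i`). Let `i_0 ∈ F`, `i_(k+1) = n(i_k)`, `a_k = T (i_k)`, so `a_(k+1) = T (c i_k)`. Let `t` be minimal such that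
`a_t = a_s` for some `s < t` (it exists, finitely many sets: `Finite.exists_ne_map_eq_of_infinite`, `Nat.find`); so `a_s, ..., a_(t-1)` are distinct. Let `z = ∑_{k = s}^{t-1} (e_{i_k} - e_{c i_k})`, i.e. `z j = ∑_{k ∈ Ico s t} ((if j = i_k then 1 else 0) - (if j = c i_k then 1 else 0))`. Then `z (c j) = - z j`; `z j = 0` for `j ∉ F`; for a tight set `A`,
`z(A) = ∑_k ([i_k ∈ A] - [c i_k ∈ A]) = ∑_k ([i_k ∈ A] - [i_(k+1) ∈ A]) = [i_s ∈ A] - [i_t ∈ A] = 0` (`j ∈ A ↔ T j ⊆ A` for `A` tight, so membership in a tight set depends only on `T j`; telescoping sum `Finset.sum_Ico_sub` or similar). `z ≠ 0`: `z (i_s) = 1`: the `i_k`, `s < k < t`, are different from `i_s` because `a_k ≠ a_s`; if `c i_k = i_s`, `s ≤ k < t`, then `a_(k+1) = a_s`, so `k + 1 = t`; `k = s` is impossible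
(`c i_s ≠ i_s`), so `k > s`, and `i_k = c i_s`, `a_k = T (c i_s) = a_(s+1)`, `k = s + 1`, `i_(s+1) = c i_s`, a contradiction to `n(i_s) ≠ c i_s`. (3) For `ε > 0` small `x + ε z` and `x - ε z` are in `Pol c r`: for tight `A` the sum does not change, for the other `A` (finitely many) `x(A) < r(A)`, and `x i > 0` for `i ∈ F`. `x` is the midpoint, so it is not an extreme point (`mem_extremePoints`, `openSegment`), a contradiction. -/
def M_EXT : Prop :=
  ∀ (I : Type) [Fintype I] [DecidableEq I] (c : I → I) (r : Finset I → ℕ) (d : ℕ),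
  (∀ i, c (c i) = i) → (∀ i, c i ≠ i) → Fintype.card I = 2 * d → r Finset.univ = d →
  (∀ A B : Finset I, r (A ∪ B) + r (A ∩ B) ≤ r A + r B) →
  ∀ x ∈ (Pol c r).extremePoints ℝ, ∀ i, x i = 0 ∨ x i = 1

/-- **M_HUL** (the polytope is the convex hull of its integral points).

PROOF (from `M_EXT`). `Pol c r` is convex, closed and bounded (`0 ≤ x i ≤ 1`), so compact. By Krein-Milman (`closure_convexHull_extremePoints`) it is the closure of the convex hull of its extreme points, which are in the finite set `G` of its points with coordinates in `{0, 1}`; the convex hull of a finite set is closed (`Set.Finite.isClosed_convexHull` or `Set.Finite.isCompact_convexHull`). -/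
def M_HUL : Prop :=
  ∀ (I : Type) [Fintype I] [DecidableEq I] (c : I → I) (r : Finset I → ℕ) (d : ℕ),
  (∀ i, c (c i) = i) → (∀ i, c i ≠ i) → Fintype.card I = 2 * d → r Finset.univ = d →
  (∀ A B : Finset I, r (A ∪ B) + r (A ∩ B) ≤ r A + r B) →
  Pol c r ⊆ convexHull ℝ {x | x ∈ Pol c r ∧ ∀ i, x i = 0 ∨ x i = 1}

/-- **M_CNT** (the number of independent transversals). `r(T)` is the dimension of the span of the `l i`, `i ∈ T`; `2 r(T) ≥ |T|` for all `T`, with
strict inequality if `0 < |T| < 2 d`, `|T| ≠ d`. Then there are at least `d` independent transversals of the pairs `{i, c i}`, and at least `d + 1` if `d` is odd.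

PROOF (from `M_HUL`). `d = 0` is trivial (the empty transversal is not even needed). Let `d ≥ 1`. `r` is submodular (`Submodule.finrank_sup_add_finrank_inf_eq`), `r(univ) = d` (`2 r(univ) ≥ 2 d` and `r ≤ finrank V = d`), `r(T) ≤ |T|`. Let `𝒮` be the (finite) set of the independent transversals; an integral point `x` of `Pol c r` is the indicator function of `S = {i | x i = 1}`, `S` is a transversal, `|S| = d` and
`d = x(S) ≤ r(S)`, so the `l i`, `i ∈ S`, are independent. So the set `G` of the integral points has at most `|𝒮|` elements (the map `x ↦ S` is injective), and `Pol c r ⊆ convexHull G`. *Tight sets:* `A` is tight if `|A| = d` and `2 r(A) = d` (impossible if `d` is odd). If `A`, `B` are tight then `B = A` or `B = Aᶜ`: `2 r(A ∪ B) + 2 r(A ∩ B) ≤ 2 d = |A ∪ B| + |A ∩ B|`, so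
`2 r(A ∪ B) = |A ∪ B|`; if `A ≠ B` then `|A ∪ B| > d`, so `|A ∪ B| = 2 d`, `Aᶜ ⊆ B`, `B = Aᶜ`. Let `W` be the space of the `z : I → ℝ` with `z (c i) = - z i` for all `i` (dimension `d`), and, if there is a tight set `A₀`, with `z(A₀) = 0` (dimension `≥ d - 1`; `z(univ) = 0` for `z ∈ W`, so also `z(A₀ᶜ) = 0`). So `dim W ≥ d` if `d` is odd and `≥ d - 1` otherwise. Let `h` be the constant function `1/2`. For `z ∈ W` there is `ε > 0` with
`h + ε z ∈ Pol c r`: `(h + ε z)(A) = |A|/2 + ε z(A)`; if `2 r(A) > |A|` this is `≤ r(A)` for small `ε` (finitely many `A`); if `2 r(A) = |A|` then `|A| ∈ {0, 2 d}` or `A` is tight, and `z(A) = 0`. Also `h ∈ Pol c r`. So `h` and `h + ε z` are in the affine span of `G`, so `z` is in its direction `vectorSpan ℝ G` (`convexHull_subset_affineSpan`, `vsub_mem_vectorSpan`, `direction_affineSpan`): `W ≤ vectorSpan ℝ G`, which has dimension `≤ |G| - 1` (`finrank_vectorSpan_range_le`,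
`finrank_vectorSpan_image_finset_le`; `G` is not empty because `h` is in its convex hull). So `|𝒮| ≥ |G| ≥ dim W + 1`, which is `≥ d + 1` for `d` odd and `≥ d` for `d` even. (`dim W`: let `R` be a set of representatives of the pairs, for instance `R = {i | i < c i}` for a linear order of `I`, `|R| = d`; `z ↦ z|_R` is an isomorphism from the antisymmetric functions to `R → ℝ`; one linear condition reduces the dimension by at most `1`. Or count by rank-nullity.) -/
def M_CNT : Prop :=
  ∀ (k V I : Type) [Field k] [AddCommGroup V] [Module k V] [FiniteDimensional k V] [Fintype I]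
    [DecidableEq I] (c : I → I) (l : I → V) (d : ℕ), finrank k V = d →
  (∀ i, c (c i) = i) → (∀ i, c i ≠ i) → Fintype.card I = 2 * d →
  (∀ T : Finset I, T.card ≤ 2 * finrank k (Submodule.span k (l '' (T : Set I)))) →
  (∀ T : Finset I, 0 < T.card → T.card < 2 * d → T.card ≠ d →
    T.card < 2 * finrank k (Submodule.span k (l '' (T : Set I)))) →
  d + d % 2 ≤ {S : Set I | (∀ i, i ∈ S ↔ c i ∉ S) ∧ LinearIndependent k (fun i : S ↦ l i)}.ncard

end Pool.Agent.Helper38.SD
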