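import Pool.Agent.Helper38.FW.Defs

/-!
# Project SD, part A: places of a field in which `p` splits completely
-/

set_option autoImplicit false

namespace Pool.Agent.Helper38.SD

open NumberField Pool.Agent.Helper51.SigLeo
open Pool.Agent.Helper38.FD (Chr CutsOut LeopoldtFor IsOrdinary)

/-- Two embeddings `a, b : K → ℚ_p` with the same absolute value are equal. -/
theorem eq_of_norm_eq {p : ℕ} [Fact p.Prime] {K : Type} [Field K] (a b : K →+* ℂ_[p])
    (ha : ∀ x, ∃ y : ℚ_[p], a x = algebraMap ℚ_[p] ℂ_[p] y) (h : ∀ x, ‖a x‖ = ‖b x‖) : a = b := by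
  ext x
  obtain ⟨y, hy⟩ := ha x
  by_contra hne
  have hpos : 0 < ‖a x - b x‖ := norm_pos_iff.2 (sub_ne_zero.2 hne)
  have : CharZero K := (RingHom.charZero_iff (ϕ := a) a.injective).2 inferInstance
  have hd : ∃ r : ℚ, ‖y - (r : ℚ_[p])‖ < ‖a x - b x‖ := by
    obtain ⟨r, hr⟩ := Padic.rat_dense p y hpos
    exact ⟨r, hr⟩
  obtain ⟨r, hr⟩ := hd
  have h1 : ‖a (x - r)‖ < ‖a x - b x‖ := by
    rw [map_sub, hy, map_ratCast]
    rw [show (algebraMap ℚ_[p] ℂ_[p]) y - (r : ℂ_[p]) = algebraMap ℚ_[p] ℂ_[p] (y - r) by simp]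
    rw [norm_algebraMap']
    rw [← hy]
    exact hr
  have h2 : ‖b (x - r)‖ < ‖a x - b x‖ := by rw [← h]; exact h1
  have h3 : a x - b x = a (x - r) - b (x - r) := by
    rw [map_sub, map_sub, map_ratCast, map_ratCast]; ring
  have h4 : ‖a x - b x‖ ≤ max ‖a (x - r)‖ ‖b (x - r)‖ := by
    conv_lhs => rw [h3, sub_eq_add_neg]
    refine (IsUltrametricDist.norm_add_le_max _ _).trans_eq ?_
    rw [norm_neg]
  exact absurd (h4.trans_lt (max_lt h1 h2)) (lt_irrefl _)

/-- If `p` splits completely in `K`, all sets of embeddings are `p`-ordinary. -/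
theorem isOrdinary_of_split {p : ℕ} [Fact p.Prime] {K : Type} [Field K]
    (hs : ∀ (σ : K →+* ℂ_[p]) (x : K), ∃ y : ℚ_[p], σ x = algebraMap ℚ_[p] ℂ_[p] y)
    (ιinf : AlgebraicClosure K →+* ℂ) (ιp : AlgebraicClosure K →+* ℂ_[p]) (S : Set (K →+* ℂ)) :
    IsOrdinary ιinf ιp S := by
  intro σ τ h
  have h1 : ιp.comp σ = ιp.comp τ := eq_of_norm_eq _ _ (hs _) h
  have h2 : σ = τ := by
    ext x
    exact ιp.injective (DFunLike.congr_fun h1 x)
  rw [h2]

end Pool.Agent.Helper38.SD
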