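import Pool.Agent.Helper38.SD.Dual
import Pool.Agent.Helper38.SD.Prep
import Pool.Agent.Helper38.SD.GoalsB
import Pool.Agent.Helper8.TH.DINV
import Pool.Agent.Helper35.RD.RSP

/-!
# Project SD, part A: from the bounds to the CM types
-/

set_option autoImplicit false

namespace Pool.Agent.Helper38.SD

open NumberField Module IsDedekindDomain TensorProduct
open Pool.Agent.Helper51.SigLeo Pool.Agent.Helper51.RP
open Pool.Agent.Helper16.SD
open Pool.Agent.Helper42.RD (TSet)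
open Pool.Agent.Helper38.FD (Chr CutsOut LeopoldtFor IsOrdinary)
open Pool.Agent.Helper38.FW (InDec)
open Pool.Agent.Helper38.TH (IsTower Hat NoSplit)

/-- numerics -/
theorem num_a (d a r x : ℕ) (hd : r + x = d) (ha : a ≤ 2 * d) (h1 : (d + a) * x ≤ d ^ 2)
    (h2 : (3 * d - a) * x ≤ (2 * d - a) ^ 2) : a ≤ 2 * r := by
  by_contra h
  rcases Nat.le_total a d with had | had
  · have h3 : 2 * d + 1 ≤ 2 * x + a := by omega
    nlinarith
  · obtain ⟨b, hb⟩ := Nat.exists_eq_add_of_le ha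
    have e1 : 3 * d - a = d + b := by omega
    have e2 : 2 * d - a = b := by omega
    rw [e1, e2] at h2
    have h3 : b + 1 ≤ 2 * x := by omega
    have h4 : b ≤ d := by omega
    nlinarith

theorem num_b (d a r x : ℕ) (hd : r + x = d) (ha : a < 2 * d) (h0 : 0 < a) (hne : a ≠ d)
    (h1 : (d + a) * x ≤ d ^ 2) (h2 : (3 * d - a) * x ≤ (2 * d - a) ^ 2) : a < 2 * r := by
  by_contra h
  rcases Nat.lt_or_ge a d with had | had
  · have h3 : 2 * d ≤ 2 * x + a := by omega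
    nlinarith
  · obtain ⟨b, hb⟩ := Nat.exists_eq_add_of_le ha.le
    have e1 : 3 * d - a = d + b := by omega
    have e2 : 2 * d - a = b := by omega
    rw [e1, e2] at h2
    have h3 : b ≤ 2 * x := by omega
    have h4 : b < d := by omega
    have h5 : 0 < b := by omega
    nlinarith

section

variable {p : ℕ} [Fact p.Prime] {K : Type} [Field K] [NumberField K]

omit [NumberField K] in
theorem placeClosed_of_split (hs : SplitP p K) (T : Set (K →+* ℂ_[p])) : PlaceClosed T := by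
  intro σ τ h
  rw [eq_of_norm_eq σ τ (hs σ) h]

/-- The field of a character of finite order. -/
theorem finOrd_field {χ : Chr K (AlgebraicClosure K) ℂ_[p]} (h : FinOrd χ) :
    ∃ F : IntermediateField K (AlgebraicClosure K), NumberField F ∧ IsGalois K F ∧
      CutsOut χ F := by
  obtain ⟨H, hH, hcut⟩ := h
  refine ⟨H, ?_, ?_, hcut⟩
  · have : CharZero H := charZero_of_injective_algebraMap (algebraMap K H).injective
    have : FiniteDimensional ℚ H := FiniteDimensional.trans ℚ K H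
    exact ⟨⟩
  · have hn : H.fixingSubgroup.Normal := by
      have h1 : H.fixingSubgroup = χ.ker := by
        ext g
        rw [MonoidHom.mem_ker, hcut g, IntermediateField.mem_fixingSubgroup_iff]
      rw [h1]
      infer_instance
    exact (InfiniteGalois.normal_iff_isGalois H).1 hn

/-- `LeopoldtFor` for all the conjugates. -/
theorem goodFor_of (hF : M_FUN) (hs : SplitP p K) (ιinf : AlgebraicClosure K →+* ℂ)
    (ιp : AlgebraicClosure K →+* ℂ_[p]) (Lg : IwasawaLog p ℂ_[p]) (S : Set (K →+* ℂ))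
    (χ : Chr K (AlgebraicClosure K) ℂ_[p]) (h : LeopoldtFor ιinf ιp Lg S χ) :
    GoodFor ιinf ιp Lg S χ := by
  intro σ F _ _ hcut
  have h1 := Pool.Agent.Helper8.TH.d_inv p K ιinf ιp Lg S (placeClosed_of_split hs _) χ h σ
  exact (leopoldt_iff hF ιinf ιp Lg S F _ fun g hg ↦ (hcut g).2 hg).1 h1

theorem leopoldt_of_good (hF : M_FUN) (ιinf : AlgebraicClosure K →+* ℂ)
    (ιp : AlgebraicClosure K →+* ℂ_[p]) (Lg : IwasawaLog p ℂ_[p]) (S : Set (K →+* ℂ))
    (χ : Chr K (AlgebraicClosure K) ℂ_[p]) (hχ : FinOrd χ) (h : GoodFor ιinf ιp Lg S χ) :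
    LeopoldtFor ιinf ιp Lg S χ := by
  obtain ⟨F, hFn, hFg, hFc⟩ := finOrd_field hχ
  have h5 : (Units.map ((AlgEquiv.refl : ℂ_[p] ≃ₐ[ℚ_[p]] ℂ_[p]) : ℂ_[p] →* ℂ_[p])).comp χ = χ := by
    refine MonoidHom.ext fun g ↦ ?_
    ext
    rfl
  have h6 := h AlgEquiv.refl F (by rw [h5]; exact hFc)
  rw [h5] at h6
  exact (leopoldt_iff hF ιinf ιp Lg S F χ fun g hg ↦ (hFc g).2 hg).2 h6

/-- From the bounds to the CM types. -/
theorem cov_of (hF : M_FUN) (hE : A_EQV) (hT : M_TR) (hN : M_CNT) [IsTotallyComplex K]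
    (hs : SplitP p K) (ιinf : AlgebraicClosure K →+* ℂ) (ιp : AlgebraicClosure K →+* ℂ_[p])
    (Lg : IwasawaLog p ℂ_[p]) (d : ℕ) (hd : finrank ℚ K = 2 * d)
    (χ : Chr K (AlgebraicClosure K) ℂ_[p]) (hχ : FinOrd χ)
    (hdim : ∀ (F : IntermediateField K (AlgebraicClosure K)) [NumberField F] [IsGalois K F],
      (∀ g, (∀ x ∈ F, g x = x) → χ g = 1) → finrank ℂ_[p] (chiPart F χ) = d)
    (h1 : Bd₁ d Lg χ) (h2 : Bd₂ d Lg χ) :
    (Cov (Even d) fun S : Set (K →+* ℂ) ↦ IsOrdinary ιinf ιp S ∧ GoodFor ιinf ιp Lg S χ) ∧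
    d + d % 2 ≤
      {S : Set (K →+* ℂ) | IsCMType S ∧ IsOrdinary ιinf ιp S ∧
        GoodFor ιinf ιp Lg S χ}.ncard := by
  classical
  obtain ⟨F, hFn, hFg, hFc⟩ := finOrd_field hχ
  have hFχ : ∀ g, (∀ x ∈ F, g x = x) → χ g = 1 := fun g hg ↦ (hFc g).2 hg
  obtain ⟨e, he⟩ := hE p K ιinf ιp
  obtain ⟨hfd, l, hl⟩ := hF p K Lg F χ
  have hdimF := hdim F hFχ
  have hcard : Fintype.card (K →+* ℂ_[p]) = 2 * d := by
    rw [NumberField.Embeddings.card K ℂ_[p], hd]
  set c : (K →+* ℂ_[p]) → (K →+* ℂ_[p]) := fun τ ↦ e (ComplexEmbedding.conjugate (e.symm τ))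
    with hc
  have hcc : ∀ τ, c (c τ) = τ := by
    intro τ
    simp [hc]
  have hcn : ∀ τ, c τ ≠ τ := by
    intro τ h
    have h3 : ComplexEmbedding.conjugate (e.symm τ) = e.symm τ := by
      apply e.injective
      rw [e.apply_symm_apply]
      exact h
    have h4 : ComplexEmbedding.IsReal (e.symm τ) := ComplexEmbedding.isReal_iff.2 h3
    have h5 := IsTotallyComplex.isComplex (InfinitePlace.mk (e.symm τ))
    exact (InfinitePlace.not_isReal_iff_isComplex.2 h5) ⟨_, h4, rfl⟩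
  have hrank : ∀ T : Finset (K →+* ℂ_[p]),
      finrank ℂ_[p] (Submodule.span ℂ_[p] (l '' (T : Set (K →+* ℂ_[p])))) + kd Lg F χ T = d := by
    intro T
    rw [add_comm, hl, hdimF]
  have hTc : ∀ T : Finset (K →+* ℂ_[p]), T.card ≤ 2 * d := by
    intro T
    rw [← hcard]
    exact Finset.card_le_univ T
  have hgood : ∀ S' : Set (K →+* ℂ_[p]), (∀ i, i ∈ S' ↔ c i ∉ S') →
      LinearIndependent ℂ_[p] (fun i : S' ↦ l i) →
      IsCMType (e ⁻¹' S') ∧ IsOrdinary ιinf ιp (e ⁻¹' S') ∧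
        GoodFor ιinf ιp Lg (e ⁻¹' S') χ := by
    intro S' hS' hind
    have hcm : IsCMType (e ⁻¹' S') := by
      intro φ
      show e φ ∈ S' ↔ ComplexEmbedding.conjugate φ ∉ e ⁻¹' S'
      rw [hS' (e φ)]
      simp [hc]
    refine ⟨hcm, isOrdinary_of_split hs ιinf ιp _, ?_⟩
    apply goodFor_of hF hs
    rw [leopoldt_iff hF ιinf ιp Lg _ F χ hFχ, he, Set.image_preimage_eq _ e.surjective]
    have h3 := hl S'
    have h4 := finrank_of_indep (k := ℂ_[p]) l S' hind
    have h5 : S'.ncard = d := by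
      have h6 := Pool.Agent.Helper35.RD.two_mul_ncard_cm hcm
      have h7 : (e ⁻¹' S').ncard = S'.ncard := by
        rw [← Set.ncard_image_of_injective _ e.injective,
          Set.image_preimage_eq _ e.surjective]
      omega
    rw [hdimF] at h3
    omega
  have hdual : finrank ℂ_[p] (Dual ℂ_[p] (chiPart F χ)) = d := by
    rw [Subspace.dual_finrank_eq, hdimF]
  refine ⟨?_, ?_⟩
  rotate_left
  · refine (hN ℂ_[p] (Dual ℂ_[p] (chiPart F χ)) (K →+* ℂ_[p]) c l d hdual hcc hcn hcard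
      (fun T ↦ num_a d T.card _ _ (hrank T) (hTc T) (h1 F hFc T) (h2 F hFc T))
      (fun T h3 h4 h5 ↦ num_b d T.card _ _ (hrank T) h4 h3 h5 (h1 F hFc T)
        (h2 F hFc T))).trans ?_
    have hinj : Function.Injective fun S' : Set (K →+* ℂ_[p]) ↦ e ⁻¹' S' :=
      Set.preimage_injective.2 e.surjective
    rw [← Set.ncard_image_of_injective _ hinj]
    refine Set.ncard_le_ncard ?_ (Set.toFinite _)
    rintro _ ⟨S', ⟨h3, h4⟩, rfl⟩
    exact hgood S' h3 h4
  obtain ⟨P₀, hodd, hP⟩ := hT ℂ_[p] (Dual ℂ_[p] (chiPart F χ)) (K →+* ℂ_[p]) c l d hcc hcn hcard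
    (fun T ↦ num_a d T.card _ _ (hrank T) (hTc T) (h1 F hFc T) (h2 F hFc T))
    (fun T h3 h4 h5 ↦ num_b d T.card _ _ (hrank T) h4 h3 h5 (h1 F hFc T) (h2 F hFc T))
  refine ⟨e ⁻¹' P₀, fun ho ↦ by rw [hodd (Nat.not_even_iff_odd.1 ho), Set.preimage_empty],
    fun P hP2 hPc hne hne' ↦ ?_⟩
  have hq1 : (e '' P).ncard ≤ 2 := by
    rw [Set.ncard_image_of_injective _ e.injective]
    exact hP2
  have hq2 : ∀ i ∈ e '' P, c i ∉ e '' P := by
    rintro _ ⟨s, hs2, rfl⟩ ⟨t, ht, h3⟩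
    have h4 : t = ComplexEmbedding.conjugate s := by
      apply e.injective
      rw [h3]
      simp [hc]
    rw [h4] at ht
    exact hPc s hs2 ht
  have hq3 : e '' P ≠ P₀ := by
    intro h3
    apply hne
    rw [← h3, Set.preimage_image_eq _ e.injective]
  have hq4 : e '' P ≠ c '' P₀ := by
    intro h3
    apply hne'
    have h4 : P = e ⁻¹' (c '' P₀) := by rw [← h3, Set.preimage_image_eq _ e.injective]
    rw [h4]
    ext x
    constructor
    · rintro ⟨y, hy, h5⟩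
      refine ⟨e.symm y, ?_, ?_⟩
      · show e (e.symm y) ∈ P₀
        rw [e.apply_symm_apply]
        exact hy
      · apply e.injective
        exact h5
    · rintro ⟨y, hy, rfl⟩
      refine ⟨e y, hy, ?_⟩
      simp [hc]
  obtain ⟨S', hPS, hS', hind⟩ := hP (e '' P) hq1 hq2 hq3 hq4
  obtain ⟨h3, h4, h5⟩ := hgood S' hS' hind
  exact ⟨e ⁻¹' S', fun x hx ↦ hPS ⟨x, hx, rfl⟩, h3, h4, h5⟩

end

end Pool.Agent.Helper38.SD
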