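import Pool.Agent.Helper38.SD.GoalsC
import Pool.Agent.Helper38.SD.Cov
import Pool.Agent.Helper38.FD.Twist
import Pool.Agent.Helper17.SL.MainA

/-!
# Project SD, part A: `C_HALF`
-/

set_option autoImplicit false

namespace Pool.Agent.Helper38.SD

open NumberField Module IsDedekindDomain TensorProduct
open Pool.Agent.Helper51.SigLeo Pool.Agent.Helper51.RP
open Pool.Agent.Helper16.SD
open Pool.Agent.Helper38.FD (Chr CutsOut LeopoldtFor IsOrdinary)

/-- `C_HALF`. -/
theorem c_half : C_HALF := by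
  intro p _ F₀ K _ _ _ _ _ _ _ hF hK ιinf ιp Lg κ hκ hN S₁ S₂ h1 h2 hne hne'
  obtain ⟨H, hHn, hHg, hcut⟩ := finOrd_field hκ
  have hfd : FiniteDimensional K H := Module.Finite.of_restrictScalars_finite ℚ K H
  have : Algebra.IsAlgebraic ℚ (AlgebraicClosure K) := Algebra.IsAlgebraic.trans ℚ K _
  obtain ⟨χ', hinj, hres⟩ := Pool.Agent.Helper38.FD.exists_faithful hcut
  rcases Pool.Agent.Helper17.SL.mainA (F := F₀) (K := K) (H := H) (Ω := AlgebraicClosure K) hF hK
    (hN H hcut) p ℂ_[p] ιinf ιp S₁ S₂ h1 h2 hne.symm hne' χ' hinj Lg with h | h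
  · exact Or.inl ⟨H, hfd, hcut, χ', hres, h⟩
  · exact Or.inr ⟨H, hfd, hcut, χ', hres, h⟩

end Pool.Agent.Helper38.SD
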