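import Pool.Agent.Helper38.SD.Final0
import Pool.Agent.Helper38.SD.CHalf
import Pool.Agent.Helper30.SD.CIFF
import Pool.Agent.Helper39.SD.CNCM
import Pool.Agent.Helper87.SD.N_MOV

/-!
# Project SD (MP_fc6b1e_nt): the final theorem
-/

set_option autoImplicit false

namespace Pool.Agent.Helper38.SD

open NumberField Module
open Pool.Agent.Helper51.SigLeo
open Pool.Agent.Helper16.SD (SplitP)
open Pool.Agent.Helper38.FD (Chr)
open Pool.Agent.Helper38.TH (Hat)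

/-- The main theorem. -/
theorem main_sd (p : ℕ) [Fact p.Prime] (F K : Type) [Field F] [NumberField F] [IsTotallyReal F]
    [Field K] [NumberField K] [IsTotallyComplex K] [Algebra F K] (hK : finrank F K = 2)
    (ιinf : AlgebraicClosure K →+* ℂ) (ιp : AlgebraicClosure K →+* ℂ_[p])
    (L : IwasawaLog p ℂ_[p]) (κ : Chr K (AlgebraicClosure K) ℂ_[p]) (hκ : FinOrd κ)
    (hg : Gen (finrank ℚ F) ιinf κ) :
    (Bd₁ (finrank ℚ F) L κ ∧
      Cov (finrank ℚ F = 2) (Third (finrank ℚ F) ιinf ιp L κ)) ∧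
    (p ≠ 2 → SplitP p K → ∀ η : ℕ → Chr K (AlgebraicClosure K) ℂ_[p], IsCyclo η →
      {ξ | ξ ∈ Hat η ∧ ¬ Rich (finrank ℚ F) ιinf ιp L (κ * ξ)}.Finite) ∧
    ∃ η : ℕ → Chr K (AlgebraicClosure K) ℂ_[p], IsCyclo η :=
  main_sd_of Pool.Agent.Helper87.SD.N_MOV.t Pool.Agent.Helper30.SD.c_iff
    (Pool.Agent.Helper39.SD.c_ncm Pool.Agent.Helper30.SD.c_iff) c_half p F K hK ιinf ιp L κ hκ hg

end Pool.Agent.Helper38.SD
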