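import Pool.Agent.Helper38.SD.Stmt
import Pool.Agent.Helper38.SD.Final

/-!
# Project SD (MP_fc6b1e_nt): the final theorem with the definitions of `Stmt.lean`
-/

set_option autoImplicit false

namespace Pool.Agent.Helper38.SDS

open NumberField Module TensorProduct Pool.Agent.Helper51.SigLeo
open Pool.Agent.Helper38.FD (Chr CutsOut IsOrdinary)
open Pool.Agent.Helper38.TH (IsTower Hat)
open Pool.Agent.Helper38.SD (Cov FinOrd Gen IsCyclo)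
open Pool.Agent.Helper42.RD (TSet)
open Pool.Agent.Helper17.TH (ug)
open Pool.Agent.Helper16.SD (kd chiPart logKer SplitP)

section

variable {p : ℕ} [Fact p.Prime] {K : Type} [Field K]

theorem logDim_eq (Lg : IwasawaLog p ℂ_[p]) (F : IntermediateField K (AlgebraicClosure K))
    [Normal K F] (χ : Chr K (AlgebraicClosure K) ℂ_[p]) (T : Set (K →+* ℂ_[p])) :
    logDim Lg F χ T = kd Lg F χ T := by
  have h : ((⨅ g, End.eigenspace (extEnd (ug F g)) ((χ g : ℂ_[p]ˣ) : ℂ_[p])) ⊓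
      ⨅ ℓ ∈ {ℓ | ∃ τ : F →+* ℂ_[p], τ.comp (algebraMap K F) ∈ T ∧ ℓ = logUnits Lg τ},
        LinearMap.ker (extHom ℓ) :
      Submodule ℂ_[p] (ℂ_[p] ⊗[ℤ] Additive (𝓞 F)ˣ)) = chiPart F χ ⊓ logKer Lg F T := by
    ext v
    simp only [Submodule.mem_inf, Submodule.mem_iInf, End.mem_eigenspace_iff, LinearMap.mem_ker]
    constructor
    · rintro ⟨h1, h2⟩
      exact ⟨h1, fun τ hτ ↦ h2 _ ⟨τ, hτ, rfl⟩⟩
    · rintro ⟨h1, h2⟩
      refine ⟨h1, ?_⟩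
      rintro _ ⟨τ, hτ, rfl⟩
      exact h2 τ hτ
  unfold logDim kerDim kd
  rw [h]

end

section

variable {p : ℕ} [Fact p.Prime] {K : Type} [Field K] [NumberField K]

theorem bd₁_iff (d : ℕ) (Lg : IwasawaLog p ℂ_[p]) (χ : Chr K (AlgebraicClosure K) ℂ_[p]) :
    Bd₁ d Lg χ ↔ Pool.Agent.Helper38.SD.Bd₁ d Lg χ := by
  unfold Bd₁ Pool.Agent.Helper38.SD.Bd₁
  simp only [logDim_eq]

theorem bd₂_iff (d : ℕ) (Lg : IwasawaLog p ℂ_[p]) (χ : Chr K (AlgebraicClosure K) ℂ_[p]) :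
    Bd₂ d Lg χ ↔ Pool.Agent.Helper38.SD.Bd₂ d Lg χ := by
  unfold Bd₂ Pool.Agent.Helper38.SD.Bd₂
  simp only [logDim_eq]

theorem third_iff (d : ℕ) (ιinf : AlgebraicClosure K →+* ℂ) (ιp : AlgebraicClosure K →+* ℂ_[p])
    (Lg : IwasawaLog p ℂ_[p]) (χ : Chr K (AlgebraicClosure K) ℂ_[p]) :
    Third d ιinf ιp Lg χ = Pool.Agent.Helper38.SD.Third d ιinf ιp Lg χ := by
  funext S
  unfold Third Pool.Agent.Helper38.SD.Third
  simp only [logDim_eq]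

theorem goodFor_iff (ιinf : AlgebraicClosure K →+* ℂ) (ιp : AlgebraicClosure K →+* ℂ_[p])
    (Lg : IwasawaLog p ℂ_[p]) (S : Set (K →+* ℂ)) (χ : Chr K (AlgebraicClosure K) ℂ_[p]) :
    GoodFor ιinf ιp Lg S χ ↔ Pool.Agent.Helper38.SD.GoodFor ιinf ιp Lg S χ := by
  unfold GoodFor Pool.Agent.Helper38.SD.GoodFor
  simp only [logDim_eq]
  constructor
  · intro h σ F _ _ hF
    exact h σ _ (fun g ↦ rfl) F hF
  · intro h σ χ' hχ' F _ _ hF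
    have e : χ' = (Units.map (σ : ℂ_[p] →* ℂ_[p])).comp χ := by
      refine MonoidHom.ext fun g ↦ Units.ext ?_
      exact hχ' g
    subst e
    exact h σ F hF

theorem rich_iff (d : ℕ) (ιinf : AlgebraicClosure K →+* ℂ) (ιp : AlgebraicClosure K →+* ℂ_[p])
    (Lg : IwasawaLog p ℂ_[p]) (χ : Chr K (AlgebraicClosure K) ℂ_[p])
    (h : Pool.Agent.Helper38.SD.Rich d ιinf ιp Lg χ) : Rich d ιinf ιp Lg χ := by
  obtain ⟨h1, h2, h3, h4, h5⟩ := h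
  refine ⟨(bd₁_iff _ _ _).2 h1, (bd₂_iff _ _ _).2 h2, ?_, ?_, fun η' hη' ↦ ?_⟩
  · simpa only [goodFor_iff] using h3
  · simpa only [goodFor_iff] using h4
  · simpa only [goodFor_iff, bd₁_iff, bd₂_iff] using h5 η' hη'

end

/-- The main theorem. -/
theorem main_sds (p : ℕ) [Fact p.Prime] (F K : Type) [Field F] [NumberField F] [IsTotallyReal F]
    [Field K] [NumberField K] [IsTotallyComplex K] [Algebra F K] (hK : finrank F K = 2)
    (ιinf : AlgebraicClosure K →+* ℂ) (ιp : AlgebraicClosure K →+* ℂ_[p])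
    (L : IwasawaLog p ℂ_[p]) (κ : Chr K (AlgebraicClosure K) ℂ_[p]) (hκ : FinOrd κ)
    (hg : Gen (finrank ℚ F) ιinf κ) :
    (Bd₁ (finrank ℚ F) L κ ∧
      Cov (finrank ℚ F = 2) (Third (finrank ℚ F) ιinf ιp L κ)) ∧
    (p ≠ 2 → SplitP p K → ∀ η : ℕ → Chr K (AlgebraicClosure K) ℂ_[p], IsCyclo η →
      {ξ | ξ ∈ Hat η ∧ ¬ Rich (finrank ℚ F) ιinf ιp L (κ * ξ)}.Finite) ∧
    ∃ η : ℕ → Chr K (AlgebraicClosure K) ℂ_[p], IsCyclo η := by
  obtain ⟨⟨h1, h2⟩, h3, h4⟩ := Pool.Agent.Helper38.SD.main_sd p F K hK ιinf ιp L κ hκ hg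
  refine ⟨⟨(bd₁_iff _ _ _).2 h1, by rw [third_iff]; exact h2⟩, fun hp hS η hη ↦ ?_, h4⟩
  refine (h3 hp hS η hη).subset ?_
  rintro ξ ⟨hξ, h⟩
  exact ⟨hξ, fun h5 ↦ h (rich_iff _ _ _ _ _ h5)⟩

end Pool.Agent.Helper38.SDS
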