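import Pool.Agent.Helper38.SD.Defs
import Pool.Agent.Helper16.SD.DefsN

/-!
# Project SD (MP_fc6b1e_nt): the condition on the character
-/

set_option autoImplicit false

namespace Pool.Agent.Helper38.SD

open NumberField
open Pool.Agent.Helper16.SD (NC)
open Pool.Agent.Helper38.FD (Chr CutsOut)

variable {p : ℕ} [Fact p.Prime] {K : Type} [Field K]

/-- The field of `κ` is not a CM field. -/
def NotCM (κ : Chr K (AlgebraicClosure K) ℂ_[p]) : Prop :=
  ∀ (H : IntermediateField K (AlgebraicClosure K)) [NumberField H], CutsOut κ H → ¬ IsCMField H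

/-- The condition on `κ`: it is not invariant under complex conjugation, or `d = 2` and the field of `κ` is not a CM
field. -/
def Gen (d : ℕ) (ιinf : AlgebraicClosure K →+* ℂ)
    (κ : Chr K (AlgebraicClosure K) ℂ_[p]) : Prop :=
  NC ιinf κ ∨ (d = 2 ∧ NotCM κ)

end Pool.Agent.Helper38.SD
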