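import Pool.Agent.Helper38.SD.Goals
import Pool.Agent.Helper38.SD.Defs2

/-!
# Project SD (MP_fc6b1e_nt), part A: characters whose field is not a CM field, `d = 2` (goals)

Every statement is a `def ... : Prop` with its complete proof in the docstring. `Ω` is the algebraic closure of `K`,
`G = Gal(Ω/K)`. The definitions `NotCM`, `Gen` are in `Pool/Agent/Helper38/SD/Defs2.lean`.
-/

set_option autoImplicit false

namespace Pool.Agent.Helper38.SD

open NumberField Module IsDedekindDomain TensorProduct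
open Pool.Agent.Helper51.SigLeo Pool.Agent.Helper51.RP
open Pool.Agent.Helper16.SD
open Pool.Agent.Helper42.RD (TSet)
open Pool.Agent.Helper38.FD (Chr CutsOut LeopoldtFor IsOrdinary)
open Pool.Agent.Helper38.FW (InDec)
open Pool.Agent.Helper38.TH (IsTower Hat NoSplit)

/-- **C_IFF** (when is the field of `χ` a CM field).

PROOF. `conj` is the complex conjugation (`starRingEnd ℂ`). (⇒) Let `H` be CM, `g`, `φ`, `ψ` as in the right hand side, `x ∈ H`, `y = complexConj H x ∈ H`. `φ y = conj (φ x)` (`IsCMField.complexEmbedding_complexConj` for the restriction of `φ` to `H`), so `ψ y = conj (ψ (g x))`; also `ψ y = conj (ψ x)`. So `ψ (g x) = ψ x`, `g x = x` for all `x ∈ H`, and `χ g = 1` (`CutsOut`).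
(⇐) For an embedding `φ : Ω →+* ℂ` there is a ring automorphism `c_φ` of `Ω` with `φ (c_φ x) = conj (φ x)`: `φ(Ω)` is the set of the elements of `ℂ` which are algebraic over `ℚ` (`Ω` is algebraic over `ℚ` and algebraically closed), which is stable under `conj` (two embeddings `φ`, `conj ∘ φ` of the algebraic closure `Ω` of `ℚ` have the same image; `IsAlgClosure.equiv`, or `AlgHom` between algebraic closures is bijective;
`Algebra.IsAlgebraic.algEquivEquivAlgHom`); `c_φ² = 1`. *On `K`:* `φ` and `conj ∘ φ` agree on `F₀` (totally real: all the embeddings of `F₀` are real) and are different on `K` (totally complex), so `conj ∘ φ|_K = φ|_K ∘ c_K`, with `c_K` the nontrivial automorphism of `K/F₀` (degree `2`, so Galois with a group of order `2`): `c_φ x = c_K x` for `x ∈ K`, for all `φ`. Hence for `φ`, `ψ` the automorphism `g = c_ψ⁻¹ c_φ` of `Ω` fixes `K`, and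
satisfies the condition of the right hand side (`φ y = conj (φ x)` implies `y = c_φ x = c_ψ (g x)`), so `χ g = 1`, so `g` fixes `H`: `c_φ x = c_ψ x` for `x ∈ H` and all `φ`, `ψ`. For `h ∈ Gal(Ω/H)` and `ψ = φ ∘ h`: `c_ψ = h⁻¹ c_φ h`, so `c_φ x = c_ψ x = h⁻¹ (c_φ x)` for `x ∈ H`: `c_φ x` is fixed by `Gal(Ω/H)`, so `c_φ x ∈ H` (`InfiniteGalois.fixedField_fixingSubgroup`; compare `mem_of_fixed` in
`Pool/Agent/Helper60/TH/DEIG.lean`). So `c = c_φ|_H` is an automorphism of `H` of order `2` (it is not the identity on `K`), and `φ (c x) = conj (φ x)` for all the embeddings `φ` of `H` in `ℂ` (each is the restriction of an embedding of `Ω`: `exists_lift`, `IsAlgClosed.lift`). Let `E` be the fixed field of `c` (`IntermediateField.fixedField (Subgroup.zpowers c)` over `ℚ`, or `Subfield`): `[H : E] = 2`, `E` is totally real (every embedding of `E` extends to `H`, and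
`φ x = φ (c x) = conj (φ x)`), `H` is totally complex (it contains `K`). So `H` is a CM field (`IsCMField.ofCMExtension` or the constructor). -/
def C_IFF : Prop :=
  ∀ (p : ℕ) [Fact p.Prime] (F₀ K : Type) [Field F₀] [NumberField F₀] [IsTotallyReal F₀] [Field K]
    [NumberField K] [IsTotallyComplex K] [Algebra F₀ K], finrank F₀ K = 2 →
  ∀ (χ : Chr K (AlgebraicClosure K) ℂ_[p]) (H : IntermediateField K (AlgebraicClosure K))
    [NumberField H], CutsOut χ H →
    (IsCMField H ↔ ∀ (g : AlgebraicClosure K ≃ₐ[K] AlgebraicClosure K)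
      (φ ψ : AlgebraicClosure K →+* ℂ),
      (∀ x y, φ y = starRingEnd ℂ (φ x) → ψ y = starRingEnd ℂ (ψ (g x))) → χ g = 1)

/-- **C_NCM** (`NotCM` is inherited).

PROOF (from `C_IFF`). Let `χ` be of finite order and `χ'` one of the characters `χ θ`, `ν`, and suppose that `H'` is the field of `χ'` and that it is CM; we show that the field `H` of `χ` (`FinOrd χ`) is CM (a `NumberField`: finite over `K`), a contradiction. By `C_IFF` for `χ'` and `χ` it is enough to show: if `g`, `φ`, `ψ` satisfy `∀ x y, φ y = conj (φ x) → ψ y = conj (ψ (g x))` then `θ g = 1` and `om g = 1` (then `χ' g = 1`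
implies `χ g = 1`). (1) `cyc g = 1`: let `ζ ∈ Ω`, `ζ^(p^m) = 1`. `φ ζ` has absolute value `1`, so `φ (ζ⁻¹) = conj (φ ζ)`, so `ψ (ζ⁻¹) = conj (ψ (g ζ)) = ψ ((g ζ)⁻¹)` (`g ζ` is also a root of unity), so `g ζ = ζ`; and `cyclotomicCharacter` is determined by the action on the roots of unity (see `A_MOV`; the same lemma). (2) `om g * u g = 1`, `om(g)^(p-1) = 1`, so `u(g)^(p-1) = 1`, `p ∣ u(g) - 1`, so `u g = 1` (see `A_MOV` (2)) and
`om g = 1`. (3) `η n g = 1` by `Cyc.cut`, so `θ g = 1` for `θ ∈ Hat η`. -/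
def C_NCM : Prop :=
  ∀ (p : ℕ) [Fact p.Prime] (F₀ K : Type) [Field F₀] [NumberField F₀] [IsTotallyReal F₀] [Field K]
    [NumberField K] [IsTotallyComplex K] [Algebra F₀ K], finrank F₀ K = 2 →
  ∀ (η : ℕ → Chr K (AlgebraicClosure K) ℂ_[p])
    (om u : (AlgebraicClosure K ≃ₐ[K] AlgebraicClosure K) →* ℤ_[p]ˣ), Cyc η om u →
  ∀ χ : Chr K (AlgebraicClosure K) ℂ_[p], FinOrd χ → NotCM χ →
    (∀ θ ∈ Hat η, NotCM (χ * θ)) ∧
    ∀ ν : Chr K (AlgebraicClosure K) ℂ_[p],
      (∀ g, ((χ g : ℂ_[p]ˣ) : ℂ_[p]) * (ν g : ℂ_[p]ˣ) = zp p (om g : ℤ_[p]ˣ)) → NotCM ν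

/-- **C_HALF** (`d = 2`: at most one complementary pair of CM types fails).

PROOF. This is the theorem `Pool.Agent.Helper17.SL.mainA` (file `Pool/Agent/Helper17/SL/MainA.lean`) with `Ω = AlgebraicClosure K`, `k = ℂ_p`, `H` the field of `κ` (`FinOrd κ`, `CutsOut κ H`; finite over `K`, so a number field; Galois over `K` because `Gal(Ω/H) = ker κ` is normal: see `finOrd_field` in `Pool/Agent/Helper38/SD/Cov.lean`), `χ` the character of `Gal(H/K)` induced by `κ`: `χ(h) = κ(g)` if `h` is the restriction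
of `g` (well defined and injective since `ker κ = Gal(Ω/H)`; every `h` is a restriction: `AlgEquiv.restrictNormalHom_surjective`; or `QuotientGroup.lift`, `MonoidHom.liftOfSurjective`, `MonoidHom.liftOfRightInverse`). `LeopoldtFor` is then `⟨H, _, CutsOut, χ, _, InjectiveOn⟩` (unfold `LeopoldtFor`, `LeopoldtOn`, `Restricts`). -/
def C_HALF : Prop :=
  ∀ (p : ℕ) [Fact p.Prime] (F₀ K : Type) [Field F₀] [NumberField F₀] [IsTotallyReal F₀] [Field K]
    [NumberField K] [IsTotallyComplex K] [Algebra F₀ K], finrank ℚ F₀ = 2 → finrank F₀ K = 2 →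
  ∀ (ιinf : AlgebraicClosure K →+* ℂ) (ιp : AlgebraicClosure K →+* ℂ_[p])
    (Lg : IwasawaLog p ℂ_[p]) (κ : Chr K (AlgebraicClosure K) ℂ_[p]), FinOrd κ → NotCM κ →
  ∀ S₁ S₂ : Set (K →+* ℂ), IsCMType S₁ → IsCMType S₂ → S₂ ≠ S₁ → S₂ ≠ S₁ᶜ →
    LeopoldtFor ιinf ιp Lg S₁ κ ∨ LeopoldtFor ιinf ιp Lg S₂ κ

/-- **C_RANKG** (the rank bound for `Gen`).

PROOF (from `S_RANKN`, `C_HALF`, `C_IFF`, `M_FUN`, `A_EQV`). `d = finrank ℚ F₀`. If `NC ιinf χ`: `χ ≠ 1` (by definition of `NC`) and it is `S_RANKN`. Otherwise `d = 2` and `NotCM χ`. (1) `χ ≠ 1`: the field of the trivial character is `⊥`, and it is a CM field by `C_IFF` for `χ = 1` (the right hand side is trivial). So the dimension of `chiPart F χ` is `2` by `S_RANKN`. (2) `FinOrd χ`: `χ` is trivial on `Gal(Ω/F)`, `F` is finite over `K` (lemma `exists_cutsOut` in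
`Pool/Agent/Helper60/TH/ETOW.lean`). (3) By `C_HALF`, `LeopoldtFor` holds for one of any two CM types `S₁`, `S₂ ∉ {S₁, S₁ᶜ}`, i.e. (`leopoldt_iff` in `Pool/Agent/Helper38/SD/Lin.lean`) `kd Lg F χ (TSet S) = 0`. `K` has four embeddings in `ℂ`, `a, ā, b, b̄` (two conjugate pairs, `K` is totally complex), `e` as in `A_EQV`. The CM types are `{a,b}, {ā,b̄}` and `{a,b̄}, {ā,b}`. `kd` is decreasing in `T` (`kd_anti` in `Lin.lean`),
and `kd Lg F χ T ≤ kd Lg F χ (T ∪ A) + |A|` (`kd_le_add`). *`|T| ≥ 3`:* `T` contains the images under `e` of two types `S₁`, `S₂` with `S₂ ≠ S₁, S₁ᶜ` (if `e w ∈ T`, `e w̄ ∈ T`, `e w' ∈ T`: `S₁ = {w, w'}`, `S₂ = {w̄, w'}`), so `kd T = 0`. *`|T| ∈ {1, 2}`:* let `e w ∈ T`; `{w, w'}` and `{w, w̄'}` are such types (`w'` not in `{w, w̄}`), so `kd {e w, e w''} = 0` for one `w''`, and `kd T ≤ kd {e w} ≤ 1`. *`T = ∅`:* `kd ≤ 2`. So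
`(|T| + 2) kd T ≤ 4` in all the cases. -/
def C_RANKG : Prop :=
  ∀ (p : ℕ) [Fact p.Prime] (F₀ K : Type) [Field F₀] [NumberField F₀] [IsTotallyReal F₀] [Field K]
    [NumberField K] [IsTotallyComplex K] [Algebra F₀ K], finrank F₀ K = 2 →
  ∀ (ιinf : AlgebraicClosure K →+* ℂ) (ιp : AlgebraicClosure K →+* ℂ_[p])
    (Lg : IwasawaLog p ℂ_[p]) (F : IntermediateField K (AlgebraicClosure K)) [NumberField F]
    [IsGalois K F] (χ : Chr K (AlgebraicClosure K) ℂ_[p]), (∀ g, (∀ x ∈ F, g x = x) → χ g = 1) →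
    Gen (finrank ℚ F₀) ιinf χ →
    χ ≠ 1 ∧ finrank ℂ_[p] (chiPart F χ) = finrank ℚ F₀ ∧
    ∀ T : Finset (K →+* ℂ_[p]), (T.card + finrank ℚ F₀) * kd Lg F χ T ≤ finrank ℚ F₀ ^ 2

end Pool.Agent.Helper38.SD
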