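import Pool.Agent.Helper38.SD.Cov
import Pool.Agent.Helper38.SD.GoalsC
import Pool.Agent.Helper16.SD.GoalsN
import Pool.Agent.Helper38.TH.AllZp
import Pool.Agent.Helper17.TH.DICHF
import Pool.Agent.Helper32.TH.DUNR
import Pool.Agent.Helper60.TH.ETOW

/-!
# Project SD, part A: the assembly
-/

set_option autoImplicit false

namespace Pool.Agent.Helper38.SD

open NumberField Module IsDedekindDomain TensorProduct
open Pool.Agent.Helper51.SigLeo Pool.Agent.Helper51.RP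
open Pool.Agent.Helper16.SD
open Pool.Agent.Helper42.RD (TSet)
open Pool.Agent.Helper38.FD (Chr CutsOut LeopoldtFor IsOrdinary)
open Pool.Agent.Helper38.FW (InDec)
open Pool.Agent.Helper38.TH (IsTower Hat NoSplit RamD dec_finite DICH)
open Pool.Agent.Helper57.TH (tower_pow tower_le tower_ord exists_level chr_pow_finrank chr_cancel
  hat_mul)

section

variable {p : ℕ} [Fact p.Prime] {K : Type} [Field K] [NumberField K]

/-- All the towers. -/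
theorem tower_of (hF : M_FUN) (hE : A_EQV) (hs : SplitP p K)
    (ιinf : AlgebraicClosure K →+* ℂ) (ιp : AlgebraicClosure K →+* ℂ_[p])
    (Lg : IwasawaLog p ℂ_[p]) (d : ℕ) (hd0 : 0 < d) (hd : finrank ℚ K = 2 * d)
    (χ : Chr K (AlgebraicClosure K) ℂ_[p]) (hχ : FinOrd χ)
    (hdec : ∀ τ : AlgebraicClosure K →+* ℂ_[p], ∃ g, InDec τ g ∧ χ g ≠ 1)
    (h1 : Bd₁ d Lg χ) (h2 : Bd₂ d Lg χ) (η' : ℕ → Chr K (AlgebraicClosure K) ℂ_[p])
    (hη' : IsTower η') :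
    {ξ' | ξ' ∈ Hat η' ∧ ¬ (Bd₁ d Lg (χ * ξ') ∧ Bd₂ d Lg (χ * ξ') ∧
      ∀ S : Set (K →+* ℂ), GoodFor ιinf ιp Lg S χ → GoodFor ιinf ιp Lg S (χ * ξ'))}.Finite := by
  classical
  obtain ⟨F, hFn, hFg, hFc⟩ := finOrd_field hχ
  have hFχ : ∀ g, (∀ x ∈ F, g x = x) → χ g = 1 := fun g hg ↦ (hFc g).2 hg
  obtain ⟨e, he⟩ := hE p K ιinf ιp
  have hfin : ∀ S : Set (K →+* ℂ), LeopoldtFor ιinf ιp Lg S χ →
      {ξ' | ξ' ∈ Hat η' ∧ ¬ LeopoldtFor ιinf ιp Lg S (χ * ξ')}.Finite := fun S hS ↦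
    Pool.Agent.Helper17.TH.dich p K ιinf ιp Lg S (placeClosed_of_split hs _) χ η' hη'
      (Pool.Agent.Helper32.TH.d_unr p K η' hη') (fun τ _ ↦ hdec τ) hS
  have hU : (⋃ S ∈ {S : Set (K →+* ℂ) | LeopoldtFor ιinf ιp Lg S χ},
      {ξ' | ξ' ∈ Hat η' ∧ ¬ LeopoldtFor ιinf ιp Lg S (χ * ξ')}).Finite :=
    Set.Finite.biUnion (Set.toFinite _) fun S hS ↦ hfin S hS
  refine hU.subset ?_
  rintro ξ' ⟨hξ', hbad⟩
  by_contra hnot
  simp only [Set.mem_iUnion, not_exists] at hnot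
  have hgood : ∀ S : Set (K →+* ℂ), LeopoldtFor ιinf ιp Lg S χ →
      LeopoldtFor ιinf ιp Lg S (χ * ξ') := by
    intro S hS
    by_contra h3
    exact hnot S hS ⟨hξ', h3⟩
  have h0 : kd Lg F χ Set.univ = 0 := by
    have h3 := h2 F hFc Finset.univ
    have h4 : (Finset.univ : Finset (K →+* ℂ_[p])).card = 2 * d := by
      rw [Finset.card_univ, NumberField.Embeddings.card K ℂ_[p], hd]
    rw [h4, Nat.sub_self, zero_pow (by norm_num), Finset.coe_univ] at h3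
    have h5 : 3 * d - 2 * d = d := by omega
    rw [h5] at h3
    rcases Nat.eq_zero_or_pos (kd Lg F χ Set.univ) with h6 | h6
    · exact h6
    · exact absurd h3 (by have := Nat.mul_pos hd0 h6; omega)
  have hkd : ∀ (F' : IntermediateField K (AlgebraicClosure K)) [NumberField F'] [IsGalois K F'],
      (∀ g, (∀ x ∈ F', g x = x) → (χ * ξ') g = 1) → ∀ T : Finset (K →+* ℂ_[p]),
      kd Lg F' (χ * ξ') T ≤ kd Lg F χ T := by
    intro F' _ _ hF' T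
    obtain ⟨A, hA1, hA2⟩ := exists_compl Lg F χ hF (T : Set (K →+* ℂ_[p])) h0
    have h3 : LeopoldtFor ιinf ιp Lg (e ⁻¹' ((T : Set (K →+* ℂ_[p])) ∪ A)) χ := by
      rw [leopoldt_iff hF ιinf ιp Lg _ F χ hFχ, he, Set.image_preimage_eq _ e.surjective]
      exact hA2
    have h4 := hgood _ h3
    rw [leopoldt_iff hF ιinf ιp Lg _ F' (χ * ξ') hF', he,
      Set.image_preimage_eq _ e.surjective] at h4
    have h5 := kd_le_add Lg F' (χ * ξ') hF (T : Set (K →+* ℂ_[p])) A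
    omega
  apply hbad
  refine ⟨fun F' _ _ hF' T ↦ ?_, fun F' _ _ hF' T ↦ ?_, fun S hS ↦ ?_⟩
  · exact (Nat.mul_le_mul_left _ (hkd F' (fun g hg ↦ (hF' g).2 hg) T)).trans (h1 F hFc T)
  · exact (Nat.mul_le_mul_left _ (hkd F' (fun g hg ↦ (hF' g).2 hg) T)).trans (h2 F hFc T)
  · exact goodFor_of hF hs ιinf ιp Lg S _ (hgood S (leopoldt_of_good hF ιinf ιp Lg S χ hχ hS))

/-- The product of characters of finite order. -/
theorem finOrd_mul {χ ψ : Chr K (AlgebraicClosure K) ℂ_[p]} (h1 : FinOrd χ) (h2 : FinOrd ψ) :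
    FinOrd (χ * ψ) := by
  obtain ⟨H, hH, hc⟩ := h1
  obtain ⟨H', hH', hc'⟩ := h2
  refine Pool.Agent.Helper60.TH.exists_cutsOut (χ * ψ) (H ⊔ H') fun g hg ↦ ?_
  show χ g * ψ g = 1
  rw [(hc g).2 fun x hx ↦ hg x ((le_sup_left : H ≤ H ⊔ H') hx),
    (hc' g).2 fun x hx ↦ hg x ((le_sup_right : H' ≤ H ⊔ H') hx), mul_one]

theorem finOrd_hat {η : ℕ → Chr K (AlgebraicClosure K) ℂ_[p]} (hη : IsTower η)
    {ξ : Chr K (AlgebraicClosure K) ℂ_[p]} (h : ξ ∈ Hat η) : FinOrd ξ := by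
  obtain ⟨n, a, rfl⟩ := h
  obtain ⟨H, hH, hc⟩ := hη.fin n
  refine Pool.Agent.Helper60.TH.exists_cutsOut (η n ^ a) H fun g hg ↦ ?_
  show (η n g) ^ a = 1
  rw [(hc g).2 hg, one_pow]

omit [NumberField K] in
theorem tower_injective {η : ℕ → Chr K (AlgebraicClosure K) ℂ_[p]} (hη : IsTower η) :
    Function.Injective η := by
  have key : ∀ m n : ℕ, m < n → η m ≠ η n := by
    intro m n hmn h
    apply hη.one_ne
    refine MonoidHom.ext fun g ↦ ?_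
    have h1 := tower_pow hη 1 (n - 1) g
    rw [Nat.add_sub_cancel' (by omega : 1 ≤ n)] at h1
    have h2 := tower_ord hη m g
    have h3 : n - 1 = m + (n - 1 - m) := by omega
    rw [← h1, ← h, h3, pow_add, pow_mul, h2, one_pow]
    rfl
  intro m n h
  rcases Nat.lt_trichotomy m n with h1 | h1 | h1
  · exact absurd h (key m n h1)
  · exact h1
  · exact absurd h.symm (key n m h1)

/-- The first bound. -/
theorem bd₁_of (hR : C_RANKG) (F₀ : Type) [Field F₀] [NumberField F₀] [IsTotallyReal F₀]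
    [IsTotallyComplex K] [Algebra F₀ K] (h2 : finrank F₀ K = 2)
    (ιinf : AlgebraicClosure K →+* ℂ) (ιp : AlgebraicClosure K →+* ℂ_[p])
    (Lg : IwasawaLog p ℂ_[p]) (χ : Chr K (AlgebraicClosure K) ℂ_[p])
    (hm : Gen (finrank ℚ F₀) ιinf χ) : Bd₁ (finrank ℚ F₀) Lg χ := by
  intro F _ _ hF T
  have h3 := (hR p F₀ K h2 ιinf ιp Lg F χ (fun g hg ↦ (hF g).2 hg) hm).2.2 T
  rw [add_comm]
  exact h3

/-- The character `om` with values in `ℂ_p`. -/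
noncomputable def omc (om : (AlgebraicClosure K ≃ₐ[K] AlgebraicClosure K) →* ℤ_[p]ˣ) :
    Chr K (AlgebraicClosure K) ℂ_[p] :=
  (Units.map (zp p : ℤ_[p] →* ℂ_[p])).comp om

omit [NumberField K] in
theorem omc_pow {om : (AlgebraicClosure K ≃ₐ[K] AlgebraicClosure K) →* ℤ_[p]ˣ}
    (h : ∀ g, om g ^ (p - 1) = 1) : omc om ^ (p - 1) = 1 := by
  refine MonoidHom.ext fun g ↦ ?_
  show (Units.map (zp p : ℤ_[p] →* ℂ_[p]) (om g)) ^ (p - 1) = 1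
  rw [← map_pow, h, map_one]

/-- `Gen` is inherited. -/
theorem gen_of (hMV : N_MOV) (hNC : C_NCM) (F₀ : Type) [Field F₀] [NumberField F₀]
    [IsTotallyReal F₀] [IsTotallyComplex K] [Algebra F₀ K] (h2 : finrank F₀ K = 2) {d : ℕ}
    (ιinf : AlgebraicClosure K →+* ℂ) (η : ℕ → Chr K (AlgebraicClosure K) ℂ_[p])
    (om u : (AlgebraicClosure K ≃ₐ[K] AlgebraicClosure K) →* ℤ_[p]ˣ) (hC : Cyc η om u)
    (χ : Chr K (AlgebraicClosure K) ℂ_[p]) (hχ : FinOrd χ) (h : Gen d ιinf χ) :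
    (∀ θ ∈ Hat η, Gen d ιinf (χ * θ)) ∧
    ∀ ν : Chr K (AlgebraicClosure K) ℂ_[p],
      (∀ g, ((χ g : ℂ_[p]ˣ) : ℂ_[p]) * (ν g : ℂ_[p]ˣ) = zp p (om g : ℤ_[p]ˣ)) →
      Gen d ιinf ν := by
  rcases h with h | ⟨hd, h⟩
  · have h1 := hMV p K ιinf η om u hC χ h
    exact ⟨fun θ hθ ↦ Or.inl (h1.1 θ hθ), fun ν hν ↦ Or.inl (h1.2 ν hν)⟩
  · have h1 := hNC p F₀ K h2 η om u hC χ hχ h
    exact ⟨fun θ hθ ↦ Or.inr ⟨hd, h1.1 θ hθ⟩, fun ν hν ↦ Or.inr ⟨hd, h1.2 ν hν⟩⟩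

/-- **The main assembly.** -/
theorem rich_of (hR : C_RANKG) (hD : Pool.Agent.Helper16.SD.S_DUAL) (hF : M_FUN) (hT : M_TR)
    (hN' : M_CNT) (hE : A_EQV) (hCY : A_CYC) (hNS : A_NS) (hMV : N_MOV) (hNC : C_NCM)
    (hCF : A_CUTF) (hp2 : p ≠ 2) (F₀ : Type)
    [Field F₀] [NumberField F₀] [IsTotallyReal F₀] [IsTotallyComplex K]
    [Algebra F₀ K] (h2 : finrank F₀ K = 2) (hS : SplitP p K) (ιinf : AlgebraicClosure K →+* ℂ)
    (ιp : AlgebraicClosure K →+* ℂ_[p]) (Lg : IwasawaLog p ℂ_[p])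
    (κ : Chr K (AlgebraicClosure K) ℂ_[p]) (hκ : FinOrd κ)
    (hm : Gen (finrank ℚ F₀) ιinf κ)
    (η : ℕ → Chr K (AlgebraicClosure K) ℂ_[p]) (hη : IsCyclo η) :
    {ξ | ξ ∈ Hat η ∧ ¬ Rich (finrank ℚ F₀) ιinf ιp Lg (κ * ξ)}.Finite := by
  classical
  have hp : p.Prime := Fact.out
  obtain ⟨om, u, hC⟩ := hCY p hp2 K hS η hη
  have hns : NoSplit η := hNS p K η om u hC
  obtain ⟨N, hN, hκN⟩ : ∃ N : ℕ, 0 < N ∧ κ ^ N = 1 := by
    obtain ⟨H, hH, hc⟩ := hκ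
    exact ⟨finrank K H, finrank_pos, chr_pow_finrank hc⟩
  have hd0 : 0 < finrank ℚ F₀ := finrank_pos
  have hdK : finrank ℚ K = 2 * finrank ℚ F₀ := by
    rw [mul_comm, ← h2]
    exact (Module.finrank_mul_finrank ℚ F₀ K).symm
  have hp1 : 0 < p - 1 := by
    have := hp.two_le
    omega
  -- the two finite sets
  have hD1 := dec_finite hη.tower hns κ hN hκN
  have hκN' : ((omc om)⁻¹ * κ) ^ (N * (p - 1)) = 1 := by
    refine MonoidHom.ext fun g ↦ ?_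
    show ((omc om g)⁻¹ * κ g) ^ (N * (p - 1)) = 1
    have e1 : (κ g) ^ N = 1 := DFunLike.congr_fun hκN g
    have e2 : (omc om g) ^ (p - 1) = 1 := DFunLike.congr_fun (omc_pow hC.om_pow) g
    rw [mul_pow, inv_pow, pow_mul (κ g), e1, one_pow, mul_one, mul_comm N, pow_mul, e2, one_pow,
      inv_one]
  have hD2 := dec_finite hη.tower hns ((omc om)⁻¹ * κ) (Nat.mul_pos hN hp1) hκN'
  -- the base
  obtain ⟨n, hn1, hn2⟩ : ∃ n, (∀ τ : AlgebraicClosure K →+* ℂ_[p],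
      ∃ g, InDec τ g ∧ (κ * η n) g ≠ 1) ∧ ∀ τ : AlgebraicClosure K →+* ℂ_[p],
      ∃ g, InDec τ g ∧ ((omc om)⁻¹ * κ * η n) g ≠ 1 := by
    by_contra hno
    push Not at hno
    have h3 : Set.range η ⊆
        {ξ | ξ ∈ Hat η ∧ ¬ ∀ τ : AlgebraicClosure K →+* ℂ_[p],
          ∃ g, InDec τ g ∧ (κ * ξ) g ≠ 1} ∪
        {ξ | ξ ∈ Hat η ∧ ¬ ∀ τ : AlgebraicClosure K →+* ℂ_[p],
          ∃ g, InDec τ g ∧ ((omc om)⁻¹ * κ * ξ) g ≠ 1} := by
      rintro _ ⟨n, rfl⟩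
      have hmem : η n ∈ Hat η := ⟨n, 1, MonoidHom.ext fun g ↦ (pow_one (η n g)).symm⟩
      by_cases h4 : ∀ τ : AlgebraicClosure K →+* ℂ_[p], ∃ g, InDec τ g ∧ (κ * η n) g ≠ 1
      · refine Or.inr ⟨hmem, fun h5 ↦ ?_⟩
        obtain ⟨τ, hτ⟩ := hno n h4
        obtain ⟨g, hg, hg'⟩ := h5 τ
        exact hg' (hτ g hg)
      · exact Or.inl ⟨hmem, h4⟩
    exact Set.infinite_range_of_injective (tower_injective hη.tower)
      ((hD1.union hD2).subset h3)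
  set χ : Chr K (AlgebraicClosure K) ℂ_[p] := κ * η n with hχ
  set ν : Chr K (AlgebraicClosure K) ℂ_[p] := omc om * χ⁻¹ with hν
  have hmem : η n ∈ Hat η := ⟨n, 1, MonoidHom.ext fun g ↦ (pow_one (η n g)).symm⟩
  have hχf : FinOrd χ := finOrd_mul hκ (finOrd_hat hη.tower hmem)
  have hmul : ∀ g, ((χ g : ℂ_[p]ˣ) : ℂ_[p]) * (ν g : ℂ_[p]ˣ) = zp p (om g : ℤ_[p]ˣ) := by
    intro g
    have h3 : ν g = omc om g * (χ g)⁻¹ := rfl
    rw [h3, ← Units.val_mul, mul_comm (omc om g), mul_inv_cancel_left]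
    rfl
  have hχm : Gen (finrank ℚ F₀) ιinf χ := (gen_of hMV hNC F₀ h2 ιinf η om u hC κ hκ hm).1 _ hmem
  have hνm : Gen (finrank ℚ F₀) ιinf ν :=
    (gen_of hMV hNC F₀ h2 ιinf η om u hC χ hχf hχm).2 ν hmul
  obtain ⟨F, hFd, hFg, hcut⟩ := hCF p K η om u hC χ hχf
  have hFn : NumberField F := by
    have : CharZero F := charZero_of_injective_algebraMap (algebraMap K F).injective
    have : FiniteDimensional ℚ F := FiniteDimensional.trans ℚ K F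
    exact ⟨⟩
  have hdec' : ∀ τ : AlgebraicClosure K →+* ℂ_[p], ∃ g, InDec τ g ∧ ν g ≠ 1 := by
    intro τ
    obtain ⟨g, hg, hg'⟩ := hn2 τ
    refine ⟨g, hg, fun h3 ↦ hg' ?_⟩
    have h4 : omc om g * (κ g * η n g)⁻¹ = 1 := h3
    show (omc om g)⁻¹ * κ g * η n g = 1
    rw [mul_inv_eq_one] at h4
    rw [mul_assoc, ← h4, inv_mul_cancel]
  have hνF : ∀ g, (∀ x ∈ F, g x = x) → ν g = 1 := by
    intro g hg
    obtain ⟨h3, h4⟩ := (hcut g).1 hg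
    have h5 := hmul g
    rw [h3, h4] at h5
    apply Units.ext
    simpa [zp] using h5
  obtain ⟨-, hdim, hrk⟩ := hR p F₀ K h2 ιinf ιp Lg F ν hνF hνm
  have hfin := bd₂_dual hD hF hE hp2 F₀ K h2 hS ιinf ιp Lg η om u hC χ ν F hcut hmul hn1 hdec'
    hdim hrk
  refine ((hfin.image fun θ ↦ η n * θ).union hD1).subset ?_
  rintro ξ ⟨hξ, hbad⟩
  by_contra hnot
  simp only [Set.mem_union, not_or] at hnot
  obtain ⟨hnot1, hnot2⟩ := hnot
  have hdecξ : ∀ τ : AlgebraicClosure K →+* ℂ_[p], ∃ g, InDec τ g ∧ (κ * ξ) g ≠ 1 := by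
    by_contra h3
    exact hnot2 ⟨hξ, h3⟩
  have hb2 : Bd₂ (finrank ℚ F₀) Lg (κ * ξ) := by
    by_contra h3
    refine hnot1 ⟨(η n)⁻¹ * ξ, ⟨hat_mul hη.tower n hξ, ?_⟩, chr_cancel _ _⟩
    have h4 : χ * ((η n)⁻¹ * ξ) = κ * ξ := MonoidHom.ext fun g ↦ by
      show κ g * η n g * ((η n g)⁻¹ * ξ g) = κ g * ξ g
      rw [mul_assoc, mul_inv_cancel_left]
    rw [h4]
    exact h3
  have hm' : Gen (finrank ℚ F₀) ιinf (κ * ξ) :=
    (gen_of hMV hNC F₀ h2 ιinf η om u hC κ hκ hm).1 _ hξ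
  have hb1 : Bd₁ (finrank ℚ F₀) Lg (κ * ξ) := bd₁_of hR F₀ h2 ιinf ιp Lg _ hm'
  have hf' : FinOrd (κ * ξ) := finOrd_mul hκ (finOrd_hat hη.tower hξ)
  apply hbad
  obtain ⟨hcov, hcnt⟩ := cov_of hF hE hT hN' hS ιinf ιp Lg _ hdK _ hf'
    (fun F' _ _ hF' ↦ (hR p F₀ K h2 ιinf ιp Lg F' _ hF' hm').2.1) hb1 hb2
  refine ⟨hb1, hb2, hcov, hcnt, fun η' hη' ↦ ?_⟩
  · exact tower_of hF hE hS ιinf ιp Lg _ hd0 hdK _ hf' hdecξ hb1 hb2 η' hη'

end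

end Pool.Agent.Helper38.SD
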