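import Pool.Agent.Helper71.SD.Goals

namespace Pool.Agent.Helper71.SD.AUT1

open Pool.Agent.Helper71.AHtpy SimpleGraph

theorem card_le_symmDiff (A B : Finset E) : A.card ≤ B.card + (symmDiff A B).card := by
  have : A ⊆ B ∪ symmDiff A B := by
    intro i hi
    rw [Finset.mem_union, Finset.mem_symmDiff]
    tauto
  exact (Finset.card_le_card this).trans (Finset.card_union_le _ _)

theorem aff_symmDiff (π : Equiv.Perm E) (w S T : Finset E) :
    symmDiff (aff π.toEmbedding w S) (aff π.toEmbedding w (symmDiff S T)) =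
      T.map π.toEmbedding := by
  unfold aff
  ext j
  simp only [Finset.mem_symmDiff, Finset.mem_map_equiv]
  tauto

theorem tog_iff (i j : E) (S : Finset E) (hij : i ≠ j) :
    (i ∈ tog j S ↔ j ∈ tog j S) ↔ ¬ (i ∈ S ↔ j ∈ S) := by
  simp only [mem_tog]
  tauto

theorem some_block {a b c n : ℕ} (h : n = a + b + c) (hn : 27 ≤ n) :
    9 ≤ a ∨ 9 ≤ b ∨ 9 ≤ c := by omega

theorem symmDiff_tog' (e : E) (z : Finset E) : symmDiff z (tog e z) = {e} := by
  ext j
  simp only [tog, Finset.mem_symmDiff, Finset.mem_singleton]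
  tauto

theorem big (xc1 : S_XC1) (S : Finset E) (h : 27 ≤ S.card) : ∃ a, 9 ≤ cnt a S := by
  rcases some_block (xc1.2.1 S) h with h | h | h
  · exact ⟨0, h⟩
  · exact ⟨1, h⟩
  · exact ⟨2, h⟩

theorem big' (xc1 : S_XC1) (S : Finset E) (h : S.card ≤ 33) : ∃ a, 9 ≤ cnt a Sᶜ := by
  apply big xc1
  rw [Finset.card_compl, Fintype.card_fin]
  omega

theorem xc_mid (xc1 : S_XC1) (xc2 : S_XC2) (S : Finset E) (h : Bd 3 S) : xc S = .mid S := by
  unfold Bd at h
  obtain ⟨a, ha⟩ := big xc1 S (by omega)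
  obtain ⟨b, hb⟩ := big' xc1 S (by omega)
  exact (xc2.2.1 S S).mpr ⟨rfl, ⟨a, by omega⟩, ⟨b, by omega⟩⟩

theorem aut1 : S_MIDPT → S_AUTC → S_NBR → S_LBL → S_L1UP → S_XC1 → S_XC2 → S_AUT1 := by
  intro midpt autc hnbr hlbl l1up xc1 xc2 V G A σ₀ σ₁ hp hess
  obtain ⟨π, w, hB⟩ := hess
  obtain ⟨hgm, hbased, -, -⟩ := hB
  obtain ⟨S₀, hS₀, -, a, ha1, ha2⟩ := midpt π w 0 true
  have hval : ∀ S, Bd 3 S → σ₁ (aff π.toEmbedding w S) = pt 6 (A.b (.mid S)) 3 := by
    intro S hS
    have h1 := xc_mid xc1 xc2 S hS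
    unfold Bd at hS
    obtain ⟨a, ha⟩ := big xc1 S (by omega)
    obtain ⟨b, hb⟩ := big' xc1 S (by omega)
    have := l1up V G A 6 3 _ hgm (by norm_num) (by norm_num) hbased S ⟨a, by omega⟩ ⟨b, by omega⟩
    rw [h1] at this
    exact this
  have hclose : ∀ T : Finset E, T.card ≤ 1 →
      (symmDiff (aff π.toEmbedding w (symmDiff S₀ T)) (symmDiff S₀ T)).card ≤ 1 := by
    intro T hT
    set S := symmDiff S₀ T with hS
    -- counts of `S`
    have hcS : 7 ≤ cnt a S ∧ cnt a S ≤ 13 := by
      rcases Nat.lt_or_ge 0 T.card with h | h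
      · obtain ⟨t, ht⟩ := Finset.card_eq_one.mp (le_antisymm hT h)
        have hS' : S = tog t S₀ := by rw [hS, ht]; rfl
        have h3 := xc1.2.2.1 a t S₀
        rw [hS']
        by_cases h4 : blk t = a
        · by_cases h5 : t ∈ S₀
          · have := h3.2.1 h4 h5; omega
          · have := h3.2.2 h4 h5; omega
        · have := h3.1 h4; omega
      · have hT0 : T = ∅ := by rw [← Finset.card_eq_zero]; omega
        have hS' : S = S₀ := by
          rw [hS, hT0]
          ext i; simp [Finset.mem_symmDiff]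
        rw [hS']; omega
    have hcS' := (xc1.1 a S).2
    have hxS : xc S = .mid S := (xc2.2.1 S S).mpr ⟨rfl, ⟨a, by omega⟩, ⟨a, by omega⟩⟩
    have h1 := l1up V G A 6 3 _ hgm (by norm_num) (by norm_num) hbased S ⟨a, by omega⟩
      ⟨a, by omega⟩
    rw [hxS] at h1
    set U := aff π.toEmbedding w S with hU
    have h2 : symmDiff (aff π.toEmbedding w S₀) U = T.map π.toEmbedding :=
      aff_symmDiff π w S₀ T
    have h3 := card_le_symmDiff (aff π.toEmbedding w S₀) U
    have h4 := card_le_symmDiff U (aff π.toEmbedding w S₀)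
    rw [h2, Finset.card_map, hS₀] at h3
    rw [symmDiff_comm, h2, Finset.card_map, hS₀] at h4
    have hUB : Bd 3 U := ⟨by omega, by omega⟩
    have hU6 : Bd 6 U := ⟨by omega, by omega⟩
    have h5 := (hnbr V G A σ₀ σ₁ hp U hU6).1
    have h6 := hp.near U
    have h1' : σ₁ U = pt 6 (A.b (.mid S)) 3 := h1
    rw [h5, h1', near_pt_iff (by norm_num) (by norm_num)] at h6
    have h7 : A.b (.mid U) = A.b (.mid S) ∨ G.Adj (A.b (.mid U)) (A.b (.mid S)) := by
      rcases h6.2 with h | h | h | h | h | h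
      · omega
      · omega
      · omega
      · omega
      · exact Or.inl h
      · exact Or.inr h.2
    rcases h7 with h | h
    · have := A.b_inj h
      injection this with h8
      rw [← h8]
      simp
    · rcases A.nbr U (xc_mid xc1 xc2 U hUB) _ h with ⟨T', ⟨f, hf⟩, hT'⟩ | h8
      · have h9 := A.b_inj hT'
        have h10 := (xc2.2.1 T' S).mp h9.symm
        rw [← h10.1, hf, symmDiff_tog']
        simp
      · rw [A.ft_b] at h8
        simp at h8
  have hbd : ∀ (i : E) (S : Finset E), Bd 2 S → Bd 3 (tog i S) := by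
    intro i S hS
    have h := xc1.2.2.2.2.2.2.2 i S
    unfold Bd at *
    by_cases hi : i ∈ S
    · have := h.1 hi; omega
    · have := h.2 hi; omega
  rcases autc π w S₀ hclose with h | ⟨i, h⟩ | ⟨i, j, hij, h⟩
  · left
    intro S hS
    have h1 := hval S ⟨by have := hS.1; omega, by have := hS.2; omega⟩
    rw [h S] at h1
    by_contra hne
    obtain ⟨a, ha⟩ := Option.ne_none_iff_exists'.mp hne
    have h2 := (hlbl V G A σ₁ S a).mp ha
    rw [h1, pt_eq_iff (by norm_num) (by norm_num)] at h2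
    rcases h2.2 with h3 | h3 | h3
    · omega
    · omega
    · have := A.b_inj h3
      injection this with h4
      exact tog_ne a S h4.symm
  · right; left
    refine ⟨i, fun S hS => ?_⟩
    rw [hlbl]
    have h1 := hval (tog i S) (hbd i S hS)
    rw [h (tog i S), tog_tog] at h1
    exact h1
  · right; right
    refine ⟨j, i, hij.symm, fun S hS => ⟨fun hS' => ?_, fun hS' => ?_⟩⟩
    · rw [hlbl]
      have h1 := hval (tog j S) (hbd j S hS)
      have h2 : ¬ (i ∈ tog j S ↔ j ∈ tog j S) := by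
        rw [tog_iff i j S hij]
        exact fun h => h hS'.symm
      rw [(h (tog j S)).2 h2, tog_tog] at h1
      exact h1
    · rw [hlbl]
      have h1 := hval (tog i S) (hbd i S hS)
      have h2 : i ∈ tog i S ↔ j ∈ tog i S := by
        have h3 := tog_iff j i S hij.symm
        exact (h3.mpr hS').symm
      rw [(h (tog i S)).1 h2, tog_tog] at h1
      exact h1

end Pool.Agent.Helper71.SD.AUT1
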