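import Pool.Agent.Helper16.SD.Defs

/-!
# Project SD (MP_fc6b1e_nt): the definitions of the final statement

`Ω` is the algebraic closure of the number field `K`, `p` is a prime number. `kd`, `SplitP`: see
`Pool/Agent/Helper16/SD/Defs.lean`; a tower (`IsTower`) is a `ℤ_p`-extension of `K`, `Hat` is the set of its characters of
finite order.
-/

set_option autoImplicit false

namespace Pool.Agent.Helper38.SD

open NumberField Module Pool.Agent.Helper51.SigLeo
open Pool.Agent.Helper16.SD (kd)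
open Pool.Agent.Helper38.FD (Chr CutsOut IsOrdinary)
open Pool.Agent.Helper38.TH (IsTower Hat)
open Pool.Agent.Helper42.RD (TSet)

section basic

variable {p : ℕ} [Fact p.Prime] {K : Type} [Field K]

/-- `κ` has finite order: its kernel is `Gal(Ω/H)`, where `H` is a finite extension of `K`. -/
def FinOrd (κ : Chr K (AlgebraicClosure K) ℂ_[p]) : Prop :=
  ∃ H : IntermediateField K (AlgebraicClosure K), FiniteDimensional K H ∧ CutsOut κ H

/-- The tower `η` is the cyclotomic `ℤ_p`-extension of `K`: its characters are trivial on the automorphisms which fix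
all the roots of unity of `p`-power order. -/
structure IsCyclo (η : ℕ → Chr K (AlgebraicClosure K) ℂ_[p]) : Prop where
  tower : IsTower η
  cyc : ∀ (n : ℕ) (g : AlgebraicClosure K ≃ₐ[K] AlgebraicClosure K),
    (∀ (m : ℕ) (ζ : AlgebraicClosure K), ζ ^ p ^ m = 1 → g ζ = ζ) → η n g = 1

end basic

section bounds

variable {p : ℕ} [Fact p.Prime] {K : Type} [Field K] [NumberField K]

/-- Let `F` be the field of `χ` (a finite Galois extension of `K`). For every set `T` of `a` embeddings of `K` in `ℂ_p`,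
the kernel of the logarithms above `T` on the `χ`-part of the units of `F` has dimension at most `d²/(d + a)`. -/
def Bd₁ (d : ℕ) (Lg : IwasawaLog p ℂ_[p]) (χ : Chr K (AlgebraicClosure K) ℂ_[p]) : Prop :=
  ∀ (F : IntermediateField K (AlgebraicClosure K)) [NumberField F] [IsGalois K F],
    CutsOut χ F → ∀ T : Finset (K →+* ℂ_[p]),
    (d + T.card) * kd Lg F χ T ≤ d ^ 2

/-- The same with `(2 d - a)²/(3 d - a)`. -/
def Bd₂ (d : ℕ) (Lg : IwasawaLog p ℂ_[p]) (χ : Chr K (AlgebraicClosure K) ℂ_[p]) : Prop :=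
  ∀ (F : IntermediateField K (AlgebraicClosure K)) [NumberField F] [IsGalois K F],
    CutsOut χ F → ∀ T : Finset (K →+* ℂ_[p]),
    (3 * d - T.card) * kd Lg F χ T ≤ (2 * d - T.card) ^ 2

/-- The kernel of `log_{S,p}` on the `χ`-part of the units has dimension at most `d/3` (for `d ≤ 2` this says that
`log_{S,p}` is injective). -/
def Third (d : ℕ) (ιinf : AlgebraicClosure K →+* ℂ) (ιp : AlgebraicClosure K →+* ℂ_[p])
    (Lg : IwasawaLog p ℂ_[p]) (χ : Chr K (AlgebraicClosure K) ℂ_[p]) (S : Set (K →+* ℂ)) : Prop :=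
  ∀ (F : IntermediateField K (AlgebraicClosure K)) [NumberField F] [IsGalois K F],
    CutsOut χ F → 3 * kd Lg F χ (TSet ιinf ιp S) ≤ d

/-- The `Σ`-Leopoldt statement for `κ` and for all its conjugates over `ℚ_p`: `log_{S,p}` is injective on the part of the
units which belongs to the character. -/
def GoodFor (ιinf : AlgebraicClosure K →+* ℂ) (ιp : AlgebraicClosure K →+* ℂ_[p])
    (Lg : IwasawaLog p ℂ_[p]) (S : Set (K →+* ℂ)) (κ : Chr K (AlgebraicClosure K) ℂ_[p]) : Prop :=
  ∀ (σ : ℂ_[p] ≃ₐ[ℚ_[p]] ℂ_[p]) (F : IntermediateField K (AlgebraicClosure K)) [NumberField F]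
    [IsGalois K F], CutsOut ((Units.map (σ : ℂ_[p] →* ℂ_[p])).comp κ) F →
    kd Lg F ((Units.map (σ : ℂ_[p] →* ℂ_[p])).comp κ) (TSet ιinf ιp S) = 0

/-- All the sets `P` of at most two embeddings of `K` in `ℂ` which do not contain complex conjugate embeddings, except
(only if `e` is true) `P₀` and its complex conjugate, are contained in a CM type `S` with the property `Q`. -/
def Cov (e : Prop) (Q : Set (K →+* ℂ) → Prop) : Prop :=
  ∃ P₀ : Set (K →+* ℂ), (¬ e → P₀ = ∅) ∧ ∀ P : Set (K →+* ℂ), P.ncard ≤ 2 →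
    (∀ s ∈ P, ComplexEmbedding.conjugate s ∉ P) → P ≠ P₀ →
    P ≠ ComplexEmbedding.conjugate '' P₀ → ∃ S : Set (K →+* ℂ), P ⊆ S ∧ IsCMType S ∧ Q S

/-- The conclusion for the character `χ`: the bounds, the CM types (`Cov`, and there are at least `d`, for odd `d` at least
`d + 1` of them), and for every `ℤ_p`-extension `η'` of `K` and all but finitely many characters `ξ'` of finite order of
`η'`: the bounds for `χ ξ'`, and the `Σ`-Leopoldt statement holds for `χ ξ'` and every set `S` for which it holds for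
`χ`. -/
structure Rich (d : ℕ) (ιinf : AlgebraicClosure K →+* ℂ) (ιp : AlgebraicClosure K →+* ℂ_[p])
    (Lg : IwasawaLog p ℂ_[p]) (χ : Chr K (AlgebraicClosure K) ℂ_[p]) : Prop where
  bd₁ : Bd₁ d Lg χ
  bd₂ : Bd₂ d Lg χ
  cov : Cov (Even d) fun S : Set (K →+* ℂ) ↦ IsOrdinary ιinf ιp S ∧ GoodFor ιinf ιp Lg S χ
  card : d + d % 2 ≤
    {S : Set (K →+* ℂ) | IsCMType S ∧ IsOrdinary ιinf ιp S ∧ GoodFor ιinf ιp Lg S χ}.ncard
  tower : ∀ η' : ℕ → Chr K (AlgebraicClosure K) ℂ_[p], IsTower η' →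
    {ξ' | ξ' ∈ Hat η' ∧ ¬ (Bd₁ d Lg (χ * ξ') ∧ Bd₂ d Lg (χ * ξ') ∧
      ∀ S : Set (K →+* ℂ), GoodFor ιinf ιp Lg S χ → GoodFor ιinf ιp Lg S (χ * ξ'))}.Finite

end bounds

end Pool.Agent.Helper38.SD
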