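import Pool.Agent.Helper38.SD.Lin

/-!
# Project SD, part A: the second bound, from the duality
-/

set_option autoImplicit false

namespace Pool.Agent.Helper38.SD

open NumberField Module IsDedekindDomain TensorProduct
open Pool.Agent.Helper51.SigLeo Pool.Agent.Helper51.RP
open Pool.Agent.Helper16.SD
open Pool.Agent.Helper42.RD (TSet)
open Pool.Agent.Helper38.FD (Chr CutsOut LeopoldtFor IsOrdinary)
open Pool.Agent.Helper38.FW (InDec)
open Pool.Agent.Helper38.TH (IsTower Hat NoSplit)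

section

variable {p : ℕ} [Fact p.Prime]

theorem card_emb {F₀ K : Type} [Field F₀] [NumberField F₀] [Field K] [NumberField K] [Algebra F₀ K]
    (h2 : finrank F₀ K = 2) : Nat.card (K →+* ℂ_[p]) = 2 * finrank ℚ F₀ := by
  have h1 : finrank ℚ K = finrank ℚ F₀ * 2 := by
    rw [← h2]
    exact (Module.finrank_mul_finrank ℚ F₀ K).symm
  rw [Nat.card_eq_fintype_card, NumberField.Embeddings.card K ℂ_[p], h1, mul_comm]

/-- The second bound, for almost all the characters `χ θ`, `θ ∈ Hat η`. -/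
theorem bd₂_dual (hD : Pool.Agent.Helper16.SD.S_DUAL) (hF : M_FUN) (hE : A_EQV) (hp : p ≠ 2) (F₀ K : Type)
    [Field F₀] [NumberField F₀] [IsTotallyReal F₀] [Field K] [NumberField K] [IsTotallyComplex K]
    [Algebra F₀ K] (h2 : finrank F₀ K = 2) (hS : SplitP p K) (ιinf : AlgebraicClosure K →+* ℂ)
    (ιp : AlgebraicClosure K →+* ℂ_[p]) (Lg : IwasawaLog p ℂ_[p])
    (η : ℕ → Chr K (AlgebraicClosure K) ℂ_[p])
    (om u : (AlgebraicClosure K ≃ₐ[K] AlgebraicClosure K) →* ℤ_[p]ˣ) (hC : Cyc η om u)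
    (χ ν : Chr K (AlgebraicClosure K) ℂ_[p]) (F : IntermediateField K (AlgebraicClosure K))
    [NumberField F] [IsGalois K F] (hcut : CutF χ om F)
    (hmul : ∀ g, ((χ g : ℂ_[p]ˣ) : ℂ_[p]) * (ν g : ℂ_[p]ˣ) = zp p (om g : ℤ_[p]ˣ))
    (hdec : ∀ τ : AlgebraicClosure K →+* ℂ_[p], ∃ g, InDec τ g ∧ χ g ≠ 1)
    (hdec' : ∀ τ : AlgebraicClosure K →+* ℂ_[p], ∃ g, InDec τ g ∧ ν g ≠ 1)
    (hdim : finrank ℂ_[p] (chiPart F ν) = finrank ℚ F₀)
    (hrk' : ∀ T : Finset (K →+* ℂ_[p]),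
      (T.card + finrank ℚ F₀) * kd Lg F ν T ≤ finrank ℚ F₀ ^ 2) :
    {θ | θ ∈ Hat η ∧ ¬ Bd₂ (finrank ℚ F₀) Lg (χ * θ)}.Finite := by
  classical
  obtain ⟨e, he⟩ := hE p K ιinf ιp
  set d := finrank ℚ F₀ with hd
  have hd0 : 0 < d := finrank_pos
  have hcard : Nat.card (K →+* ℂ_[p]) = 2 * d := card_emb h2
  -- the sets `B`
  have hB : ∀ T : Finset (K →+* ℂ_[p]), ∃ B : Set (K →+* ℂ_[p]), B ⊆ (T : Set (K →+* ℂ_[p]))ᶜ ∧
      Indep Lg F ν B ∧ kd Lg F ν B = kd Lg F ν (T : Set (K →+* ℂ_[p]))ᶜ := fun T ↦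
    exists_indep Lg F ν hF _
  choose B hB1 hB2 hB3 using hB
  have hcT : ∀ T : Finset (K →+* ℂ_[p]),
      T.card + (T : Set (K →+* ℂ_[p]))ᶜ.ncard = 2 * d := by
    intro T
    rw [← hcard, ← Set.ncard_add_ncard_compl (T : Set (K →+* ℂ_[p])) (Set.toFinite _)
      (Set.toFinite _), Set.ncard_coe_finset]
  -- the bound for `ν`
  have hrk2 : ∀ T : Finset (K →+* ℂ_[p]), ((T : Set (K →+* ℂ_[p]))ᶜ.ncard + d) *
      kd Lg F ν (T : Set (K →+* ℂ_[p]))ᶜ ≤ d ^ 2 := by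
    intro T
    have h3 := hrk' (Set.toFinite (T : Set (K →+* ℂ_[p]))ᶜ).toFinset
    rw [← Set.ncard_eq_toFinset_card _ (Set.toFinite _), Set.Finite.coe_toFinset] at h3
    exact h3
  have hBc : ∀ T : Finset (K →+* ℂ_[p]), (B T).ncard + kd Lg F ν (T : Set (K →+* ℂ_[p]))ᶜ = d := by
    intro T
    have h3 : kd Lg F ν (B T) + (B T).ncard = finrank ℂ_[p] (chiPart F ν) := hB2 T
    rw [hB3 T, hdim] at h3
    omega
  have hne : ∀ T : Finset (K →+* ℂ_[p]), T ≠ Finset.univ → (B T).Nonempty := by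
    intro T hT
    rw [Set.nonempty_iff_ne_empty]
    intro h0
    have h3 := hBc T
    rw [h0, Set.ncard_empty, zero_add] at h3
    have h4 := hrk2 T
    rw [h3] at h4
    have h5 : (T : Set (K →+* ℂ_[p]))ᶜ.ncard = 0 := by
      by_contra h6
      have h7 : 0 < (T : Set (K →+* ℂ_[p]))ᶜ.ncard := Nat.pos_of_ne_zero h6
      nlinarith
    rw [Set.ncard_eq_zero (Set.toFinite _), Set.compl_empty_iff] at h5
    exact hT (by exact_mod_cast h5)
  -- the duality
  have hfin : ∀ T : Finset (K →+* ℂ_[p]), T ≠ Finset.univ →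
      {θ | θ ∈ Hat η ∧ ¬ LeopoldtFor ιinf ιp Lg (e ⁻¹' (B T)ᶜ) (χ * θ)}.Finite := by
    intro T hT
    refine hD p hp K hS ιinf ιp Lg η om u hC χ ν F (B T)
      ⟨hcut, hmul, hdec, hdec', hne T hT, hB2 T⟩ _ fun τ hτ ↦ ?_
    rw [he, Set.image_preimage_eq _ e.surjective]
    exact hτ
  have hU : (⋃ T ∈ (Finset.univ.filter fun T : Finset (K →+* ℂ_[p]) ↦ T ≠ Finset.univ),
      {θ | θ ∈ Hat η ∧ ¬ LeopoldtFor ιinf ιp Lg (e ⁻¹' (B T)ᶜ) (χ * θ)}).Finite :=
    Set.Finite.biUnion (Finset.finite_toSet _) fun T hT ↦ hfin T (Finset.mem_filter.1 hT).2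
  refine hU.subset ?_
  rintro θ ⟨hθ, hbad⟩
  by_contra hnot
  simp only [Finset.mem_filter, Finset.mem_univ, true_and, Set.mem_iUnion, not_exists] at hnot
  have hgood : ∀ T : Finset (K →+* ℂ_[p]), T ≠ Finset.univ →
      LeopoldtFor ιinf ιp Lg (e ⁻¹' (B T)ᶜ) (χ * θ) := by
    intro T hT
    by_contra h3
    exact hnot T hT ⟨hθ, h3⟩
  apply hbad
  intro F' _ _ hF'c
  have hF' : ∀ g, (∀ x ∈ F', g x = x) → (χ * θ) g = 1 := fun g hg ↦ (hF'c g).2 hg
  have main : ∀ T : Finset (K →+* ℂ_[p]), T ≠ Finset.univ →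
      (3 * d - T.card) * kd Lg F' (χ * θ) T ≤ (2 * d - T.card) ^ 2 := by
    intro T hT
    have h3 := (leopoldt_iff hF ιinf ιp Lg _ F' (χ * θ) hF').1 (hgood T hT)
    rw [he, Set.image_preimage_eq _ e.surjective] at h3
    have h4 := kd_le_add Lg F' (χ * θ) hF (T : Set (K →+* ℂ_[p])) ((B T)ᶜ \ T)
    have h5 : kd Lg F' (χ * θ) ((T : Set (K →+* ℂ_[p])) ∪ (B T)ᶜ \ T) = 0 := by
      have h6 : (B T)ᶜ ⊆ (T : Set (K →+* ℂ_[p])) ∪ (B T)ᶜ \ T := by
        intro x hx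
        by_cases hxT : x ∈ (T : Set (K →+* ℂ_[p]))
        · exact Or.inl hxT
        · exact Or.inr ⟨hx, hxT⟩
      have h7 := kd_anti Lg F' (χ * θ) hF h6
      omega
    have h8 : ((B T)ᶜ \ (T : Set (K →+* ℂ_[p]))).ncard + (B T).ncard =
        (T : Set (K →+* ℂ_[p]))ᶜ.ncard := by
      have h9 : (B T)ᶜ \ (T : Set (K →+* ℂ_[p])) = (T : Set (K →+* ℂ_[p]))ᶜ \ B T := by
        ext x
        simp only [Set.mem_sdiff, Set.mem_compl_iff]
        tauto
      rw [h9]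
      exact Set.ncard_sdiff_add_ncard_of_subset (hB1 T) (Set.toFinite _)
    have h10 := hcT T
    have h11 := hBc T
    have h12 := hrk2 T
    set a' := (T : Set (K →+* ℂ_[p]))ᶜ.ncard with ha'
    have h13 : 3 * d - T.card = a' + d := by omega
    have h14 : 2 * d - T.card = a' := by omega
    rw [h13, h14]
    set x := kd Lg F' (χ * θ) T
    set y := kd Lg F ν (T : Set (K →+* ℂ_[p]))ᶜ
    have h15 : x + (B T).ncard ≤ a' := by omega
    have h16 : x + d ≤ a' + y := by omega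
    nlinarith
  intro T
  by_cases hT : T = Finset.univ
  · subst hT
    have hne : Nonempty (K →+* ℂ_[p]) := by
      have h3 : 0 < Nat.card (K →+* ℂ_[p]) := by omega
      exact (Nat.card_pos_iff.1 h3).1
    obtain ⟨σ⟩ := hne
    have h3 : (Finset.univ.erase σ : Finset (K →+* ℂ_[p])) ≠ Finset.univ := by
      intro h4
      have h5 := Finset.mem_univ σ
      rw [← h4] at h5
      exact Finset.notMem_erase _ _ h5
    have h4 := main _ h3
    have h5 : (Finset.univ.erase σ : Finset (K →+* ℂ_[p])).card + 1 = 2 * d := by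
      rw [Finset.card_erase_add_one (Finset.mem_univ σ), Finset.card_univ,
        ← Nat.card_eq_fintype_card, hcard]
    have h6 : 3 * d - (Finset.univ.erase σ : Finset (K →+* ℂ_[p])).card = d + 1 := by omega
    have h7 : 2 * d - (Finset.univ.erase σ : Finset (K →+* ℂ_[p])).card = 1 := by omega
    rw [h6, h7] at h4
    have h8 : kd Lg F' (χ * θ) ((Finset.univ.erase σ : Finset (K →+* ℂ_[p])) :
        Set (K →+* ℂ_[p])) = 0 := by
      by_contra h9
      have h10 := Nat.pos_of_ne_zero h9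
      nlinarith
    have h9 : kd Lg F' (χ * θ) ((Finset.univ : Finset (K →+* ℂ_[p])) : Set (K →+* ℂ_[p])) ≤
        kd Lg F' (χ * θ) ((Finset.univ.erase σ : Finset (K →+* ℂ_[p])) : Set (K →+* ℂ_[p])) :=
      kd_anti Lg F' (χ * θ) hF (by exact_mod_cast Finset.subset_univ _)
    rw [h8] at h9
    have h10 := Nat.le_zero.1 h9
    rw [h10, mul_zero]
    exact Nat.zero_le _
  · exact main T hT

end

end Pool.Agent.Helper38.SD
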