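import Pool.Agent.Helper38.SD.Goals
import Pool.Agent.Helper60.TH.DEIG

/-!
# Project SD, part A: consequences of `M_FUN`
-/

set_option autoImplicit false

namespace Pool.Agent.Helper38.SD

open NumberField Module IsDedekindDomain TensorProduct
open Pool.Agent.Helper51.SigLeo Pool.Agent.Helper51.RP
open Pool.Agent.Helper16.SD
open Pool.Agent.Helper42.RD (TSet)
open Pool.Agent.Helper38.FD (Chr CutsOut LeopoldtFor IsOrdinary)
open Pool.Agent.Helper38.FW (InDec)
open Pool.Agent.Helper38.TH (IsTower Hat NoSplit)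

section lin

variable {k V I : Type} [Field k] [AddCommGroup V] [Module k V]

theorem exists_basis (l : I → V) (T : Set I) : ∃ B ⊆ T, LinearIndepOn k l B ∧
    Submodule.span k (l '' B) = Submodule.span k (l '' T) := by
  obtain ⟨b, hb, -, h1, h2⟩ := exists_linearIndepOn_extension (linearIndepOn_empty k l)
    (Set.empty_subset T)
  refine ⟨b, hb, h2, le_antisymm (Submodule.span_mono (Set.image_mono hb)) ?_⟩
  exact Submodule.span_le.2 h1

theorem exists_ext (l : I → V) (B : Set I) (hB : LinearIndepOn k l B) : ∃ b, B ⊆ b ∧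
    LinearIndepOn k l b ∧ Submodule.span k (l '' b) = Submodule.span k (Set.range l) := by
  obtain ⟨b, -, hb, h1, h2⟩ := exists_linearIndepOn_extension hB (Set.subset_univ B)
  refine ⟨b, hb, h2, le_antisymm (Submodule.span_mono (Set.image_subset_range l b)) ?_⟩
  rw [← Set.image_univ]
  exact Submodule.span_le.2 h1

theorem finrank_of_indep (l : I → V) (B : Set I) [Finite I] (hB : LinearIndepOn k l B) :
    finrank k (Submodule.span k (l '' B)) = B.ncard := by
  classical
  have : Fintype I := Fintype.ofFinite I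
  have : Fintype B := Fintype.ofFinite B
  rw [Set.image_eq_range]
  have h := finrank_span_eq_card hB
  rw [Set.ncard_eq_toFinset_card', Set.toFinset_card]
  exact h

theorem finrank_span_le (l : I → V) (B : Set I) [Finite I] :
    finrank k (Submodule.span k (l '' B)) ≤ B.ncard := by
  classical
  have : Fintype I := Fintype.ofFinite I
  obtain ⟨b, hb, h1, h2⟩ := exists_basis (k := k) l B
  rw [← h2, finrank_of_indep l b h1]
  exact Set.ncard_le_ncard hb (Set.toFinite _)

end lin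

section kd

variable {p : ℕ} [Fact p.Prime] {K : Type} [Field K] [NumberField K]

instance finite_emb : Finite (K →+* ℂ_[p]) := by
  have : Fintype (K →+* ℂ_[p]) := inferInstance
  infer_instance

instance finite_emb_inf : Finite (K →+* ℂ) := by
  have : Fintype (K →+* ℂ) := inferInstance
  infer_instance

/-- `kd = 0` if and only if `LeopoldtFor`. -/
theorem leopoldt_iff (hF : M_FUN) (ιinf : AlgebraicClosure K →+* ℂ)
    (ιp : AlgebraicClosure K →+* ℂ_[p]) (Lg : IwasawaLog p ℂ_[p]) (S : Set (K →+* ℂ))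
    (F : IntermediateField K (AlgebraicClosure K)) [NumberField F] [IsGalois K F]
    (χ : Chr K (AlgebraicClosure K) ℂ_[p]) (hχ : ∀ g, (∀ x ∈ F, g x = x) → χ g = 1) :
    LeopoldtFor ιinf ιp Lg S χ ↔ kd Lg F χ (TSet ιinf ιp S) = 0 := by
  have hfd : FiniteDimensional ℂ_[p] (chiPart F χ) := (hF p K Lg F χ).1
  have h1 := Pool.Agent.Helper60.TH.d_eig p K ιinf ιp Lg S F χ hχ
  have hfd2 : FiniteDimensional ℂ_[p] (chiPart F χ ⊓ logKer Lg F (TSet ιinf ιp S) :
      Submodule ℂ_[p] (ℂ_[p] ⊗[ℤ] Additive (𝓞 F)ˣ)) :=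
    Submodule.finiteDimensional_inf_left _ _
  rw [h1]
  unfold kd
  rw [Submodule.finrank_eq_zero, Submodule.eq_bot_iff]
  constructor
  · rintro h v ⟨hv1, hv2⟩
    exact h v hv1 hv2
  · intro h v hv1 hv2
    exact h v ⟨hv1, hv2⟩

variable (Lg : IwasawaLog p ℂ_[p]) (F : IntermediateField K (AlgebraicClosure K)) [NumberField F]
    [IsGalois K F] (χ : Chr K (AlgebraicClosure K) ℂ_[p])

theorem kd_anti (hF : M_FUN) {T T' : Set (K →+* ℂ_[p])} (h : T ⊆ T') :
    kd Lg F χ T' ≤ kd Lg F χ T := by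
  obtain ⟨hfd, l, hl⟩ := hF p K Lg F χ
  have h1 := hl T
  have h2 := hl T'
  have h3 : finrank ℂ_[p] (Submodule.span ℂ_[p] (l '' T)) ≤
      finrank ℂ_[p] (Submodule.span ℂ_[p] (l '' T')) :=
    Submodule.finrank_mono (Submodule.span_mono (Set.image_mono h))
  omega

theorem kd_le_add (hF : M_FUN) (T A : Set (K →+* ℂ_[p])) :
    kd Lg F χ T ≤ kd Lg F χ (T ∪ A) + A.ncard := by
  obtain ⟨hfd, l, hl⟩ := hF p K Lg F χ
  have h1 := hl T
  have h2 := hl (T ∪ A)
  have h3 : finrank ℂ_[p] (Submodule.span ℂ_[p] (l '' (T ∪ A))) ≤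
      finrank ℂ_[p] (Submodule.span ℂ_[p] (l '' T)) +
        finrank ℂ_[p] (Submodule.span ℂ_[p] (l '' A)) := by
    rw [Set.image_union, Submodule.span_union]
    exact Submodule.finrank_add_le_finrank_add_finrank _ _
  have h4 := finrank_span_le (k := ℂ_[p]) l A
  omega

theorem exists_indep (hF : M_FUN) (T : Set (K →+* ℂ_[p])) : ∃ B ⊆ T, Indep Lg F χ B ∧
    kd Lg F χ B = kd Lg F χ T := by
  obtain ⟨hfd, l, hl⟩ := hF p K Lg F χ
  obtain ⟨B, hB, h1, h2⟩ := exists_basis (k := ℂ_[p]) l T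
  have h3 := hl B
  have h4 := hl T
  have h5 := finrank_of_indep l B h1
  refine ⟨B, hB, ?_, ?_⟩
  · show kd Lg F χ B + B.ncard = _
    omega
  · rw [h2] at h3
    omega

theorem exists_compl (hF : M_FUN) (T : Set (K →+* ℂ_[p])) (h0 : kd Lg F χ Set.univ = 0) :
    ∃ A : Set (K →+* ℂ_[p]), A.ncard ≤ kd Lg F χ T ∧ kd Lg F χ (T ∪ A) = 0 := by
  obtain ⟨hfd, l, hl⟩ := hF p K Lg F χ
  obtain ⟨B, hB, h1, h2⟩ := exists_basis (k := ℂ_[p]) l T
  obtain ⟨b, hb, h3, h4⟩ := exists_ext l B h1
  refine ⟨b \ B, ?_, ?_⟩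
  · have e1 := hl B
    have e2 := hl T
    rw [h2] at e1
    have e3 := finrank_of_indep l B h1
    have e4 := finrank_of_indep l b h3
    have e5 := hl Set.univ
    rw [Set.image_univ, ← h4, h0, e4] at e5
    have e6 := Set.ncard_sdiff hb (Set.toFinite _)
    have e7 := Set.ncard_le_ncard hb (Set.toFinite _)
    rw [h2] at e3
    omega
  · have hsub : b ⊆ T ∪ b \ B := by
      intro x hx
      by_cases hxB : x ∈ B
      · exact Or.inl (hB hxB)
      · exact Or.inr ⟨hx, hxB⟩
    have e1 := kd_anti Lg F χ hF hsub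
    have e2 := hl b
    have e5 := hl Set.univ
    rw [Set.image_univ, ← h4, h0] at e5
    omega

end kd

end Pool.Agent.Helper38.SD
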