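import Pool.Agent.Helper38.SD.GoalsC
import Pool.Agent.Helper16.SD.GoalsN
import Pool.Agent.Helper38.SD.Lin
import Pool.Agent.Helper60.TH.ETOW

/-!
# Project SD (MP_fc6b1e_nt), packet SD-C_RANKG: the rank bound for `Gen`

The proof by helper77 (`Pool/Agent/Helper77/SD/CRANKG.lean`), with `S_RANKN` in the place of `S_RANK`.
-/

set_option autoImplicit false

namespace Pool.Agent.Helper38.SD

open NumberField Module IsDedekindDomain TensorProduct
open Pool.Agent.Helper51.SigLeo Pool.Agent.Helper51.RP
open Pool.Agent.Helper16.SD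
open Pool.Agent.Helper42.RD (TSet)
open Pool.Agent.Helper38.FD (Chr CutsOut LeopoldtFor IsOrdinary)

section comb

variable {I : Type} [Fintype I]

theorem pair_transversal (c : I → I) (hc : ∀ i, c (c i) = i) (hn : ∀ i, c i ≠ i)
    (h4 : Fintype.card I = 4) {a b : I} (hab : b ≠ a) (hab' : b ≠ c a) :
    ∀ i, i ∈ ({a, b} : Set I) ↔ c i ∉ ({a, b} : Set I) := by
  classical
  have hinj : Function.Injective c := fun x y h ↦ by rw [← hc x, h, hc y]
  have h1 : ({a, c a, b, c b} : Finset I) = Finset.univ := by
    apply Finset.eq_univ_of_card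
    rw [h4]
    have n1 : a ≠ c a := (hn a).symm
    have n2 : a ≠ b := hab.symm
    have n3 : a ≠ c b := by
      intro h
      exact hab' (by rw [h, hc])
    have n4 : c a ≠ b := hab'.symm
    have n5 : c a ≠ c b := fun h ↦ n2 (hinj h)
    have n6 : b ≠ c b := (hn b).symm
    rw [Finset.card_insert_of_notMem, Finset.card_insert_of_notMem, Finset.card_insert_of_notMem,
      Finset.card_singleton]
    · simpa using n6
    · simp [n4, n5]
    · simp [n1, n2, n3]
  have n1 : a ≠ c a := (hn a).symm
  have n2 : a ≠ b := hab.symm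
  have n3 : a ≠ c b := by
    intro h
    exact hab' (by rw [h, hc])
  have n4 : c a ≠ b := hab'.symm
  have n5 : c a ≠ c b := fun h ↦ n2 (hinj h)
  have n6 : b ≠ c b := (hn b).symm
  intro i
  have hi : i ∈ ({a, c a, b, c b} : Finset I) := by
    rw [h1]
    exact Finset.mem_univ i
  simp only [Finset.mem_insert, Finset.mem_singleton] at hi
  simp only [Set.mem_insert_iff, Set.mem_singleton_iff]
  rcases hi with h | h | h | h
  · subst h
    simp [n1.symm, n4]
  · subst h
    simp [n1.symm, n4, hc]
  · subst h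
    simp [n3.symm, n6.symm]
  · subst h
    simp [n3.symm, n6.symm, hc]

theorem comb (c : I → I) (hc : ∀ i, c (c i) = i) (hn : ∀ i, c i ≠ i)
    (h4 : Fintype.card I = 4) (f : Set I → ℕ) (hf : ∀ S T : Set I, S ⊆ T → f T ≤ f S)
    (hf1 : ∀ (S : Set I) (a : I), f S ≤ f (S ∪ {a}) + 1) (hf0 : f ∅ ≤ 2)
    (hT : ∀ S₁ S₂ : Set I, (∀ i, i ∈ S₁ ↔ c i ∉ S₁) → (∀ i, i ∈ S₂ ↔ c i ∉ S₂) → S₂ ≠ S₁ →
      S₂ ≠ S₁ᶜ → f S₁ = 0 ∨ f S₂ = 0) (T : Finset I) :
    (T.card + 2) * f (T : Set I) ≤ 4 := by
  classical
  rcases Nat.lt_or_ge 2 T.card with h | h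
  · -- at least three elements
    obtain ⟨a, ha, hca⟩ : ∃ a ∈ T, c a ∈ T := by
      by_contra hno
      push Not at hno
      have hinj : Function.Injective c := fun x y h ↦ by rw [← hc x, h, hc y]
      have h1 : T.image c ⊆ Tᶜ := by
        intro x hx
        obtain ⟨y, hy, rfl⟩ := Finset.mem_image.1 hx
        exact Finset.mem_compl.2 (hno y hy)
      have h2 := Finset.card_le_card h1
      rw [Finset.card_image_of_injective _ hinj, Finset.card_compl, h4] at h2
      omega
    obtain ⟨b, hb, hb'⟩ : ∃ b ∈ T, b ∉ ({a, c a} : Finset I) := by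
      by_contra hno
      push Not at hno
      have h1 : T ⊆ {a, c a} := fun x hx ↦ hno x hx
      have h2 := Finset.card_le_card h1
      have h3 := Finset.card_le_two (a := a) (b := c a)
      omega
    simp only [Finset.mem_insert, Finset.mem_singleton, not_or] at hb'
    have t1 := pair_transversal c hc hn h4 hb'.1 hb'.2
    have t2 : ∀ i, i ∈ ({c a, b} : Set I) ↔ c i ∉ ({c a, b} : Set I) := by
      apply pair_transversal c hc hn h4 hb'.2
      rw [hc]
      exact hb'.1
    have h0 : f (T : Set I) = 0 := by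
      rcases hT _ _ t1 t2 (by
        intro h5
        have h6 : a ∈ ({c a, b} : Set I) := by
          rw [h5]
          exact Set.mem_insert a _
        rcases h6 with h7 | h7
        · exact hn a h7.symm
        · exact hb'.1 h7.symm) (by
        intro h5
        have h6 : b ∈ ({c a, b} : Set I) := Set.mem_insert_of_mem _ rfl
        rw [h5] at h6
        exact h6 (Set.mem_insert_of_mem _ rfl)) with h5 | h5
      · have h6 : ({a, b} : Set I) ⊆ T := by
          rintro x (rfl | rfl)
          · exact ha
          · exact hb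
        have := hf _ _ h6
        omega
      · have h6 : ({c a, b} : Set I) ⊆ T := by
          rintro x (rfl | rfl)
          · exact hca
          · exact hb
        have := hf _ _ h6
        omega
    rw [h0]
    omega
  · rcases Nat.eq_zero_or_pos T.card with h0 | h0
    · rw [Finset.card_eq_zero] at h0
      subst h0
      rw [Finset.coe_empty, Finset.card_empty]
      omega
    · obtain ⟨a, ha⟩ := Finset.card_pos.1 h0
      obtain ⟨b, hb'⟩ : ∃ b, b ∉ ({a, c a} : Finset I) := by
        by_contra hno
        push Not at hno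
        have h1 : (Finset.univ : Finset I) ⊆ {a, c a} := fun x hx ↦ hno x
        have h2 := Finset.card_le_card h1
        have h3 := Finset.card_le_two (a := a) (b := c a)
        rw [Finset.card_univ] at h2
        omega
      simp only [Finset.mem_insert, Finset.mem_singleton, not_or] at hb'
      have t1 := pair_transversal c hc hn h4 hb'.1 hb'.2
      have e1 : c b ≠ a := by
        intro h
        exact hb'.2 (by rw [← h, hc])
      have e2 : c b ≠ c a := by
        intro h
        exact hb'.1 (by rw [← hc b, h, hc])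
      have t2 := pair_transversal c hc hn h4 e1 e2
      have h1 : f {a} ≤ 1 := by
        rcases hT _ _ t1 t2 (by
          intro h5
          have h6 : b ∈ ({a, c b} : Set I) := by
            rw [h5]
            exact Set.mem_insert_of_mem _ rfl
          rcases h6 with h7 | h7
          · exact hb'.1 h7
          · exact hn b h7.symm) (by
          intro h5
          have h6 : a ∈ ({a, c b} : Set I) := Set.mem_insert _ _
          rw [h5] at h6
          exact h6 (Set.mem_insert _ _)) with h5 | h5
        · have h6 := hf1 {a} b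
          have h7 : ({a} ∪ {b} : Set I) = {a, b} := rfl
          rw [h7, h5] at h6
          exact h6
        · have h6 := hf1 {a} (c b)
          have h7 : ({a} ∪ {c b} : Set I) = {a, c b} := rfl
          rw [h7, h5] at h6
          exact h6
      have h2 : f (T : Set I) ≤ f {a} := hf _ _ (by
        rintro x rfl
        exact ha)
      have h3 : f (T : Set I) ≤ 1 := by omega
      calc (T.card + 2) * f (T : Set I) ≤ 4 * 1 := Nat.mul_le_mul (by omega) h3
        _ = 4 := rfl

end comb

theorem conj_ne {K : Type} [Field K] [IsTotallyComplex K] (φ : K →+* ℂ) :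
    ComplexEmbedding.conjugate φ ≠ φ := by
  intro h
  have h1 := IsTotallyComplex.isComplex (InfinitePlace.mk φ)
  rw [InfinitePlace.isComplex_mk_iff] at h1
  exact h1 (ComplexEmbedding.isReal_iff.2 h)

theorem ne_one_of_notCM {p : ℕ} [Fact p.Prime] (h3 : C_IFF) (F₀ K : Type) [Field F₀]
    [NumberField F₀] [IsTotallyReal F₀] [Field K] [NumberField K] [IsTotallyComplex K]
    [Algebra F₀ K] (hK : finrank F₀ K = 2) (χ : Chr K (AlgebraicClosure K) ℂ_[p])
    (hN : NotCM χ) : χ ≠ 1 := by
  rintro rfl
  have hnf : NumberField (⊥ : IntermediateField K (AlgebraicClosure K)) :=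
    NumberField.of_module_finite K _
  have hc : CutsOut (1 : Chr K (AlgebraicClosure K) ℂ_[p])
      (⊥ : IntermediateField K (AlgebraicClosure K)) := by
    intro g
    refine ⟨fun _ x hx ↦ ?_, fun _ ↦ rfl⟩
    obtain ⟨y, rfl⟩ := IntermediateField.mem_bot.1 hx
    exact g.commutes y
  exact hN ⊥ hc ((h3 p F₀ K hK 1 ⊥ hc).2 fun _ _ _ _ ↦ rfl)

/-- **C_RANKG**. -/
theorem c_rankg (h1 : Pool.Agent.Helper16.SD.S_RANKN) (h2 : C_HALF) (h3 : C_IFF) (h4 : M_FUN)
    (h5 : A_EQV) : C_RANKG := by
  intro p _ F₀ K _ _ _ _ _ _ _ hK ιinf ιp Lg F _ _ χ hχ hG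
  have hne : χ ≠ 1 := by
    rcases hG with ⟨g, g', -, h⟩ | ⟨-, hN⟩
    · rintro rfl
      exact h rfl
    · exact ne_one_of_notCM h3 F₀ K hK χ hN
  have hR := h1 p F₀ K hK ιinf ιp Lg F χ hχ hne
  refine ⟨hne, hR.1, ?_⟩
  rcases hG with hM | ⟨hd, hN⟩
  · exact hR.2 hM
  · classical
    intro T
    obtain ⟨e, he⟩ := h5 p K ιinf ιp
    have hfd : FiniteDimensional K F := Module.Finite.of_restrictScalars_finite ℚ K F
    have hfin : FinOrd χ := Pool.Agent.Helper60.TH.exists_cutsOut χ F hχ
    have hcard : Fintype.card (K →+* ℂ) = 4 := by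
      rw [NumberField.Embeddings.card K ℂ, ← Module.finrank_mul_finrank ℚ F₀ K, hd, hK]
    have hle : kd Lg F χ (∅ : Set (K →+* ℂ_[p])) ≤ 2 := by
      obtain ⟨hfd, l, hl⟩ := h4 p K Lg F χ
      have e1 := hl ∅
      have e2 := hR.1
      rw [hd] at e2
      omega
    have key := comb (ComplexEmbedding.conjugate : (K →+* ℂ) → (K →+* ℂ))
      (ComplexEmbedding.involutive_conjugate K) conj_ne hcard
      (fun S ↦ kd Lg F χ (e '' S)) (fun S T h ↦ kd_anti Lg F χ h4 (Set.image_mono h))
      (fun S a ↦ by
        have e1 := kd_le_add Lg F χ h4 (e '' S) (e '' {a})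
        rw [← Set.image_union, Set.image_singleton, Set.ncard_singleton] at e1
        exact e1) (by
        show kd Lg F χ (e '' ∅) ≤ 2
        rw [Set.image_empty]
        exact hle)
      (fun S₁ S₂ t1 t2 n1 n2 ↦ by
        rcases h2 p F₀ K hd hK ιinf ιp Lg χ hfin hN S₁ S₂ t1 t2 n1 n2 with h | h
        · left
          show kd Lg F χ (e '' S₁) = 0
          rw [← he]
          exact (leopoldt_iff h4 ιinf ιp Lg S₁ F χ hχ).1 h
        · right
          show kd Lg F χ (e '' S₂) = 0
          rw [← he]
          exact (leopoldt_iff h4 ιinf ιp Lg S₂ F χ hχ).1 h)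
      (T.map e.symm.toEmbedding)
    have e1 : e '' ((T.map e.symm.toEmbedding : Finset (K →+* ℂ)) : Set (K →+* ℂ)) =
        (T : Set (K →+* ℂ_[p])) := by
      rw [Finset.coe_map]
      show e '' (e.symm '' (T : Set (K →+* ℂ_[p]))) = _
      rw [Equiv.image_symm_image]
    rw [Finset.card_map] at key
    have key2 : (T.card + 2) * kd Lg F χ
        (e '' ((T.map e.symm.toEmbedding : Finset (K →+* ℂ)) : Set (K →+* ℂ))) ≤ 4 := key
    rw [e1] at key2
    rw [hd]
    exact key2

end Pool.Agent.Helper38.SD
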