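import Mathlib

/-!
# Project SD (MP_fc6b1e_nt), part M: transversals with a defect (goals)

Every statement is a `def ... : Prop` with its complete proof in the docstring.
-/

set_option autoImplicit false

namespace Pool.Agent.Helper38.SD

open Module

/-- **M_RADOD** (Rado's theorem with a defect, for vectors).

PROOF. As for `M_RADO` (theorem `Pool.Agent.Helper57.SD.m_rado`, file `Pool/Agent/Helper57/SD/MRADO.lean`; copy and adapt). For a finite set `T` of indices let `r(T)` be the dimension of the span of the `l i`, `i ∈ T`: monotone and submodular. Induction on `∑ j, (A j).card`. (1) If all the `A j` have exactly one element `f j`, take `Q = univ`: `card J ≤ r(range f) + δ`.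
(2) If some `A j₀` contains `x ≠ y`, then one of the families `A'` (`A' j₀ = A j₀ \ {x}`) and `A''` (`A'' j₀ = A j₀ \ {y}`; the other sets unchanged) satisfies the hypotheses (both have nonempty members). Otherwise there are `Q'`, `Q''` with `r(A'(Q')) + δ < |Q'|`, `r(A''(Q'')) + δ < |Q''|`; both contain `j₀`. Let `P' = Q' \ {j₀}`, `P'' = Q'' \ {j₀}`.
`A'(Q') ∪ A''(Q'') = A({j₀} ∪ P' ∪ P'')`, `A'(Q') ∩ A''(Q'') ⊇ A(P' ∩ P'')`. So `|P'| + |P''| ≥ r(A'(Q')) + δ + r(A''(Q'')) + δ ≥ r(A({j₀} ∪ P' ∪ P'')) + δ + r(A(P' ∩ P'')) + δ ≥ 1 + |P' ∪ P''| + |P' ∩ P''| = 1 + |P'| + |P''|`, a contradiction. -/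
def M_RADOD : Prop :=
  ∀ (k V I J : Type) [Field k] [AddCommGroup V] [Module k V] [FiniteDimensional k V] [Fintype I]
    [DecidableEq I] [Fintype J] [DecidableEq J] (l : I → V) (A : J → Finset I) (δ : ℕ),
  (∀ j, (A j).Nonempty) →
  (∀ Q : Finset J,
    Q.card ≤ finrank k (Submodule.span k (l '' ((Q.biUnion A : Finset I) : Set I))) + δ) →
  ∃ f : J → I, (∀ j, f j ∈ A j) ∧
    Fintype.card J ≤ finrank k (Submodule.span k (Set.range fun j ↦ l (f j))) + δ

/-- **M_TRD** (transversals through two elements, with a defect). `c` is an involution without fixed points of the set `I` of `2 d` elements, `r(T)` is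
the dimension of the span of the `l i`, `i ∈ T`; suppose `|T| d ≤ (d + |T|) r(T)` for all `T`. Then every set `P` of at most two elements, not
containing a pair `i, c i`, is contained in a transversal `S` of the pairs `{i, c i}` with `3 r(S) ≥ 2 d`; if `d = 2`, with the exception of one `P₀` and `c P₀`.

PROOF (from `M_RADOD`; the combinatorial part is as in `M_TR`, theorem `Pool.Agent.Helper77.SD.m_tr`, file `Pool/Agent/Helper77/SD/MTR.lean`). Let `R ⊆ I` be a set of representatives of the pairs, `J` the subtype `R`, `A j = {j, c j}` if `P ∩ {j, c j} = ∅`, and `A j = P ∩ {j, c j}` otherwise (one element), `δ = d / 3` (integer division; `3 δ ≥ d - 2`). *Hypothesis of `M_RADOD`:* let `Q` be a finite set of `j`, `n = |Q| ≤ d`,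
`T = ⋃_{j ∈ Q} A j`, `q` the number of the `j ∈ Q` with `P ∩ {j, c j} ≠ ∅`, `q ≤ |P| ≤ 2`, `q ≤ n`; `|T| = 2 n - q`. Suppose `n > r(T) + δ`, so `3 r(T) ≤ 3 n - 3 δ - 3 ≤ 3 n - d - 1`. Then `3 (2 n - q) d ≤ (d + 2 n - q) 3 r(T) ≤ (d + 2 n - q)(3 n - d - 1)`, i.e. `0 ≤ Φ(n)` with `Φ(n) = 6 n² - 5 n d - d² - d - 2 n - 3 n q + 4 q d + q`. `Φ` is convex in `n` and
`q ≤ n ≤ d`: `Φ(d) = q (d + 1) - 3 d`, `Φ(q) = 3 q² - q d - d² - d - q`. Both are negative for `q = 0`, `1` (`d ≥ 1`; for `d = 0` there is nothing to prove) and for `q = 2`, `d ≥ 3`: `Φ(d) = 2 - d`, `Φ(2) = 10 - 3 d - d²`. So for `d ≠ 2` (for `d = 1` a set `P` has at most one element) the hypothesis is satisfied (for instance by `nlinarith` from `(n - q)(d - n) ≥ 0`), `P₀ = ∅`. For `d = 2` the only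
remaining case is `q = 2`, `n = 2`, `Q = univ`, `T = P`: it is satisfied if `r(P) ≥ 2` (`δ = 0`). Hence for `d = 2` all the `P` are fine except those with `|P| = 2`, `r(P) ≤ 1`. If `P`, `P'` are two such sets (transversals, `|P| = 2`, since `d = 2`), `P' ≠ P`, `P' ≠ c P`, then they have exactly one element `i` in common; `r({i}) ≥ 1` (`2 ≤ 3 r`), so `l i ≠ 0` and `P ∪ P'` (three elements) spans
the line of `l i` (submodularity: `r(P ∪ P') ≤ r(P) + r(P') - r({i}) ≤ 1`), but `3 · 2 ≤ 5 r(P ∪ P')` gives `r(P ∪ P') ≥ 2`, a contradiction. So choose `P₀` one of these sets (or `∅`). *Conclusion:* `f` from `M_RADOD`, `S` the range of `f` (contains exactly one element of each pair, contains `P`), `r(S) ≥ card J - δ = d - d / 3`, so `3 r(S) ≥ 2 d`. -/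
def M_TRD : Prop :=
  ∀ (k V I : Type) [Field k] [AddCommGroup V] [Module k V] [FiniteDimensional k V] [Fintype I]
    [DecidableEq I] (c : I → I) (l : I → V) (d : ℕ),
  (∀ i, c (c i) = i) → (∀ i, c i ≠ i) → Fintype.card I = 2 * d →
  (∀ T : Finset I,
    T.card * d ≤ (d + T.card) * finrank k (Submodule.span k (l '' (T : Set I)))) →
  ∃ P₀ : Set I, (d ≠ 2 → P₀ = ∅) ∧ ∀ P : Set I, P.ncard ≤ 2 → (∀ i ∈ P, c i ∉ P) → P ≠ P₀ →
    P ≠ c '' P₀ → ∃ S : Set I, P ⊆ S ∧ (∀ i, i ∈ S ↔ c i ∉ S) ∧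
      2 * d ≤ 3 * finrank k (Submodule.span k (l '' S))

end Pool.Agent.Helper38.SD
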