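import Pool.Agent.Helper38.SD.Cov
import Pool.Agent.Helper38.SD.GoalsD

/-!
# Project SD, part A: CM types with a small defect, from the first bound
-/

set_option autoImplicit false

namespace Pool.Agent.Helper38.SD

open NumberField Module IsDedekindDomain TensorProduct
open Pool.Agent.Helper51.SigLeo Pool.Agent.Helper51.RP
open Pool.Agent.Helper16.SD
open Pool.Agent.Helper42.RD (TSet)
open Pool.Agent.Helper38.FD (Chr CutsOut LeopoldtFor IsOrdinary)
open Pool.Agent.Helper38.FW (InDec)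
open Pool.Agent.Helper38.TH (IsTower Hat NoSplit)

section

variable {p : ℕ} [Fact p.Prime] {K : Type} [Field K] [NumberField K]

omit [NumberField K] in
theorem cutsOut_unique [CharZero K] {χ : Chr K (AlgebraicClosure K) ℂ_[p]}
    {F F' : IntermediateField K (AlgebraicClosure K)} (h : CutsOut χ F) (h' : CutsOut χ F') :
    F = F' := by
  have h1 : F.fixingSubgroup = F'.fixingSubgroup := by
    ext g
    rw [IntermediateField.mem_fixingSubgroup_iff, IntermediateField.mem_fixingSubgroup_iff]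
    exact (h g).symm.trans (h' g)
  rw [← InfiniteGalois.fixedField_fixingSubgroup F, h1,
    InfiniteGalois.fixedField_fixingSubgroup F']

/-- From the first bound to the CM types with a small defect. -/
theorem third_of (hF : M_FUN) (hE : A_EQV) (hT : M_TRD) [IsTotallyComplex K]
    (ιinf : AlgebraicClosure K →+* ℂ) (ιp : AlgebraicClosure K →+* ℂ_[p])
    (Lg : IwasawaLog p ℂ_[p]) (d : ℕ) (hd : finrank ℚ K = 2 * d)
    (χ : Chr K (AlgebraicClosure K) ℂ_[p]) (hχ : FinOrd χ)
    (hdim : ∀ (F : IntermediateField K (AlgebraicClosure K)) [NumberField F] [IsGalois K F],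
      (∀ g, (∀ x ∈ F, g x = x) → χ g = 1) → finrank ℂ_[p] (chiPart F χ) = d)
    (h1 : Bd₁ d Lg χ) : Cov (d = 2) (Third d ιinf ιp Lg χ) := by
  classical
  obtain ⟨F, hFn, hFg, hFc⟩ := finOrd_field hχ
  have hFχ : ∀ g, (∀ x ∈ F, g x = x) → χ g = 1 := fun g hg ↦ (hFc g).2 hg
  obtain ⟨e, he⟩ := hE p K ιinf ιp
  obtain ⟨hfd, l, hl⟩ := hF p K Lg F χ
  have hdimF := hdim F hFχ
  have hcard : Fintype.card (K →+* ℂ_[p]) = 2 * d := by
    rw [NumberField.Embeddings.card K ℂ_[p], hd]
  set c : (K →+* ℂ_[p]) → (K →+* ℂ_[p]) := fun τ ↦ e (ComplexEmbedding.conjugate (e.symm τ))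
    with hc
  have hcc : ∀ τ, c (c τ) = τ := by
    intro τ
    simp [hc]
  have hcn : ∀ τ, c τ ≠ τ := by
    intro τ h
    have h3 : ComplexEmbedding.conjugate (e.symm τ) = e.symm τ := by
      apply e.injective
      rw [e.apply_symm_apply]
      exact h
    have h4 : ComplexEmbedding.IsReal (e.symm τ) := ComplexEmbedding.isReal_iff.2 h3
    have h5 := IsTotallyComplex.isComplex (InfinitePlace.mk (e.symm τ))
    exact (InfinitePlace.not_isReal_iff_isComplex.2 h5) ⟨_, h4, rfl⟩
  have hrank : ∀ T : Set (K →+* ℂ_[p]),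
      kd Lg F χ T + finrank ℂ_[p] (Submodule.span ℂ_[p] (l '' T)) = d := by
    intro T
    rw [hl, hdimF]
  obtain ⟨P₀, hodd, hP⟩ := hT ℂ_[p] (Dual ℂ_[p] (chiPart F χ)) (K →+* ℂ_[p]) c l d hcc hcn hcard
    (fun T ↦ by
      have h3 := h1 F hFc T
      have h4 := hrank T
      set x := kd Lg F χ T
      set y := finrank ℂ_[p] (Submodule.span ℂ_[p] (l '' (T : Set (K →+* ℂ_[p]))))
      have h5 : (d + T.card) * (x + y) = (d + T.card) * d := by rw [h4]
      nlinarith)
  refine ⟨e ⁻¹' P₀, fun ho ↦ by rw [hodd ho, Set.preimage_empty], fun P hP2 hPc hne hne' ↦ ?_⟩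
  have hq1 : (e '' P).ncard ≤ 2 := by
    rw [Set.ncard_image_of_injective _ e.injective]
    exact hP2
  have hq2 : ∀ i ∈ e '' P, c i ∉ e '' P := by
    rintro _ ⟨s, hs2, rfl⟩ ⟨t, ht, h3⟩
    have h4 : t = ComplexEmbedding.conjugate s := by
      apply e.injective
      rw [h3]
      simp [hc]
    rw [h4] at ht
    exact hPc s hs2 ht
  have hq3 : e '' P ≠ P₀ := by
    intro h3
    apply hne
    rw [← h3, Set.preimage_image_eq _ e.injective]
  have hq4 : e '' P ≠ c '' P₀ := by
    intro h3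
    apply hne'
    have h4 : P = e ⁻¹' (c '' P₀) := by rw [← h3, Set.preimage_image_eq _ e.injective]
    rw [h4]
    ext x
    constructor
    · rintro ⟨y, hy, h5⟩
      refine ⟨e.symm y, ?_, ?_⟩
      · show e (e.symm y) ∈ P₀
        rw [e.apply_symm_apply]
        exact hy
      · apply e.injective
        exact h5
    · rintro ⟨y, hy, rfl⟩
      refine ⟨e y, hy, ?_⟩
      simp [hc]
  obtain ⟨S', hPS, hS', hrk⟩ := hP (e '' P) hq1 hq2 hq3 hq4
  refine ⟨e ⁻¹' S', fun x hx ↦ hPS ⟨x, hx, rfl⟩, ?_, ?_⟩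
  · intro φ
    show e φ ∈ S' ↔ ComplexEmbedding.conjugate φ ∉ e ⁻¹' S'
    rw [hS' (e φ)]
    simp [hc]
  · intro F' _ _ hF'
    obtain rfl := cutsOut_unique hFc hF'
    rw [he, Set.image_preimage_eq _ e.surjective]
    have h3 := hrank S'
    have h4 : kd Lg F χ S' + finrank ℂ_[p] (Submodule.span ℂ_[p] (l '' S')) = d := h3
    omega

end

end Pool.Agent.Helper38.SD
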