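import Pool.Agent.Helper38.SD.Asm
import Pool.Agent.Helper38.SD.Third
import Pool.Agent.Helper38.SD.RankG
import Pool.Agent.Helper16.SD.Dual
import Pool.Agent.Helper16.SD.AsmN
import Pool.Agent.Helper80.SD.ACYC
import Pool.Agent.Helper80.SD.ASURJ
import Pool.Agent.Helper80.SD.MFUN
import Pool.Agent.Helper83.SD.ATEI
import Pool.Agent.Helper70.SD.AEQV
import Pool.Agent.Helper69.SD.ANS
import Pool.Agent.Helper28.SD.AEX
import Pool.Agent.Helper89.SD.ACUTF
import Pool.Agent.Helper57.SD.MRADO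
import Pool.Agent.Helper77.SD.MTR
import Pool.Agent.Helper27.SD.MEXT
import Pool.Agent.Helper46.SD.MHUL
import Pool.Agent.Helper49.SD.MCNT
import Pool.Agent.Helper9.SD.MRADOD
import Pool.Agent.Helper12.SD.MTRD

/-!
# Project SD (MP_fc6b1e_nt): the final theorem (from the last goals)
-/

set_option autoImplicit false

namespace Pool.Agent.Helper38.SD

open NumberField Module IsDedekindDomain TensorProduct
open Pool.Agent.Helper51.SigLeo Pool.Agent.Helper51.RP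
open Pool.Agent.Helper16.SD
open Pool.Agent.Helper42.RD (TSet)
open Pool.Agent.Helper38.FD (Chr CutsOut LeopoldtFor IsOrdinary)
open Pool.Agent.Helper38.TH (IsTower Hat)

/-- The main theorem, from the goals `N_MOV`, `C_IFF`, `C_NCM`, `C_HALF`. -/
theorem main_sd_of (hMV : N_MOV) (hI : C_IFF) (hNC : C_NCM) (hH : C_HALF)
    (p : ℕ) [Fact p.Prime] (F K : Type) [Field F] [NumberField F] [IsTotallyReal F]
    [Field K] [NumberField K] [IsTotallyComplex K] [Algebra F K] (hK : finrank F K = 2)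
    (ιinf : AlgebraicClosure K →+* ℂ) (ιp : AlgebraicClosure K →+* ℂ_[p])
    (L : IwasawaLog p ℂ_[p]) (κ : Chr K (AlgebraicClosure K) ℂ_[p]) (hκ : FinOrd κ)
    (hg : Gen (finrank ℚ F) ιinf κ) :
    (Bd₁ (finrank ℚ F) L κ ∧
      Cov (finrank ℚ F = 2) (Third (finrank ℚ F) ιinf ιp L κ)) ∧
    (p ≠ 2 → SplitP p K → ∀ η : ℕ → Chr K (AlgebraicClosure K) ℂ_[p], IsCyclo η →
      {ξ | ξ ∈ Hat η ∧ ¬ Rich (finrank ℚ F) ιinf ιp L (κ * ξ)}.Finite) ∧
    ∃ η : ℕ → Chr K (AlgebraicClosure K) ℂ_[p], IsCyclo η := by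
  have hF : M_FUN := Pool.Agent.Helper80.SD.m_fun
  have hE : A_EQV := Pool.Agent.Helper70.SD.a_eqv
  have hR : C_RANKG := c_rankg s_rankn hH hI hF hE
  have hRD : M_RADO := Pool.Agent.Helper57.SD.m_rado
  have hb : Bd₁ (finrank ℚ F) L κ := bd₁_of hR F hK ιinf ιp L κ hg
  have hdK : finrank ℚ K = 2 * finrank ℚ F := by
    rw [mul_comm, ← hK]
    exact (Module.finrank_mul_finrank ℚ F K).symm
  refine ⟨⟨hb, ?_⟩, fun hp2 hS η hη ↦ ?_, ?_⟩
  · exact third_of hF hE (Pool.Agent.Helper12.SD.m_trd Pool.Agent.Helper9.SD.m_radod) ιinf ιp L _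
      hdK κ hκ (fun F' _ _ hF' ↦ (hR p F K hK ιinf ιp L F' _ hF' hg).2.1) hb
  · exact rich_of hR s_dual hF (Pool.Agent.Helper77.SD.m_tr hRD)
      (Pool.Agent.Helper49.SD.m_cnt (Pool.Agent.Helper46.SD.m_hul Pool.Agent.Helper27.SD.m_ext)) hE
      (Pool.Agent.Helper80.SD.a_cyc Pool.Agent.Helper83.SD.a_tei Pool.Agent.Helper80.SD.a_surj)
      Pool.Agent.Helper69.SD.a_ns hMV hNC Pool.Agent.Helper89.SD.a_cutf hp2 F hK hS ιinf ιp L κ hκ
      hg η hη
  · exact Pool.Agent.Helper28.SD.a_ex p K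

end Pool.Agent.Helper38.SD
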