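import Pool.Agent.Helper38.SD.Defs
import Pool.Agent.Helper16.SD.Top
import Pool.Agent.Helper38.TH.GoalsE

/-!
# Project SD (MP_fc6b1e_nt), parts A and M: goals

Every statement is a `def ... : Prop` with its complete proof in the docstring. `G = Gal(Ω/K)`, `Ω` is the algebraic closure
of `K`. The definitions `Cyc`, `Moved`, `SplitP`, `CutF`, `chiPart`, `logKer`, `kd`, `cyc`, `zp` are in
`Pool/Agent/Helper16/SD/Defs.lean`, `FinOrd`, `IsCyclo` in `Pool/Agent/Helper38/SD/Defs.lean`.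
-/

set_option autoImplicit false

namespace Pool.Agent.Helper38.SD

open NumberField Module IsDedekindDomain TensorProduct
open Pool.Agent.Helper51.SigLeo Pool.Agent.Helper51.RP
open Pool.Agent.Helper16.SD
open Pool.Agent.Helper42.RD (TSet)
open Pool.Agent.Helper38.FD (Chr CutsOut LeopoldtFor IsOrdinary)
open Pool.Agent.Helper38.FW (InDec)
open Pool.Agent.Helper38.TH (IsTower Hat NoSplit)

/-! ## Part M: transversals -/

/-- **M_RADO** (Rado's theorem on independent transversals, for vectors).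

PROOF. For a finite set `T` of indices let `r(T)` be the dimension of the span of the `l i`, `i ∈ T`. `r` is monotone and submodular: `r(T ∪ T') + r(T ∩ T') ≤ r(T) + r(T')` (`Submodule.finrank_sup_add_finrank_inf_eq`, `span(T ∪ T') = span T ⊔ span T'`, `span(T ∩ T') ≤ span T ⊓ span T'`).
Induction on `∑ j, (A j).card`. Every `A j` is nonempty (`Q = {j}`). (1) If all the `A j` have exactly one element `f j`, then for `Q = univ` the span of the `l (f j)` has dimension `≥ card J`, so they are linearly independent (`linearIndependent_iff_card_eq_finrank_span`, `linearIndependent_iff_card_le_finrank_span`).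
(2) If some `A j₀` contains `x ≠ y`, then one of the families `A'` (with `A' j₀ = A j₀ \ {x}`) and `A''` (with `A'' j₀ = A j₀ \ {y}`; the other sets unchanged: `Function.update`) satisfies the hypothesis, and we are done by induction. Otherwise there are `Q'`, `Q''` with `r(A'(Q')) < |Q'|`,
`r(A''(Q'')) < |Q''|`; both contain `j₀` (if `j₀ ∉ Q'` then `A'(Q') = A(Q')`). Let `P' = Q' \ {j₀}`, `P'' = Q'' \ {j₀}`. `A'(Q') ∪ A''(Q'') = A({j₀} ∪ P' ∪ P'')` (every element of `A j₀` is `≠ x` or `≠ y`), `A'(Q') ∩ A''(Q'') ⊇ A(P' ∩ P'')`. So `|P'| + |P''| ≥ r(A'(Q')) + r(A''(Q'')) ≥ r(A({j₀} ∪ P' ∪ P'')) + r(A(P' ∩ P'')) ≥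
1 + |P' ∪ P''| + |P' ∩ P''| = 1 + |P'| + |P''|`, a contradiction. -/
def M_RADO : Prop :=
  ∀ (k V I J : Type) [Field k] [AddCommGroup V] [Module k V] [FiniteDimensional k V] [Fintype I]
    [DecidableEq I] [Fintype J] [DecidableEq J] (l : I → V) (A : J → Finset I),
  (∀ Q : Finset J,
    Q.card ≤ finrank k (Submodule.span k (l '' ((Q.biUnion A : Finset I) : Set I)))) →
  ∃ f : J → I, (∀ j, f j ∈ A j) ∧ LinearIndependent k (fun j ↦ l (f j))

/-- **M_TR** (transversals through two elements). `c` is an involution without fixed points of the set `I` of `2 d` elements, `r(T)` is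
the dimension of the span of the `l i`, `i ∈ T`; `2 r(T) ≥ |T|` for all `T`, with strict inequality if `0 < |T| < 2 d`, `|T| ≠ d`. Then every set `P` of at
most two elements, not containing a pair `i, c i`, is contained in an independent transversal of the pairs `{i, c i}`, except one `P₀` and `c P₀`.

PROOF (from `M_RADO`). `r` is monotone and submodular (see `M_RADO`). *Tight sets:* `T` is tight if `|T| = d` and `2 r(T) = d` (only for `d` even). If `A`, `B` are tight then `A = B` or `B = Aᶜ`: `2 r(A ∪ B) + 2 r(A ∩ B) ≤ 2 d = |A ∪ B| + |A ∩ B|`, so `2 r(A ∪ B) = |A ∪ B|`; if `A ≠ B`, `|A ∪ B| > d`, hence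
`|A ∪ B| = 2 d`, so `Aᶜ ⊆ B`, `|Aᶜ| = d = |B|`. If there is a tight set choose one, `A₀`, and put `P₀ = {i ∈ A₀ | c i ∉ A₀}`; otherwise `P₀ = ∅`. Note `c P₀ = {i ∉ A₀ | c i ∈ A₀}`.
Let `P` be as in the statement. Let `R ⊆ I` be a set of representatives of the pairs (for instance `R = {i | i < c i}` for a linear order of `I`, or by induction), `J` the subtype `R`, `A j = {j, c j}` if `P ∩ {j, c j} = ∅`, and `A j = P ∩ {j, c j}` otherwise (one element). *Hypothesis of `M_RADO`:* let `Q` be a finite set of `j`,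
`T = ⋃_{j ∈ Q} A j`, `q` the number of the `j ∈ Q` with `P ∩ {j, c j} ≠ ∅`, `q ≤ |P| ≤ 2`; the `A j` are disjoint, `|T| = 2 |Q| - q`. `q = 0`: `2 r(T) ≥ 2 |Q|`. `q = 1`: `2 r(T) ≥ 2 |Q| - 1`, so `r(T) ≥ |Q|`. `q = 2`: then `|P| = 2`, `P ⊆ T`, `|Q| ≥ 2`, `|Q| ≤ d`, `0 < |T| = 2 |Q| - 2 < 2 d`. If `2 r(T) > |T|` then `r(T) ≥ |Q|`. Otherwise
`2 r(T) = |T|`, so `|T| = d`, `T` is tight, `T = A₀` or `T = A₀ᶜ`, and `P = {i ∈ T | c i ∉ T}`: `P = P₀` or `P = c P₀`, a contradiction. So `M_RADO` gives `f`; `S` is the range of `f`: `i ∈ S ↔ c i ∉ S` because `S` contains exactly one of `j`, `c j` for every `j ∈ R`; `P ⊆ S`; the `l i`, `i ∈ S`, are independent (`f` is injective). -/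
def M_TR : Prop :=
  ∀ (k V I : Type) [Field k] [AddCommGroup V] [Module k V] [FiniteDimensional k V] [Fintype I]
    [DecidableEq I] (c : I → I) (l : I → V) (d : ℕ),
  (∀ i, c (c i) = i) → (∀ i, c i ≠ i) → Fintype.card I = 2 * d →
  (∀ T : Finset I, T.card ≤ 2 * finrank k (Submodule.span k (l '' (T : Set I)))) →
  (∀ T : Finset I, 0 < T.card → T.card < 2 * d → T.card ≠ d →
    T.card < 2 * finrank k (Submodule.span k (l '' (T : Set I)))) →
  ∃ P₀ : Set I, (Odd d → P₀ = ∅) ∧ ∀ P : Set I, P.ncard ≤ 2 → (∀ i ∈ P, c i ∉ P) → P ≠ P₀ →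
    P ≠ c '' P₀ → ∃ S : Set I, P ⊆ S ∧ (∀ i, i ∈ S ↔ c i ∉ S) ∧
      LinearIndependent k (fun i : S ↦ l i)

/-- **M_FUN** (the functionals on the `χ`-part).

PROOF. `V = chiPart F χ` is finite-dimensional: the unit group is finitely generated (Dirichlet), so `ℂ_p ⊗ (𝓞 F)ˣ` is finite-dimensional (compare `Pool/Agent/Helper60/TH/DEIG.lean`, or search for `FiniteDimensional` / `Module.Finite` of `ℂ_[p] ⊗[ℤ] Additive`). For `σ : K →+* ℂ_p` choose an embedding `τ_σ : F →+* ℂ_p` with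
`τ_σ ∘ algebraMap = σ` (`F/K` algebraic, `ℂ_p` algebraically closed: `IsAlgClosed.lift`), and let `l σ = extHom (logUnits Lg τ_σ)` restricted to `V`. Another embedding `τ` above `σ` is `τ_σ ∘ h`, `h ∈ Gal(F/K)` (`F/K` is normal; compare `exists_gal` in `Pool/Agent/Helper57/TH/DRAM.lean`), `h` the restriction of some `g ∈ G`
(`AlgEquiv.restrictNormalHom_surjective`), and `logUnits Lg τ = logUnits Lg τ_σ ∘ ug F g`, so `extHom (logUnits Lg τ) v = extHom (logUnits Lg τ_σ) (extEnd (ug F g) v) = χ(g) l σ v` for `v ∈ V`. Hence for a set `T` the subspace `chiPart F χ ⊓ logKer Lg F T` corresponds to the common kernel of the `l σ`, `σ ∈ T`, in `V`, which is the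
`dualCoannihilator` of the span of the `l σ` (`Submodule.dualCoannihilator`, `Subspace.finrank_add_finrank_dualCoannihilator_eq` or similar; or by rank-nullity). -/
def M_FUN : Prop :=
  ∀ (p : ℕ) [Fact p.Prime] (K : Type) [Field K] [NumberField K] (Lg : IwasawaLog p ℂ_[p])
    (F : IntermediateField K (AlgebraicClosure K)) [NumberField F] [IsGalois K F]
    (χ : Chr K (AlgebraicClosure K) ℂ_[p]),
  FiniteDimensional ℂ_[p] (chiPart F χ) ∧
  ∃ l : (K →+* ℂ_[p]) → Dual ℂ_[p] (chiPart F χ), ∀ T : Set (K →+* ℂ_[p]),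
    kd Lg F χ T + finrank ℂ_[p] (Submodule.span ℂ_[p] (l '' T)) = finrank ℂ_[p] (chiPart F χ)

/-! ## Part A: the cyclotomic tower -/

/-- **A_TEI** (the decomposition `ℤ_pˣ = μ_{p-1} × (1 + p ℤ_p)`).

PROOF. For `x ∈ ℤ_pˣ` there is a unique `z ∈ ℤ_p` with `z^(p-1) = 1` and `‖z - x‖ < 1`: Hensel's lemma (`hensels_lemma`, or `HenselianLocalRing`/`IsAdicComplete`) for the polynomial `X^(p-1) - 1` at `x`: `‖x^(p-1) - 1‖ < 1` by Fermat in `ZMod p` (`PadicInt.toZMod`, `ZMod.pow_card_sub_one_eq_one`, `PadicInt.norm_lt_one_iff_dvd`,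
`PadicInt.ker_toZMod`), and the derivative `(p-1) x^(p-2)` is a unit. `o x = z` as a unit; `o` is multiplicative by the uniqueness (`‖z z' - x x'‖ < 1`). `w x = (o x)⁻¹ x`. (Or `o x = lim x^(p^n)`.) -/
def A_TEI : Prop :=
  ∀ (p : ℕ) [Fact p.Prime], ∃ o w : ℤ_[p]ˣ →* ℤ_[p]ˣ, (∀ x, x = o x * w x) ∧
    (∀ x, o x ^ (p - 1) = 1) ∧ ∀ x, (p : ℤ_[p]) ∣ ((w x : ℤ_[p]ˣ) : ℤ_[p]) - 1

/-- **A_SURJ** (the cyclotomic character is surjective modulo `p^m`, if `p` splits completely in `K`).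

PROOF. `m = 0` is trivial, let `m ≥ 1`. There is an embedding `K → ℂ_p` (`ℂ_p` is algebraically closed), by `SplitP` it comes from an embedding `i : K →+* ℚ_p`. The polynomial `Φ = cyclotomic (p^m) ℚ_p` is irreducible: `Φ.comp (X + 1)` is an Eisenstein polynomial at `p` over `ℤ`
(`Polynomial.cyclotomic_prime_pow_comp_X_add_one_isEisensteinAt`), so also over `ℤ_p`, and Gauss' lemma (`Polynomial.Monic.irreducible_iff_irreducible_map_fraction_map`); compare `Pool/Agent/Helper32/TH/EIMG.lean`, where `[ℚ_p(τ ζ) : ℚ_p] = φ(p^c)` is proved. Since `Φ` is the image by `i` of `cyclotomic (p^m) K`, this last polynomial is irreducible too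
(`Polynomial.Monic.irreducible_of_irreducible_map`). Let `ζ ∈ Ω` be a primitive `p^m`-th root of unity, `minpoly K ζ = cyclotomic (p^m) K`. `ζ^a` is also a primitive `p^m`-th root of unity (`a` prime to `p`), so it is a root of the same minimal polynomial and there is `g ∈ Gal(Ω/K)` with `g ζ = ζ^a` (`IntermediateField.exists_algHom_of_splits`, `minpoly`,
`Normal`, `IsConjRoot`, `isConjRoot_iff_exists_algEquiv`). Then `cyc p g ≡ a mod p^m` by `cyclotomicCharacter.spec` (`toZModPow m` of both sides; `PadicInt.ker_toZModPow`; compare `Pool/Agent/Helper65/TH/TOR.lean`: `cyc_spec`, and `Pool/Agent/Helper60/TH/ETOW.lean`). -/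
def A_SURJ : Prop :=
  ∀ (p : ℕ) [Fact p.Prime] (K : Type) [Field K] [NumberField K], SplitP p K →
  ∀ m a : ℕ, a.Coprime p → ∃ g : AlgebraicClosure K ≃ₐ[K] AlgebraicClosure K,
    (p : ℤ_[p]) ^ m ∣ ((cyc p g : ℤ_[p]ˣ) : ℤ_[p]) - a

/-- **A_CYC** (a cyclotomic tower satisfies `Cyc`).

PROOF (from `A_TEI`, `A_SURJ`). `o`, `w` as in `A_TEI`, `om = o ∘ cyc p`, `u = w ∘ cyc p` (`cyc p` is a homomorphism: `cyclotomicCharacter` is a `→*`). Only `cut` has to be proved. Fix `n`; the case `n = 0` is `u_one` (`η 0 = 1`, and `n + 1 = 1`).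
(1) *There is `m ≥ n + 1` such that `p^m ∣ cyc g - 1` implies `η n g = 1`.* Let `H` be the field of `η n` (`IsTower.fin`), finite over `K`. `H` is contained in the union of the fields `K(μ_{p^m})`: let `M = IntermediateField.adjoin K {ζ | ∃ m, ζ^(p^m) = 1}`; if `g` fixes `M` then `η n g = 1` (`IsCyclo.cyc`), so `g` fixes `H`; hence `M.fixingSubgroup ≤ H.fixingSubgroup` and
`H ≤ M` by infinite Galois theory (`InfiniteGalois.fixedField_fixingSubgroup`, antitone). `H` is generated by one element (primitive element theorem) or finitely many; each is in `K(μ_{p^m})` for some `m` (directed union, or: an element of `adjoin` is in the `adjoin` of a finite subset: `IntermediateField.exists_finset_of_mem_adjoin`). If `p^m ∣ cyc g - 1` then `g` fixes `μ_{p^m}` (`cyclotomicCharacter.spec`), so `g` fixes `H`, so `η n g = 1`.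
(2) Let `a ∈ ℕ` be a generator of `(ZMod (p^m))ˣ` (cyclic since `p` is odd: `ZMod.isCyclic_units_of_prime_pow`), `g₀` with `p^m ∣ cyc g₀ - a` (`A_SURJ`). For `g ∈ G` let `i` be such that `cyc g ≡ a^i mod p^m`; then `cyc (g g₀^(-i)) ≡ 1 mod p^m`, so `η n g = (η n g₀)^i` by (1). `η n` has order exactly `p^n`: `(η n)^(p^(n-1)) = η 1 ≠ 1` and `(η n)^(p^n) = 1` (`tower_pow`, `tower_ord` in
`Pool/Agent/Helper57/TH/DRAM.lean`), so `orderOf (η n g₀) = p^n` (`(η n g)^(p^(n-1)) = ((η n g₀)^(p^(n-1)))^i` is not always `1`). So `η n g = 1 ↔ p^n ∣ i`. (3) `p^(n+1) ∣ u(g) - 1` iff `p^(n+1) ∣ u(g)^(p-1) - 1` (`u^(p-1) - 1 = (u - 1)(1 + u + ... + u^(p-2))`, the sum is `≡ p - 1 ≡ -1 mod p`, a unit) iff `p^(n+1) ∣ cyc(g)^(p-1) - 1` iff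
`a^(i (p-1)) ≡ 1 mod p^(n+1)` iff `φ(p^(n+1)) = p^n (p-1) ∣ i (p-1)` (`a` modulo `p^(n+1)` is a generator of `(ZMod (p^(n+1)))ˣ`, because `m ≥ n + 1`: `ZMod.unitsMap_surjective`) iff `p^n ∣ i`. -/
def A_CYC : Prop :=
  ∀ (p : ℕ) [Fact p.Prime], p ≠ 2 → ∀ (K : Type) [Field K] [NumberField K], SplitP p K →
  ∀ η : ℕ → Chr K (AlgebraicClosure K) ℂ_[p], IsCyclo η →
  ∃ om u : (AlgebraicClosure K ≃ₐ[K] AlgebraicClosure K) →* ℤ_[p]ˣ, Cyc η om u

/-- **A_EX** (existence of the cyclotomic tower).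

PROOF. The tower constructed in the proof of `Pool.Agent.Helper60.TH.e_tow` (file `Pool/Agent/Helper60/TH/ETOW.lean`): `η_n(g) = ζ_n^(ℓ'(g) mod p^n)`, where `p^a ℓ'(g) = l(cyc(g))` and `l : ℤ_pˣ → ℤ_p` is the logarithm of `E_LOG` (`Pool.Agent.Helper80.TH.e_log`); `E_IMG` is `Pool.Agent.Helper32.TH.e_img`. Copy that proof; the additional claim is: if `g` fixes all the roots of unity of `p`-power order of `Ω`, then `cyc(g) = 1`
(`cyclotomicCharacter.spec`, `PadicInt.ext_of_toZModPow`), so `l(cyc g) = 0`, `ℓ'(g) = 0` and `η_n(g) = 1`. (`NoSplit` is not needed here.) -/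
def A_EX : Prop :=
  ∀ (p : ℕ) [Fact p.Prime] (K : Type) [Field K] [NumberField K],
    ∃ η : ℕ → Chr K (AlgebraicClosure K) ℂ_[p], IsCyclo η

/-- **A_NS** (no place above `p` splits completely in the cyclotomic tower).

PROOF. `E_IMG` (theorem `Pool.Agent.Helper32.TH.e_img`) with `d = p - 1` gives, for `τ : Ω →+* ℂ_p`, an element `g` with `InDec τ g` and `cyc(g)^(p-1) ≠ 1`. `cyc(g)^(p-1) = om(g)^(p-1) u(g)^(p-1) = u(g)^(p-1)`, so `u(g) ≠ 1`, so `u(g) - 1 ≠ 0` in `ℤ_p` and there is `n` with `p^(n+1) ∤ u(g) - 1` (`PadicInt.ext_of_toZModPow`, or the norm; compare `eq_zero_of_dvd` in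
`Pool/Agent/Helper60/TH/ETOW.lean`). By `Cyc.cut`, `η n g ≠ 1`. -/
def A_NS : Prop :=
  ∀ (p : ℕ) [Fact p.Prime] (K : Type) [Field K] [NumberField K]
    (η : ℕ → Chr K (AlgebraicClosure K) ℂ_[p])
    (om u : (AlgebraicClosure K ≃ₐ[K] AlgebraicClosure K) →* ℤ_[p]ˣ), Cyc η om u → NoSplit η

/-- **A_MOV** (`Moved` is inherited).

PROOF. Let `g`, `g'` be as in the definition of `Moved`. (1) `cyc g' = cyc g`: let `ζ ∈ Ω`, `ζ^(p^m) = 1`. `ι_∞ ζ` has absolute value `1`, so `ι_∞ (ζ⁻¹)` is the complex conjugate of `ι_∞ ζ`, and `ι_∞ (g' ζ⁻¹) = conj (ι_∞ (g ζ)) = ι_∞ ((g ζ)⁻¹)` (`g ζ` is also a root of unity), so `g' ζ = g ζ`. Now `cyclotomicCharacter` is determined by the action on the roots of unity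
(`cyclotomicCharacter.spec`, `modularCyclotomicCharacter.unique`, `PadicInt.ext_of_toZModPow`; compare `cyc_spec` in `Pool/Agent/Helper65/TH/TOR.lean`). (2) `om g' = om g` and `u g' = u g`: `x = om g' / om g`, `y = u g' / u g` satisfy `x y = 1`, `x^(p-1) = 1`, so `y^(p-1) = 1`; `p ∣ y - 1` (quotient of elements congruent to `1`), and `y^(p-1) - 1 = (y - 1)(1 + y + ... + y^(p-2))`, where the
sum is `≡ -1 mod p`, hence a unit; so `y = 1`. (3) `η n g' = η n g` for all `n`: `h = g' g⁻¹` has `u h = 1`, so `η n h = 1` by `cut`. So `θ g' = θ g` for `θ ∈ Hat η`, and `(χ θ)(g') ≠ (χ θ)(g)`. (4) If `χ(g) ν(g) = zp p (om g)` for all `g`, then `ν g' = ν g` would imply `χ g' = χ g` (`zp p (om g)` is the same for `g` and `g'`, and `ν g ≠ 0`). -/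
def A_MOV : Prop :=
  ∀ (p : ℕ) [Fact p.Prime] (K : Type) [Field K] [NumberField K]
    (ιinf : AlgebraicClosure K →+* ℂ) (η : ℕ → Chr K (AlgebraicClosure K) ℂ_[p])
    (om u : (AlgebraicClosure K ≃ₐ[K] AlgebraicClosure K) →* ℤ_[p]ˣ), Cyc η om u →
  ∀ χ : Chr K (AlgebraicClosure K) ℂ_[p], Moved ιinf χ →
    (∀ θ ∈ Hat η, Moved ιinf (χ * θ)) ∧
    ∀ ν : Chr K (AlgebraicClosure K) ℂ_[p],
      (∀ g, ((χ g : ℂ_[p]ˣ) : ℂ_[p]) * (ν g : ℂ_[p]ˣ) = zp p (om g : ℤ_[p]ˣ)) → Moved ιinf ν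

/-- **A_CUTF** (the field of `χ` and `om`).

PROOF. Let `H` be the field of `χ`, finite over `K` (`FinOrd`), `ζ ∈ Ω` a primitive `p`-th root of unity, `X = H ⊔ K(ζ)` (or the normal closure of it), finite over `K`. If `g` fixes `X` then `χ g = 1` and `om g = 1`: `cyc g ≡ 1 mod p` (`cyclotomicCharacter.spec`), `u g ≡ 1 mod p`, so `om g ≡ 1 mod p`; `om(g)^(p-1) = 1` and `p ∣ om(g) - 1` imply
`om g = 1` (`z^(p-1) - 1 = (z - 1)(1 + z + ... + z^(p-2))`, the sum is `≡ -1 mod p`, a unit). Let `N = χ.ker ⊓ om.ker`, a normal subgroup of `G` which contains the open subgroup `X.fixingSubgroup`, so it is open and closed, `F = fixedField N ≤ X` is finite over `K`, `F.fixingSubgroup = N` (`InfiniteGalois.fixingSubgroup_fixedField`; this is the lemma `exists_cutsOut` in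
`Pool/Agent/Helper60/TH/ETOW.lean` for one character), which is `CutF χ om F`, and `F/K` is Galois since `N` is normal (`InfiniteGalois.normal_iff_isGalois`, or `IsGalois.of_fixedField_normal_subgroup`, or: `F` is stable under all `g ∈ G`, `IntermediateField.normal_iff_forall_map_le`). -/
def A_CUTF : Prop :=
  ∀ (p : ℕ) [Fact p.Prime] (K : Type) [Field K] [NumberField K]
    (η : ℕ → Chr K (AlgebraicClosure K) ℂ_[p])
    (om u : (AlgebraicClosure K ≃ₐ[K] AlgebraicClosure K) →* ℤ_[p]ˣ), Cyc η om u →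
  ∀ χ : Chr K (AlgebraicClosure K) ℂ_[p], FinOrd χ →
  ∃ F : IntermediateField K (AlgebraicClosure K), FiniteDimensional K F ∧ IsGalois K F ∧ CutF χ om F

/-- **A_EQV** (the bijection between the embeddings of `K` in `ℂ` and in `ℂ_p`).

PROOF. Every embedding of the number field `K` in `ℂ` (in `ℂ_p`) is `ι_∞ ∘ σ` (is `ι_p ∘ σ`) for a unique `σ : K →+* Ω`: existence is `exists_lift_embedding` (used in `Pool/Agent/Helper35/RD/RSP.lean`, theorem `tset_ncard`), uniqueness is `comp_inj` there. So `e = (σ ↦ ι_p ∘ σ) ∘ (σ ↦ ι_∞ ∘ σ)⁻¹` (`Equiv.ofBijective` twice), and `TSet ιinf ιp S = {ι_p ∘ σ | ι_∞ ∘ σ ∈ S}` is `e '' S`. -/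
def A_EQV : Prop :=
  ∀ (p : ℕ) [Fact p.Prime] (K : Type) [Field K] [NumberField K]
    (ιinf : AlgebraicClosure K →+* ℂ) (ιp : AlgebraicClosure K →+* ℂ_[p]),
  ∃ e : (K →+* ℂ) ≃ (K →+* ℂ_[p]), ∀ S : Set (K →+* ℂ), TSet ιinf ιp S = e '' S

end Pool.Agent.Helper38.SD
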