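import Pool.Agent.Helper38.SD.GoalsC

/-!
# Project SD (MP_fc6b1e_nt): the hand-in HalfOfCMTypesCyclic is a special case (scratch)
-/

set_option autoImplicit false

namespace Pool.Agent.Helper38.SD

open NumberField Module IsDedekindDomain TensorProduct
open Pool.Agent.Helper51.SigLeo Pool.Agent.Helper51.RP
open Pool.Agent.Helper16.SD
open Pool.Agent.Helper42.RD (TSet)
open Pool.Agent.Helper38.FD (Chr CutsOut LeopoldtFor IsOrdinary)

/-- **D_OLD** (for documentation: the old theorem HalfOfCMTypesCyclic follows from the first part of the new one).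

PROOF. Let `F`, `K`, `H`, `χ`, `S₁`, `S₂` be as in the conclusion. Choose a `K`-embedding `j : H → Ω`, `Ω` the algebraic closure of `K` (`IsAlgClosed.lift`), `H' = j(H)` (`AlgHom.fieldRange`), and an isomorphism `r` from `Ω` onto the algebraic closure `Q` of `ℚ` (both are algebraic closures of `ℚ`: `IsAlgClosure.equiv`). Let `κ : Gal(Ω/K) → ℂ_pˣ`, `κ(g) = χ(h)`, where
`g (j x) = j (h x)` (`H/K` is normal: `AlgEquiv.restrictNormalHom` of `H'` and the isomorphism `H ≃ H'`). `CutsOut κ H'` (`χ` is injective), so `FinOrd κ`, and `NotCM κ` (`H' ≃ H` is not CM; the field cut out is unique: `cutsOut_unique` in `Pool/Agent/Helper38/SD/Third.lean`). By the hypothesis with `ιinf ∘ r`, `ιp ∘ r` there is `P₀`. For a CM type `S` different from `P₀` and `conj P₀`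
(`S` has two elements, no two conjugate): `S ⊆ S'`, `IsCMType S'`, `Third ... S'`; `S' = S` (two CM types, one contained in the other), and `3 kd ≤ 2`, so `kd L H' κ (TSet ...) = 0`, so `LeopoldtFor ... S κ` (`leopoldt_iff` in `Pool/Agent/Helper38/SD/Lin.lean`, `m_fun` in `Pool/Agent/Helper80/SD/MFUN.lean`), so (unfold; the field `H''` in `LeopoldtFor` is equal to `H'` by `cutsOut_unique`)
`InjectiveOn` for `H'` and the character of `Gal(H'/K)`; transport it to `H` by the isomorphism `H ≃ H'` (units, `unitsHom`, `logSigma`; compare the proof of `C_HALF` in `Pool/Agent/Helper22` or the transport lemmas of `Pool/Agent/Helper16/SB`). Now if both `S₁` and `S₂` were bad, both would be in `{P₀, conj P₀}`, so `S₂ = S₁` or `S₂ = conj S₁ = S₁ᶜ`. -/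
def D_OLD : Prop :=
  (∀ (p : ℕ) [Fact p.Prime] (F K : Type) [Field F] [NumberField F] [IsTotallyReal F]
    [Field K] [NumberField K] [IsTotallyComplex K] [Algebra F K], finrank F K = 2 →
    ∀ (ιinf : AlgebraicClosure K →+* ℂ) (ιp : AlgebraicClosure K →+* ℂ_[p])
    (L : IwasawaLog p ℂ_[p]) (κ : Chr K (AlgebraicClosure K) ℂ_[p]), FinOrd κ →
    Gen (finrank ℚ F) ιinf κ → Cov (finrank ℚ F = 2) (Third (finrank ℚ F) ιinf ιp L κ)) →
  ∀ (F K H : Type) [Field F] [NumberField F] [Field K] [NumberField K] [Field H]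
    [NumberField H] [Algebra F K] [Algebra K H] [IsTotallyReal F] [IsTotallyComplex K]
    [IsGalois K H], finrank ℚ F = 2 → finrank F K = 2 → ¬ IsCMField H → ∀ (p : ℕ)
    [Fact p.Prime] (ιinf : AlgebraicClosure ℚ →+* ℂ) (ιp : AlgebraicClosure ℚ →+* ℂ_[p])
    (χ : (H ≃ₐ[K] H) →* ℂ_[p]ˣ), Function.Injective χ → ∀ (L : IwasawaLog p ℂ_[p])
    (S₁ S₂ : Set (K →+* ℂ)), IsCMType S₁ → IsCMType S₂ → S₂ ≠ S₁ → S₂ ≠ S₁ᶜ →
    InjectiveOn (finrank K H) χ unitsHom (logSigma ιinf ιp S₁ L) ∨
      InjectiveOn (finrank K H) χ unitsHom (logSigma ιinf ιp S₂ L)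

end Pool.Agent.Helper38.SD
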