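import Pool.Agent.Helper71.SD.Goals

namespace Pool.Agent.Helper38.SD

open Pool.Agent.Helper71.AHtpy hiding blk
open Pool.Agent.Helper71.SD SimpleGraph

variable {V : Type} {G : SimpleGraph V} {n : ℕ} {θ : Finset E → Quotient (suspSetoid V n)}

theorem near_lev {q q' : Quotient (suspSetoid V n)} (h : Near (Susp G n) q q') :
    lev q ≤ lev q' + 1 ∧ lev q' ≤ lev q + 1 ∧
      (0 < lev q → lev q < n → 0 < lev q' → lev q' < n →
        lab q = lab q' ∨ (lev q = lev q' ∧ G.Adj (lab q) (lab q'))) := by
  rw [← pt_lab_lev q, ← pt_lab_lev q'] at h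
  rw [near_pt_iff (lev_le q) (lev_le q')] at h
  obtain ⟨⟨h1, h2⟩, h3⟩ := h
  refine ⟨h1, h2, fun a b c d => ?_⟩
  rcases h3 with h | h | h | h | h | h
  · omega
  · omega
  · omega
  · omega
  · exact Or.inl h
  · exact Or.inr h

theorem tog_symmDiff {A B : Finset E} {i : E} (hi : i ∈ symmDiff A B) :
    symmDiff (tog i A) B = (symmDiff A B).erase i := by
  ext j
  simp only [tog, Finset.mem_symmDiff, Finset.mem_singleton, Finset.mem_erase] at *
  by_cases hj : j = i
  · subst hj; tauto
  · tauto

theorem lev_lip (hθ : IsGraphMap (cube E) (Susp G n) θ) :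
    ∀ (d : ℕ) (A B : Finset E), (symmDiff A B).card = d → lev (θ A) ≤ lev (θ B) + d := by
  intro d
  induction d with
  | zero =>
    intro A B h
    have : A = B := by
      rw [Finset.card_eq_zero] at h
      exact symmDiff_eq_bot.mp h
    rw [this]; omega
  | succ d ih =>
    intro A B h
    obtain ⟨i, hi⟩ : (symmDiff A B).Nonempty := by
      rw [← Finset.card_pos]; omega
    have h1 := tog_symmDiff hi
    have h2 : (symmDiff (tog i A) B).card = d := by
      rw [h1, Finset.card_erase_of_mem hi]; omega
    have h3 := ih _ _ h2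
    have h4 := (near_lev (hθ A (tog i A) ⟨i, rfl⟩)).1
    omega

theorem lev_lip' (hθ : IsGraphMap (cube E) (Susp G n) θ) (A B : Finset E) :
    lev (θ A) ≤ lev (θ B) + (symmDiff A B).card := lev_lip hθ _ A B rfl

theorem card_symmDiff_tri (A B C : Finset E) :
    (symmDiff A C).card ≤ (symmDiff A B).card + (symmDiff B C).card := by
  have : symmDiff A C ⊆ symmDiff A B ∪ symmDiff B C := symmDiff_triangle A B C
  exact (Finset.card_le_card this).trans (Finset.card_union_le _ _)

theorem symmDiff_tog (e : E) (z : Finset E) : symmDiff z (tog e z) = {e} := by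
  ext j
  simp only [tog, Finset.mem_symmDiff, Finset.mem_singleton]
  tauto

theorem card_symmDiff_le (A B : Finset E) : (symmDiff A B).card ≤ A.card + B.card := by
  have : symmDiff A B ⊆ A ∪ B := by
    intro i hi
    rw [Finset.mem_symmDiff] at hi
    rw [Finset.mem_union]
    tauto
  exact (Finset.card_le_card this).trans (Finset.card_union_le _ _)

theorem card_symmDiff_add_inter (A B : Finset E) :
    (symmDiff A B).card + (A ∩ B).card ≤ (A ∪ B).card := by
  have hsub : symmDiff A B ∪ (A ∩ B) ⊆ A ∪ B := by
    intro i hi
    simp only [Finset.mem_union, Finset.mem_inter, Finset.mem_symmDiff] at *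
    tauto
  have hdis : Disjoint (symmDiff A B) (A ∩ B) := by
    rw [Finset.disjoint_left]
    intro i hi hi'
    simp only [Finset.mem_inter, Finset.mem_symmDiff] at *
    tauto
  rw [← Finset.card_union_of_disjoint hdis]
  exact Finset.card_le_card hsub

theorem third_block (a b : Fin 3) : ∃ c : Fin 3, c ≠ a ∧ c ≠ b := by
  decide +revert

/-- Labels are constant along geodesics with increasing levels. -/
theorem lab_geod (hθ : IsGraphMap (cube E) (Susp G n) θ) {z S : Finset E} {D : ℕ}
    (hD : (symmDiff z S).card = D) (hz : lev (θ z) = 0) (hS : D ≤ lev (θ S)) (hn : D < n) :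
    ∀ (m : ℕ) (W : Finset E), (symmDiff W S).card = m → (symmDiff z W).card + m = D → W ≠ z →
      lev (θ W) = (symmDiff z W).card ∧ lab (θ W) = lab (θ S) := by
  have hlev : ∀ W : Finset E, (symmDiff z W).card + (symmDiff W S).card = D →
      lev (θ W) = (symmDiff z W).card := by
    intro W hW
    have h1 := lev_lip' hθ W z
    have h2 := lev_lip' hθ S W
    rw [symmDiff_comm W z] at h1
    rw [symmDiff_comm S W] at h2
    omega
  intro m
  induction m with
  | zero =>
    intro W hW hW2 hne
    have hWS : W = S := by
      rw [Finset.card_eq_zero] at hW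
      exact symmDiff_eq_bot.mp hW
    subst hWS
    exact ⟨hlev _ (by rw [hW]; exact hW2), rfl⟩
  | succ m ih =>
    intro W hW hW2 hne
    refine ⟨hlev _ (by rw [hW]; exact hW2), ?_⟩
    obtain ⟨i, hi⟩ : (symmDiff W S).Nonempty := by
      rw [← Finset.card_pos]; omega
    have h1 := tog_symmDiff hi
    have h2 : (symmDiff (tog i W) S).card = m := by
      rw [h1, Finset.card_erase_of_mem hi]; omega
    have hWi : (symmDiff W (tog i W)).card = 1 := by
      rw [symmDiff_tog]; simp
    have h3 := card_symmDiff_tri z W (tog i W)
    have h4 := card_symmDiff_tri z (tog i W) S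
    have hzW : 0 < (symmDiff z W).card := by
      rw [Finset.card_pos]
      by_contra hcon
      rw [Finset.not_nonempty_iff_eq_empty] at hcon
      exact hne (symmDiff_eq_bot.mp hcon).symm
    have h5 : (symmDiff z (tog i W)).card + m = D := by omega
    have hne' : tog i W ≠ z := by
      intro h
      rw [h] at h5
      simp at h5
      omega
    obtain ⟨h6, h7⟩ := ih _ h2 h5 hne'
    have h8 := hlev W (by rw [hW]; exact hW2)
    rw [← h7]
    have h9 := (near_lev (hθ W (tog i W) ⟨i, rfl⟩)).2.2 (by omega) (by omega) (by omega) (by omega)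
    rcases h9 with h | h
    · exact h
    · omega

theorem HL7 (xc1 : S_XC1) (hl2 : S_HL2) (hl3 : S_HL3) : S_HL7 := by
  intro V G eta F θ hh z hz hz0 S hS
  by_contra hcon
  push Not at hcon
  have hθ := hh.gm
  obtain ⟨hcnt, hcard, htog, hmono, hex, -, -, htc⟩ := xc1
  -- facts for a single block zero of size two
  have key : ∀ z : Finset E, Helper71.SD.Small z → lev (θ z) = 0 → ∀ a, (∀ i ∈ z, blk i = a) →
      z.card = 2 ∧ S.card = 3 ∧ Disjoint z S ∧ lev (θ S) = 5 ∧ lev (θ ∅) = 2 ∧
      lab (θ ∅) = lab (θ S) ∧ ∀ e ∈ S,
      ∑ b, |F (lab (θ S)) b - (if b = a then 3 else if b = blk e then 1 else 0)| ≤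
        if blk e = a then 0 else 1 := by
    intro z hz hz0 a ha
    have hca : cnt a z = z.card := by
      unfold cnt
      rw [Finset.filter_true_of_mem ha]
    have hcb : ∀ b, b ≠ a → cnt b z = 0 := by
      intro b hb
      unfold cnt
      rw [Finset.card_eq_zero, Finset.filter_eq_empty_iff]
      intro i hi h
      exact hb (h.symm.trans (ha i hi))
    have hle : ∀ b, cnt b z ≤ 5 := by
      intro b
      by_cases hb : b = a
      · rw [hb, hca]; have := hz.1; omega
      · rw [hcb b hb]; omega
    have h1 := (hl2 V G eta F 6 3 θ hh z hle a).1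
    rw [hca] at h1
    have hz2 : z.card ≤ 2 := by omega
    have h2 := lev_lip' hθ S z
    have h3 := card_symmDiff_le S z
    have hzc : z.card = 2 := by omega
    have hSc : S.card = 3 := by omega
    have hd : (symmDiff z S).card = 5 := by rw [symmDiff_comm]; omega
    have hlevS : lev (θ S) = 5 := by rw [symmDiff_comm] at h2; omega
    have hdisj : Disjoint z S := by
      rw [Finset.disjoint_iff_inter_eq_empty, ← Finset.card_eq_zero]
      have h4 := card_symmDiff_add_inter z S
      have h5 := Finset.card_union_add_card_inter z S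
      omega
    have hgeo := lab_geod hθ hd hz0 (by omega) (by norm_num)
    have hE : lev (θ ∅) = 2 ∧ lab (θ ∅) = lab (θ S) := by
      have h6 : (symmDiff (∅ : Finset E) S).card = 3 := by
        have : symmDiff (∅ : Finset E) S = S := by
          ext i; simp [Finset.mem_symmDiff]
        rw [this, hSc]
      have h7 : (symmDiff z (∅ : Finset E)).card = 2 := by
        have : symmDiff z (∅ : Finset E) = z := by
          ext i; simp [Finset.mem_symmDiff]
        rw [this, hzc]
      have hne : (∅ : Finset E) ≠ z := by
        intro h; rw [← h] at hzc; simp at hzc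
      have := hgeo 3 ∅ h6 (by rw [h7]) hne
      rw [h7] at this
      exact this
    refine ⟨hzc, hSc, hdisj, hlevS, hE.1, hE.2, ?_⟩
    intro e he
    have hez : e ∉ z := fun h => (Finset.disjoint_left.mp hdisj) h he
    have h8 : (symmDiff z (tog e z)).card = 1 := by
      rw [symmDiff_tog]; simp
    have h9 : (symmDiff (tog e z) S).card = 4 := by
      have hi : e ∈ symmDiff z S := by
        rw [Finset.mem_symmDiff]; exact Or.inr ⟨he, hez⟩
      rw [tog_symmDiff hi, Finset.card_erase_of_mem hi, hd]
    obtain ⟨h10, h11⟩ := hgeo 4 (tog e z) h9 (by rw [h8]) (tog_ne e z)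
    rw [h8] at h10
    have hcnt' : ∀ b, cnt b (tog e z) = cnt b z + if blk e = b then 1 else 0 := by
      intro b
      split_ifs with hb
      · exact (htog b e z).2.2 hb hez
      · exact (htog b e z).1 hb
    have hle' : ∀ b, cnt b (tog e z) ≤ 5 := by
      intro b
      rw [hcnt' b]
      by_cases hb : b = a
      · rw [hb, hca, hzc]; split_ifs <;> omega
      · rw [hcb b hb]; split_ifs <;> omega
    have h12 := (hl3 V G eta F 6 3 θ hh (tog e z) hle' a ?_).2
    · rw [h10, h11] at h12
      have hsum : ∑ b, |F (lab (θ S)) b - (if b = a then 3 else if b = blk e then 1 else 0)| =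
          ∑ b, |F (lab (θ S)) b - (if b = a then 3 else min 3 (cnt b (tog e z) : ℤ))| := by
        apply Finset.sum_congr rfl
        intro b _
        by_cases hb : b = a
        · simp [hb]
        · rw [if_neg hb, if_neg hb, hcnt' b, hcb b hb]
          by_cases hbe : b = blk e
          · subst hbe; simp
          · rw [if_neg hbe, if_neg (Ne.symm hbe)]; simp
      rw [hsum]
      have hca' := hcnt' a
      rw [hca, hzc] at hca'
      have habs : |((1 : ℕ) : ℤ) - ((3 : ℕ) : ℤ)| = 2 := by norm_num
      rw [habs] at h12
      split_ifs at hca' ⊢ with hb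
      · rw [hca'] at h12; push_cast at h12; linarith
      · rw [hca'] at h12; push_cast at h12; linarith
    · intro S' hsub hblk hc5
      by_cases hS' : S' = tog e z
      · rw [hS', h10]; omega
      · -- then `cnt a S' ≥ 3`
        have hss : tog e z ⊂ S' := lt_of_le_of_ne hsub (Ne.symm hS')
        obtain ⟨i, hi, hi'⟩ := Finset.exists_of_ssubset hss
        have hia := hblk i hi hi'
        have hca3 : 3 ≤ cnt a S' := by
          have h13 : cnt a (tog e z) < cnt a S' := by
            unfold cnt
            apply Finset.card_lt_card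
            rw [Finset.ssubset_iff_of_subset (Finset.filter_subset_filter _ hsub)]
            exact ⟨i, by simp [hi, hia], by simp [hi']⟩
          have := hcnt' a
          rw [hca, hzc] at this
          omega
        have hle'' : ∀ b, cnt b S' ≤ 5 := by
          intro b
          by_cases hb : b = a
          · rw [hb]; exact hc5
          · have : cnt b S' = cnt b (tog e z) := by
              unfold cnt
              congr 1
              ext j
              simp only [Finset.mem_filter]
              constructor
              · rintro ⟨hj, hjb⟩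
                refine ⟨?_, hjb⟩
                by_contra hj'
                exact hb (hjb.symm.trans (hblk j hj hj'))
              · rintro ⟨hj, hjb⟩
                exact ⟨hsub hj, hjb⟩
            rw [this]; exact hle' b
        have h14 := hl2 V G eta F 6 3 θ hh S' hle'' a
        omega
  obtain ⟨a, ha⟩ := hz.2
  obtain ⟨hzc, hSc, hdisj, hlevS, hE, hlabE, hk⟩ := key z hz hz0 a ha
  obtain ⟨e, he⟩ : S.Nonempty := by rw [← Finset.card_pos]; omega
  have hke := hk e he
  obtain ⟨c, hca, hce⟩ := third_block a (blk e)
  -- a pole in the block `c`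
  have hpole : ∃ z' : Finset E, Helper71.SD.Small z' ∧ lev (θ z') = 0 ∧ ∀ i ∈ z', blk i = c := by
    by_contra hno
    push Not at hno
    have hE5 : ∀ b, cnt b (∅ : Finset E) ≤ 5 := by intro b; simp [cnt]
    have h1 := (hl3 V G eta F 6 3 θ hh ∅ hE5 c ?_).2
    · rw [hE, hlabE] at h1
      have hc0 : ∀ b, cnt b (∅ : Finset E) = 0 := by intro b; simp [cnt]
      simp only [hc0] at h1
      have habs : |((2 : ℕ) : ℤ) - ((3 : ℕ) : ℤ)| = 1 := by norm_num
      rw [habs] at h1
      set f := F (lab (θ S)) with hf
      rw [Fin.sum_univ_three] at h1 hke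
      have h2 : ∀ x : ℤ, |x| = max x (-x) := fun x => rfl
      generalize blk e = b at *
      have hke' : |f 0 - (if (0 : Fin 3) = a then 3 else if (0 : Fin 3) = b then 1 else 0)| +
          |f 1 - (if (1 : Fin 3) = a then 3 else if (1 : Fin 3) = b then 1 else 0)| +
          |f 2 - (if (2 : Fin 3) = a then 3 else if (2 : Fin 3) = b then 1 else 0)| ≤
          if b = a then 0 else 1 := hke
      fin_cases a <;> fin_cases b <;> fin_cases c <;> simp at hca hce hke' h1 <;>
        simp only [h2] at * <;> omega
    · intro S' _ hblk hc5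
      have hblk' : ∀ i ∈ S', blk i = c := fun i hi => hblk i hi (by simp)
      have hcc : cnt c S' = S'.card := by
        unfold cnt
        rw [Finset.filter_true_of_mem hblk']
      have hle : ∀ b, cnt b S' ≤ 5 := by
        intro b
        by_cases hb : b = c
        · rw [hb]; exact hc5
        · have : cnt b S' = 0 := by
            unfold cnt
            rw [Finset.card_eq_zero, Finset.filter_eq_empty_iff]
            intro i hi h
            exact hb (h.symm.trans (hblk' i hi))
          omega
      have h3 := hl2 V G eta F 6 3 θ hh S' hle c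
      rw [hcc] at h3
      have h4 := lev_lip' hθ S' ∅
      have h5 := lev_lip' hθ ∅ S'
      have h6 : symmDiff S' (∅ : Finset E) = S' := by ext i; simp [Finset.mem_symmDiff]
      have h7 : symmDiff (∅ : Finset E) S' = S' := by ext i; simp [Finset.mem_symmDiff]
      rw [h6, hE] at h4
      rw [h7, hE] at h5
      have h8 : lev (θ S') ≠ 0 := by
        intro h
        obtain ⟨i, hi, hi'⟩ := hno S' ⟨by omega, c, hblk'⟩ h
        exact hi' (hblk' i hi)
      omega
  obtain ⟨z', hz', hz0', hb'⟩ := hpole
  obtain ⟨-, -, -, -, -, -, hk'⟩ := key z' hz' hz0' c hb'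
  have hke' := hk' e he
  have h2 : ∀ x : ℤ, |x| = max x (-x) := fun x => rfl
  set f := F (lab (θ S)) with hf
  rw [Fin.sum_univ_three] at hke hke'
  generalize blk e = b at *
  fin_cases a <;> fin_cases b <;> fin_cases c <;> simp at hca hce hke hke' <;>
    simp only [h2] at * <;> omega

end Pool.Agent.Helper38.SD
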