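import Pool.Agent.Helper71.SD.Goals

namespace Pool.Agent.Helper71.SD.TW2

open Pool.Agent.Helper71.AHtpy SimpleGraph

theorem etaT_le (s : T) : etaT s ≤ 8 := by
  cases s with
  | base y => simp [etaT]
  | cyl m A g i l => simp only [etaT]; exact min_le_left _ _
  | apex m A g => simp [etaT]

theorem eta_step (s : T) : ∀ t, Valid s → Valid t → TE s t →
    etaT s ≤ etaT t + 1 ∧ etaT t ≤ etaT s + 1 := by
  induction s with
  | base y =>
    intro t _ _ h
    cases h with
    | base y y' h => simp [etaT]
  | cyl m A g i l ih =>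
    intro t hs ht h
    cases h with
    | hor _ _ _ _ j _ hadj =>
      obtain ⟨hv, hg, -, -⟩ := hs
      have key : etaT (g i) ≤ etaT (g j) + 1 ∧ etaT (g j) ≤ etaT (g i) + 1 := by
        rcases hg i j hadj with h | h | h
        · rw [h]; omega
        · exact ih i _ (hv i) (hv j) h
        · exact (ih j _ (hv j) (hv i) h).symm
      simp only [etaT]
      omega
    | ver _ _ _ _ _ =>
      simp only [etaT]
      omega
    | top _ _ _ _ =>
      simp only [etaT]
      omega
    | foot _ _ _ _ =>
      have := etaT_le (g i)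
      simp only [etaT]
      omega
  | apex m A g ih =>
    intro t _ _ h
    cases h

theorem ext_step (F₀ : C0 → Fin 3 → ℤ)
    (h1 : ∀ y y', X0.Adj y y' → ∑ a, |F₀ y a - F₀ y' a| ≤ 1) (s : T) :
    ∀ t, Valid s → Valid t → TE s t → etaT s < 7 → etaT t < 7 →
      ∑ a, |extT F₀ s a - extT F₀ t a| ≤ 1 := by
  induction s with
  | base y =>
    intro t _ _ h _ _
    cases h with
    | base y y' h => exact h1 _ _ h
  | cyl m A g i l ih =>
    intro t hs ht h he he'
    cases h with
    | hor _ _ _ _ j _ hadj =>
      obtain ⟨hv, hg, -, -⟩ := hs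
      simp only [etaT] at he he'
      have e1 : etaT (g i) < 7 := by omega
      have e2 : etaT (g j) < 7 := by omega
      simp only [extT]
      rcases hg i j hadj with h | h | h
      · rw [h]; simp
      · exact ih i _ (hv i) (hv j) h e1 e2
      · have := ih j _ (hv j) (hv i) h e2 e1
        simpa only [abs_sub_comm] using this
    | ver _ _ _ _ _ =>
      simp [extT]
    | top _ _ _ _ =>
      simp [etaT] at he'
    | foot _ _ _ _ =>
      simp [extT]
  | apex m A g ih =>
    intro t _ _ h
    cases h

theorem ext_top (F₀ : C0 → Fin 3 → ℤ) (h2 : ∀ y, ∃ a, F₀ y a = 3) (s : T) :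
    etaT s < 7 → ∃ a, extT F₀ s a = 3 := by
  induction s with
  | base y => exact fun _ => h2 y
  | cyl m A g i l ih =>
    intro h
    simp only [etaT] at h
    exact ih i (by omega)
  | apex m A g ih =>
    intro h
    simp [etaT] at h

theorem tw2 : S_TW2 := by
  refine ⟨?_, ?_⟩
  · intro s t hs ht h
    rcases h with h | h | h
    · rw [h]; omega
    · exact (eta_step s t hs ht h).1
    · exact (eta_step t s ht hs h).2
  · intro F₀ h1 h2
    refine ⟨?_, fun s => ext_top F₀ h2 s⟩
    intro s t hs ht h he he'
    rcases h with h | h | h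
    · rw [h]; simp
    · exact ext_step F₀ h1 s t hs ht h he he'
    · have := ext_step F₀ h1 t s ht hs h he' he
      simpa only [abs_sub_comm] using this

end Pool.Agent.Helper71.SD.TW2
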