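import Pool.Agent.Helper71.SD.Goals

namespace Pool.Agent.Helper71.SD.TW3

open Pool.Agent.Helper71.AHtpy SimpleGraph

theorem te_inv {s t : T} (h : TE s t) :
    (∃ y y', X0.Adj y y' ∧ s = .base y ∧ t = .base y') ∨
    (∃ (m : ℕ) (A : SimpleGraph (Fin m)) (g : Fin m → T) (i j : Fin m) (l : ℕ), A.Adj i j ∧
      s = .cyl m A g i l ∧ t = .cyl m A g j l) ∨
    (∃ (m : ℕ) (A : SimpleGraph (Fin m)) (g : Fin m → T) (i : Fin m) (l : ℕ),
      s = .cyl m A g i l ∧ t = .cyl m A g i (l + 1)) ∨
    (∃ (m : ℕ) (A : SimpleGraph (Fin m)) (g : Fin m → T) (i : Fin m),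
      s = .cyl m A g i 7 ∧ t = .apex m A g) ∨
    ∃ (m : ℕ) (A : SimpleGraph (Fin m)) (g : Fin m → T) (i : Fin m),
      s = .cyl m A g i 0 ∧ t = g i := by
  cases h with
  | base y y' h => exact Or.inl ⟨y, y', h, rfl, rfl⟩
  | hor m A g i j l h => exact Or.inr (Or.inl ⟨m, A, g, i, j, l, h, rfl, rfl⟩)
  | ver m A g i l => exact Or.inr (Or.inr (Or.inl ⟨m, A, g, i, l, rfl, rfl⟩))
  | top m A g i => exact Or.inr (Or.inr (Or.inr (Or.inl ⟨m, A, g, i, rfl, rfl⟩)))
  | foot m A g i => exact Or.inr (Or.inr (Or.inr (Or.inr ⟨m, A, g, i, rfl, rfl⟩)))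

theorem foot_cyl (m : ℕ) (A : SimpleGraph (Fin m)) (g : Fin m → T) (i : Fin m) (S : Finset E)
    (h : g i = .base (.mid S)) : footT (.cyl m A g i 0) = some S := by
  simp only [footT, h]

theorem foot_spec {t : T} {S : Finset E} (h : footT t = some S) :
    ∃ (m : ℕ) (A : SimpleGraph (Fin m)) (g : Fin m → T) (i : Fin m),
      t = .cyl m A g i 0 ∧ g i = .base (.mid S) := by
  cases t with
  | base y => simp [footT] at h
  | apex m A g => simp [footT] at h
  | cyl m A g i l =>
    cases l with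
    | succ l => simp [footT] at h
    | zero =>
      refine ⟨m, A, g, i, rfl, ?_⟩
      simp only [footT] at h
      split at h
      · rename_i S' hS'
        rw [hS']
        injection h with h
        rw [h]
      · simp at h

theorem tw3 : S_XC2 → S_TW3 := by
  intro xc2
  refine ⟨?_, ?_, ?_⟩
  · intro S hS t ht
    rcases ht with ht | ht
    · rcases te_inv ht with ⟨y, y', hadj, h1, h2⟩ | ⟨m, A, g, i, j, l, _, h1, _⟩ |
        ⟨m, A, g, i, l, h1, _⟩ | ⟨m, A, g, i, h1, _⟩ | ⟨m, A, g, i, h1, _⟩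
      · injection h1 with h1
        subst h1
        obtain ⟨-, S₁, T₁, hST, -, -, hS₁, hT₁⟩ := hadj
        have := ((xc2.2.1 S₁ S).mp hS₁).1
        subst this
        left
        exact ⟨T₁, hST, by rw [h2, hT₁]⟩
      · cases h1
      · cases h1
      · cases h1
      · cases h1
    · rcases te_inv ht with ⟨y, y', hadj, h1, h2⟩ | ⟨m, A, g, i, j, l, _, _, h1⟩ |
        ⟨m, A, g, i, l, _, h1⟩ | ⟨m, A, g, i, _, h1⟩ | ⟨m, A, g, i, h1, h2⟩
      · injection h2 with h2
        subst h2
        obtain ⟨-, S₁, T₁, hST, -, -, hS₁, hT₁⟩ := hadj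
        have := ((xc2.2.1 T₁ S).mp hT₁).1
        subst this
        left
        exact ⟨S₁, hST.symm, by rw [h1, hS₁]⟩
      · cases h1
      · cases h1
      · cases h1
      · right
        rw [h1]
        exact foot_cyl m A g i S h2.symm
  · intro t S y ht h
    obtain ⟨m, A, g, i, ht1, hgi⟩ := foot_spec ht
    subst ht1
    rcases h with h | h
    · rcases te_inv h with ⟨_, _, _, h1, _⟩ | ⟨_, _, _, _, _, _, _, _, h1⟩ |
        ⟨_, _, _, _, _, _, h1⟩ | ⟨_, _, _, _, _, h1⟩ | ⟨m', A', g', i', h1, h2⟩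
      · cases h1
      · cases h1
      · cases h1
      · cases h1
      · injection h1 with hm hA hg hi
        subst hm
        have hg' := eq_of_heq hg
        have hi' := eq_of_heq hi
        subst hg' hi'
        rw [hgi] at h2
        injection h2
    · rcases te_inv h with ⟨_, _, _, _, h1⟩ | ⟨_, _, _, _, _, _, _, h1, _⟩ |
        ⟨_, _, _, _, _, h1, _⟩ | ⟨_, _, _, _, h1, _⟩ | ⟨m', A', g', i', h1, h2⟩
      · cases h1
      · cases h1
      · cases h1
      · cases h1
      · cases h1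
  · have key : ∀ s t S S', footT s = some S → footT t = some S' → TE s t →
        ∃ (m : ℕ) (A : SimpleGraph (Fin m)) (g : Fin m → T) (i j : Fin m), A.Adj i j ∧
          s = .cyl m A g i 0 ∧ t = .cyl m A g j 0 ∧ g i = .base (.mid S) ∧
          g j = .base (.mid S') := by
      intro s t S S' hs ht h
      obtain ⟨m₁, A₁, g₁, i₁, hs1, hgi₁⟩ := foot_spec hs
      obtain ⟨m₂, A₂, g₂, i₂, ht1, hgi₂⟩ := foot_spec ht
      subst hs1
      rcases te_inv h with ⟨_, _, _, h1, _⟩ | ⟨m, A, g, i, j, l, hadj, h1, h2⟩ |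
        ⟨_, _, _, _, l, _, h2⟩ | ⟨_, _, _, _, h1, _⟩ | ⟨m, A, g, i, h1, h2⟩
      · cases h1
      · injection h1 with hm hA hg hi hl
        subst hm
        have hA' := eq_of_heq hA
        have hg' := eq_of_heq hg
        have hi' := eq_of_heq hi
        subst hA' hg' hi' hl
        rw [ht1] at h2
        injection h2 with hm hA hg hi
        subst hm
        have hA' := eq_of_heq hA
        have hg' := eq_of_heq hg
        have hi' := eq_of_heq hi
        subst hA' hg' hi'
        exact ⟨_, _, _, _, _, hadj, rfl, ht1, hgi₁, hgi₂⟩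
      · rw [ht1] at h2
        injection h2 with _ _ _ _ h3
        omega
      · injection h1 with _ _ _ _ h3
        omega
      · injection h1 with hm hA hg hi
        subst hm
        have hg' := eq_of_heq hg
        have hi' := eq_of_heq hi
        subst hg' hi'
        rw [ht1, hgi₁] at h2
        cases h2
    intro s t S S' _ hs ht h
    rcases h with h | h
    · exact key s t S S' hs ht h
    · obtain ⟨m, A, g, i, j, hadj, h1, h2, h3, h4⟩ := key t s S' S ht hs h
      exact ⟨m, A, g, j, i, hadj.symm, h2, h1, h4, h3⟩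

end Pool.Agent.Helper71.SD.TW3
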